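import Pool.Agent.LIR.Defs

set_option autoImplicit false

open Pool.Agent.COST

namespace Pool.Agent.LIR

/-!
**[LIR-B1] Consistent functions.** PROOF. `cons_conj`: let `c = v (h u h⁻¹)`, `t = h0 h⁻¹`, `v t ≤ c`
(`JS.v_symm`). If `c = ⊥` then `h = h0`. Otherwise `h0 u h0⁻¹ = t (h u h⁻¹) t⁻¹`, so `v (h0 u h0⁻¹) ≤ c`
(`JS.le_mul`, `v_inv`) and `ψ c (h0 u h0⁻¹) = ψ c t + ψ c (h u h⁻¹) - ψ c t ≠ 0`, so `v (h0 u h0⁻¹) = c`
(`ψ_zero`). `cons_max`: wlog `β h ≤ α h`; `α h0 = α h`; if `β h0 > α h0` then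
`v (h0 h⁻¹) ≤ α h ≤ β h0`, so `β h = β h0 > α h`, contradiction. `cons_shift`:
`(h g) (h0 g)⁻¹ = h h0⁻¹`.
-/

private theorem B1_flip {H : Type} [Group H] (S : JS H) (x y : H) :
    S.v (x * y⁻¹) = S.v (y * x⁻¹) := by
  rw [← S.v_inv (x * y⁻¹)]
  congr 1
  group

private theorem B1_one {H : Type} [Group H] (S : JS H) (c : S.Λ) : S.ψ c 1 = 0 := by
  have h1 : S.v (1 : H) = ⊥ := (S.v_bot 1).2 rfl
  have h2 : S.v (1 : H) < c := by
    rw [h1]
    exact WithBot.bot_lt_coe c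
  exact (S.ψ_zero c 1 h2.le).2 h2

private theorem B1_conj {H : Type} [Group H] (S : JS H) (c : S.Λ) (t w : H) (ht : S.v t ≤ c)
    (hw : S.v w = c) : S.v (t * w * t⁻¹) = c := by
  have hti : S.v t⁻¹ ≤ c := by
    rw [S.v_inv]
    exact ht
  have h1 : S.v (t * w) ≤ c := (S.v_mul t w).trans (max_le ht hw.le)
  have h2 : S.v (t * w * t⁻¹) ≤ c := (S.v_mul _ _).trans (max_le h1 hti)
  have h3 : S.ψ c (t * w * t⁻¹) = S.ψ c w := by
    rw [S.ψ_mul c _ _ h1 hti, S.ψ_mul c _ _ ht hw.le]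
    have h4 := S.ψ_mul c t t⁻¹ ht hti
    rw [mul_inv_cancel, B1_one] at h4
    linarith
  have h5 : S.ψ c w ≠ 0 := by
    intro h0
    have := (S.ψ_zero c w hw.le).1 h0
    rw [hw] at this
    exact lt_irrefl _ this
  refine le_antisymm h2 (not_lt.1 fun hlt => ?_)
  exact h5 (h3 ▸ (S.ψ_zero c _ h2).2 hlt)

theorem cons_conj {H : Type} [Group H] (S : JS H) (u : H) :
    Cons S (fun h => S.v (h * u * h⁻¹)) := by
  intro h h0 hh
  change S.v (h0 * u * h0⁻¹) = S.v (h * u * h⁻¹)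
  have hh' : S.v (h0 * h⁻¹) ≤ S.v (h * u * h⁻¹) := by
    rw [B1_flip]
    exact hh
  have he : h0 * u * h0⁻¹ = (h0 * h⁻¹) * (h * u * h⁻¹) * (h0 * h⁻¹)⁻¹ := by group
  rcases eq_or_ne (S.v (h * u * h⁻¹)) ⊥ with hb | hb
  · rw [hb, le_bot_iff, S.v_bot, mul_inv_eq_one] at hh'
    rw [hh']
  · obtain ⟨c, hc⟩ := WithBot.ne_bot_iff_exists.1 hb
    rw [he, ← hc]
    exact B1_conj S c _ _ (hh'.trans hc.symm.le) hc.symm

theorem cons_max {H : Type} [Group H] {S : JS H} {α β : H → WithBot S.Λ} (hα : Cons S α)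
    (hβ : Cons S β) : Cons S (fun h => max (α h) (β h)) := by
  intro h h0 hh
  change max (α h0) (β h0) = max (α h) (β h)
  have hh2 : S.v (h * h0⁻¹) ≤ max (α h) (β h) := hh
  rcases le_total (β h) (α h) with hle | hle
  · rw [max_eq_left hle] at hh2 ⊢
    have h1 := hα h h0 hh2
    rw [h1]
    refine max_eq_left (not_lt.1 fun hlt => ?_)
    have h3 : S.v (h0 * h⁻¹) ≤ β h0 := by
      rw [B1_flip]
      exact hh2.trans hlt.le
    have h4 := hβ h0 h h3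
    rw [h4] at hle
    exact absurd hlt (not_lt.2 hle)
  · rw [max_eq_right hle] at hh2 ⊢
    have h1 := hβ h h0 hh2
    rw [h1]
    refine max_eq_right (not_lt.1 fun hlt => ?_)
    have h3 : S.v (h0 * h⁻¹) ≤ α h0 := by
      rw [B1_flip]
      exact hh2.trans hlt.le
    have h4 := hα h0 h h3
    rw [h4] at hle
    exact absurd hlt (not_lt.2 hle)

theorem cons_shift {H : Type} [Group H] {S : JS H} {α : H → WithBot S.Λ} (hα : Cons S α) (g : H) :
    Cons S (fun h => α (h * g)) := by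
  intro h h0 hh
  change α (h0 * g) = α (h * g)
  have hh2 : S.v (h * h0⁻¹) ≤ α (h * g) := hh
  refine hα (h * g) (h0 * g) ?_
  have he : h * g * (h0 * g)⁻¹ = h * h0⁻¹ := by group
  rw [he]
  exact hh2

end Pool.Agent.LIR
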