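import Pool.Agent.LIR.Defs

set_option autoImplicit false

open Pool.Agent.COST

namespace Pool.Agent.LIR

/-!
**[LIR-B3] Elementary properties of `Hom` and `Ex`.** PROOF. All by unfolding; for the changes of
base points use `k g1⁻¹ = (k g0⁻¹) (g0 g1⁻¹)`, `JS.le_mul`, `v_inv`, `ψ_mul`, `JS.ψ_tri`.
`Hom.mul`: if `mulOp X Y h k ≠ 0` then there is `m` with `X h m ≠ 0`, `Y m k ≠ 0`
(`finsum_eq_zero_of_forall_eq_zero`).
-/

theorem Hom.add {H : Type} [Group H] {S : JS H} {a : S.Λ} {h0 g0 : H} {r : ℝ} {X Y : Op H}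
    (hX : Hom S a h0 g0 r X) (hY : Hom S a h0 g0 r Y) : Hom S a h0 g0 r (X + Y) := by
  intro h k hne
  by_cases h1 : X h k = 0
  · have h2 : Y h k ≠ 0 := by
      intro h3
      apply hne
      show X h k + Y h k = 0
      rw [h1, h3, add_zero]
    exact hY h k h2
  · exact hX h k h1

theorem Hom.zero {H : Type} [Group H] (S : JS H) (a : S.Λ) (h0 g0 : H) (r : ℝ) :
    Hom S a h0 g0 r 0 := by
  intro h k hne
  exact absurd rfl hne

theorem Hom.neg {H : Type} [Group H] {S : JS H} {a : S.Λ} {h0 g0 : H} {r : ℝ} {X : Op H}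
    (hX : Hom S a h0 g0 r X) : Hom S a h0 g0 r (-X) := by
  intro h k hne
  refine hX h k ?_
  intro h1
  apply hne
  show -(X h k) = 0
  rw [h1, neg_zero]

theorem Hom.mul {H : Type} [Group H] {S : JS H} {a : S.Λ} {h0 g0 k0 : H} {r r' : ℝ} {X Y : Op H}
    (hX : Hom S a h0 g0 r X) (hY : Hom S a g0 k0 r' Y) : Hom S a h0 k0 (r + r') (mulOp X Y) := by
  intro h k hne
  obtain ⟨m, hm⟩ : ∃ m, X h m * Y m k ≠ 0 := by
    by_contra hcon
    push Not at hcon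
    exact hne (finsum_eq_zero_of_forall_eq_zero hcon)
  have h1 := hX h m (left_ne_zero_of_mul hm)
  have h2 := hY m k (right_ne_zero_of_mul hm)
  refine ⟨h1.1.trans h2.1, fun h3 => ?_⟩
  rw [h2.2 (h1.1.1 h3), h1.2 h3]
  ring

theorem Hom.finsum {H : Type} [Group H] {S : JS H} {a : S.Λ} {h0 g0 : H} {r : ℝ} {ι : Type}
    {X : ι → Op H} (hX : ∀ i, Hom S a h0 g0 r (X i)) : Hom S a h0 g0 r (∑ᶠ i, X i) := by
  exact finsum_induction (p := fun Z : Op H => Hom S a h0 g0 r Z) (Hom.zero S a h0 g0 r)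
    (fun Z Z' hZ hZ' => hZ.add hZ') hX

theorem Hom.one {H : Type} [Group H] (S : JS H) (a : S.Λ) (h0 : H) :
    Hom S a h0 h0 0 (oneOp : Op H) := by
  intro h k hne
  have h1 : k = h := by
    by_contra hcon
    apply hne
    show (Finsupp.single (1 : H) (1 : ℂ)) (h⁻¹ * k) = 0
    rw [Finsupp.single_eq_of_ne]
    intro h2
    exact hcon (inv_mul_eq_one.1 h2).symm
  rw [h1]
  exact ⟨Iff.rfl, fun _ => (add_zero _).symm⟩

/-- change of both base points inside their blocks -/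
theorem Hom.rebase {H : Type} [Group H] {S : JS H} {a : S.Λ} {h0 g0 h1 g1 : H} {r : ℝ} {X : Op H}
    (hX : Hom S a h0 g0 r X) (hh : S.v (h0 * h1⁻¹) ≤ a) (hg : S.v (g0 * g1⁻¹) ≤ a) :
    Hom S a h1 g1 (r + S.ψ a (g0 * g1⁻¹) - S.ψ a (h0 * h1⁻¹)) X := by
  intro h k hne
  have hx := hX h k hne
  have hh' : S.v (h1 * h0⁻¹) ≤ a := by
    rw [S.v_symm]
    exact hh
  have hg' : S.v (g1 * g0⁻¹) ≤ a := by
    rw [S.v_symm]
    exact hg
  have e1 : S.v (h * h1⁻¹) ≤ a ↔ S.v (h * h0⁻¹) ≤ a :=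
    ⟨fun h2 => S.le_tri h2 hh', fun h2 => S.le_tri h2 hh⟩
  have e2 : S.v (k * g1⁻¹) ≤ a ↔ S.v (k * g0⁻¹) ≤ a :=
    ⟨fun h2 => S.le_tri h2 hg', fun h2 => S.le_tri h2 hg⟩
  refine ⟨e1.trans (hx.1.trans e2.symm), fun h2 => ?_⟩
  have h3 := e1.1 h2
  have h4 := hx.1.1 h3
  rw [S.ψ_tri a h4 hg, S.ψ_tri a h3 hh, hx.2 h3]
  ring

theorem Ex.add {H : Type} [Group H] {S : JS H} {a : S.Λ} {h0 g0 : H} {X X' : Op H}
    {Y Y' : ℝ → Op H} (e : Ex S a h0 g0 X Y) (e' : Ex S a h0 g0 X' Y') :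
    Ex S a h0 g0 (X + X') (fun r => Y r + Y' r) := by
  refine ⟨?_, fun r => (e.hom r).add (e'.hom r), ?_, ?_⟩
  · intro h k h1 hne
    by_cases h2 : X h k = 0
    · refine e'.supp h k h1 ?_
      intro h3
      apply hne
      show X h k + X' h k = 0
      rw [h2, h3, add_zero]
    · exact e.supp h k h1 h2
  · intro h k h1 h2
    show X h k + X' h k = Y _ h k + Y' _ h k
    rw [← e.eq h k h1 h2, ← e'.eq h k h1 h2]
  · intro R
    refine ((e.fin R).union (e'.fin R)).subset ?_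
    rintro r ⟨h1, h2⟩
    by_cases h3 : Y r = 0
    · right
      refine ⟨h1, fun h4 => h2 ?_⟩
      rw [h3, h4, add_zero]
    · exact Or.inl ⟨h1, h3⟩

theorem Ex.rebase {H : Type} [Group H] {S : JS H} {a : S.Λ} {h0 g0 g1 : H} {X : Op H}
    {Y : ℝ → Op H} (e : Ex S a h0 g0 X Y) (hg : S.v (g0 * g1⁻¹) ≤ a) :
    Ex S a h0 g1 X (fun r => Y (r - S.ψ a (g0 * g1⁻¹))) := by
  have hg' : S.v (g1 * g0⁻¹) ≤ a := by
    rw [S.v_symm]
    exact hg
  have h00 : S.v (h0 * h0⁻¹) ≤ a := by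
    rw [mul_inv_cancel, S.v_one]
    exact bot_le
  refine ⟨?_, ?_, ?_, ?_⟩
  · intro h k h1 hne
    exact S.le_tri (e.supp h k h1 hne) hg
  · intro r
    have h1 := (e.hom (r - S.ψ a (g0 * g1⁻¹))).rebase h00 hg
    rw [mul_inv_cancel, S.ψ_one, sub_zero, sub_add_cancel] at h1
    exact h1
  · intro h k h1 h2
    have h3 : S.v (k * g0⁻¹) ≤ a := S.le_tri h2 hg'
    rw [e.eq h k h1 h3, S.ψ_tri a h3 hg]
    congr 1
    ring_nf
  · intro R
    have h1 := (e.fin (R - S.ψ a (g0 * g1⁻¹))).image (fun r => r + S.ψ a (g0 * g1⁻¹))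
    refine h1.subset ?_
    rintro r ⟨h2, h3⟩
    exact ⟨r - S.ψ a (g0 * g1⁻¹), ⟨by linarith, h3⟩, by ring⟩

end Pool.Agent.LIR
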