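import Pool.Agent.LIR.Defs

set_option autoImplicit false

open Pool.Agent.COST

namespace Pool.Agent.LIR

/-!
**[LIR-B5] Rows of nice operators are tame.** PROOF. Induction on `Nice`. `fin`: the row
`k ↦ x (h⁻¹ k)` has finite support. `node`: `Tame.node (X h) (a h) (h g)`: `InCoset` is `supp`;
`piece S (a h) (h g) r (X h) = Y h r h`: if `v (k (h g)⁻¹) ≤ a h` and `ψ (a h) (k (h g)⁻¹) = r` use
`Ex.eq` with `h = h0` (`ψ (a h) (h h⁻¹) = 0`, `JS.ψ_one`, `JS.v_one`), otherwise `Y h r h k = 0` by
`Ex.hom`. `LocFin` from `Ex.fin`.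
-/

private theorem b5_fin {H : Type} [Group H] (x : H →₀ ℂ) (h : H) :
    (Function.support (finOp x h)).Finite := by
  have h1 : Function.support (finOp x h) = (fun k => h⁻¹ * k) ⁻¹' Function.support x := rfl
  rw [h1]
  exact x.hasFiniteSupport.preimage ((mul_right_injective h⁻¹).injOn)

theorem Nice.tame {H : Type} [Group H] {S : JS H} {X : Op H} (hX : Nice S X) (h : H) :
    Tame S (X h) := by
  unfold Nice at hX
  induction hX generalizing h with
  | fin x => exact Tame.fin _ (b5_fin x h)
  | node X g a Y hN hY hX ih =>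
    have hv : S.v (h * h⁻¹) ≤ (a h : WithBot S.Λ) := by
      rw [mul_inv_cancel, S.v_one]
      exact bot_le
    have hψ : S.ψ (a h) (h * h⁻¹) = 0 := by
      rw [mul_inv_cancel, S.ψ_one]
    have hpc : ∀ r, piece S (a h) (h * g) r (X h) = Y h r h := by
      intro r
      funext k
      unfold piece
      by_cases hk : S.v (k * (h * g)⁻¹) ≤ a h ∧ S.ψ (a h) (k * (h * g)⁻¹) = r
      · rw [if_pos hk]
        have h1 := (hN.ex h).eq h k hv hk.1
        rw [hψ, sub_zero, hk.2] at h1
        exact h1
      · rw [if_neg hk]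
        by_contra hc
        have h1 := (hN.ex h).hom r h k (fun h' => hc h'.symm)
        have h2 := h1.2 hv
        rw [hψ, zero_add] at h2
        exact hk ⟨h1.1.1 hv, h2⟩
    refine Tame.node (X h) (a h) (h * g) (fun k hk => hN.supp h k hk) ?_ ?_
    · intro R
      refine ((hN.ex h).fin R).subset ?_
      rintro r ⟨hr1, hr2⟩
      refine ⟨hr1, fun h0 => hr2 ?_⟩
      rw [hpc r, h0]
      rfl
    · intro r
      rw [hpc r]
      exact ih h r h

theorem NiceP.nice {H : Type} [Group H] {S : JS H} {Q : Op H → Prop} {X : Op H}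
    (hX : NiceP S Q X) : Nice S X := by
  induction hX with
  | fin x => exact NiceP.fin x
  | node X g a Y hN hY hX ih => exact NiceP.node X g a Y hN ih trivial

theorem NiceP.q {H : Type} [Group H] {S : JS H} {Q : Op H → Prop} (hQ : Closed S Q) {X : Op H}
    (hX : NiceP S Q X) : Q X := by
  cases hX with
  | fin x => exact hQ.fin x
  | node _ g a Y hN hY hX => exact hX

theorem Closed.true {H : Type} [Group H] (S : JS H) : Closed S (fun _ => True) :=
  ⟨fun _ => trivial, fun _ _ _ _ _ _ => trivial, fun _ _ _ _ _ _ => trivial⟩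

end Pool.Agent.LIR
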