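import Pool.Agent.LIR.Defs

set_option autoImplicit false

open Pool.Agent.COST

namespace Pool.Agent.LIR

/-!
**[LIR-B6] Products with finite operators.** PROOF. `rowMul u (finOp c) k = ∑ᶠ m, u m * c (m⁻¹ k)`;
substitute `m = k s⁻¹` (`finsum_comp_equiv`), the support is contained in that of `c`:
`rc u c k = c.sum fun s z => u (k * s⁻¹) * z`. Left: `m = h s`. `finOp_mul`: both sides at `(h, k)`
are `∑ s, x s * y (s⁻¹ h⁻¹ k)`.
-/

theorem rowMul_fin {H : Type} [Group H] (u : H → ℂ) (c : H →₀ ℂ) :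
    rowMul u (finOp c) = rc u c := by
  funext k
  show ∑ᶠ m, u m * c (m⁻¹ * k) = c.sum fun s z => u (k * s⁻¹) * z
  rw [← finsum_comp_equiv ((Equiv.inv H).trans (Equiv.mulLeft k))]
  have h1 : ∀ s : H, u (((Equiv.inv H).trans (Equiv.mulLeft k)) s) *
      c ((((Equiv.inv H).trans (Equiv.mulLeft k)) s)⁻¹ * k) = u (k * s⁻¹) * c s := by
    intro s
    have h2 : ((Equiv.inv H).trans (Equiv.mulLeft k)) s = k * s⁻¹ := rfl
    rw [h2]
    congr 2
    group
  rw [finsum_congr h1]
  rw [finsum_eq_sum_of_support_subset (s := c.support)]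
  · rfl
  · intro s hs
    rw [Finset.mem_coe, Finsupp.mem_support_iff]
    intro h0
    apply hs
    show u (k * s⁻¹) * c s = 0
    rw [h0, mul_zero]

theorem mulOp_fin_left {H : Type} [Group H] (x : H →₀ ℂ) (Y : Op H) (h k : H) :
    mulOp (finOp x) Y h k = x.sum fun s z => z * Y (h * s) k := by
  show ∑ᶠ m, x (h⁻¹ * m) * Y m k = x.sum fun s z => z * Y (h * s) k
  rw [← finsum_comp_equiv (Equiv.mulLeft h)]
  have h1 : ∀ s : H, x (h⁻¹ * (Equiv.mulLeft h) s) * Y ((Equiv.mulLeft h) s) k =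
      x s * Y (h * s) k := by
    intro s
    have h2 : (Equiv.mulLeft h) s = h * s := rfl
    rw [h2, inv_mul_cancel_left]
  rw [finsum_congr h1]
  rw [finsum_eq_sum_of_support_subset (s := x.support)]
  · rfl
  · intro s hs
    rw [Finset.mem_coe, Finsupp.mem_support_iff]
    intro h0
    apply hs
    show x s * Y (h * s) k = 0
    rw [h0, zero_mul]

theorem FF.fin_left {H : Type} [Group H] (x : H →₀ ℂ) (Y : Op H) : FF (finOp x) Y := by
  intro h k
  have h1 : ((fun m => h⁻¹ * m) ⁻¹' Function.support x).Finite :=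
    x.hasFiniteSupport.preimage ((mul_right_injective h⁻¹).injOn)
  exact h1.subset fun m hm => hm.1

theorem FF.fin_right {H : Type} [Group H] (X : Op H) (y : H →₀ ℂ) : FF X (finOp y) := by
  intro h k
  have h1 : ((fun m : H => m⁻¹ * k) ⁻¹' Function.support y).Finite := by
    refine y.hasFiniteSupport.preimage ?_
    intro a _ b _ hab
    exact inv_injective (mul_right_cancel hab)
  exact h1.subset fun m hm => hm.2

theorem one_mulOp {H : Type} [Group H] (X : Op H) : mulOp oneOp X = X := by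
  funext h k
  unfold oneOp
  rw [mulOp_fin_left, Finsupp.sum_single_index (zero_mul _), one_mul, mul_one]

theorem mulOp_one {H : Type} [Group H] (X : Op H) : mulOp X oneOp = X := by
  funext h k
  show rowMul (X h) (finOp (Finsupp.single 1 1)) k = X h k
  rw [rowMul_fin]
  show (Finsupp.single (1 : H) (1 : ℂ)).sum (fun s z => X h (k * s⁻¹) * z) = X h k
  rw [Finsupp.sum_single_index (mul_zero _), mul_one, inv_one, mul_one]

theorem zero_mulOp {H : Type} (X : Op H) : mulOp 0 X = 0 := by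
  funext h k
  show ∑ᶠ m, (0 : ℂ) * X m k = 0
  simp only [zero_mul, finsum_zero]

theorem mulOp_zero {H : Type} (X : Op H) : mulOp X 0 = 0 := by
  funext h k
  show ∑ᶠ m, X h m * (0 : ℂ) = 0
  simp only [mul_zero, finsum_zero]

theorem finOp_zero {H : Type} [Group H] : (finOp 0 : Op H) = 0 := rfl

theorem finOp_add {H : Type} [Group H] (x y : H →₀ ℂ) : (finOp (x + y) : Op H) = finOp x + finOp y :=
  rfl

theorem finOp_mul {H : Type} [Group H] (x y : H →₀ ℂ) :
    mulOp (finOp x) (finOp y) = finOp (mulF x y) := by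
  funext h k
  rw [mulOp_fin_left]
  show (x.sum fun s z => z * y ((h * s)⁻¹ * k)) = mulF x y (h⁻¹ * k)
  unfold mulF
  rw [Finsupp.sum_apply]
  refine Finsupp.sum_congr fun s _ => ?_
  rw [Finsupp.mapRange_apply]
  have h1 : h⁻¹ * k = (fun t => s * t) ((h * s)⁻¹ * k) := by
    show h⁻¹ * k = s * ((h * s)⁻¹ * k)
    group
  rw [h1, Finsupp.mapDomain_apply (mul_right_injective s)]

theorem finOp_inj {H : Type} [Group H] {x y : H →₀ ℂ} (h : (finOp x : Op H) = finOp y) : x = y := by
  refine Finsupp.ext fun k => ?_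
  have h1 : x ((1 : H)⁻¹ * k) = y ((1 : H)⁻¹ * k) := congrFun (congrFun h 1) k
  rwa [inv_one, one_mul] at h1

end Pool.Agent.LIR
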