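import Pool.Agent.LIR.B1
import Pool.Agent.LIR.B3
import Pool.Agent.LIR.B5
import Pool.Agent.LIR.B6

set_option autoImplicit false

open Pool.Agent.COST

namespace Pool.Agent.LIR

/-!
**[LIR-B9] Shifts and scalars.** PROOF. Induction on `NiceP`. `X = finOp y`: the result is `finOp`
of the translated function (`finOp_mul`). `X` a node with `g`, `a`, `Y`. Left (single s z): the operator is
`(h, k) ↦ z * X (h s) k` (`mulOp_fin_left`); node with `s g`, `a (h s)`, pieces
`mulOp (finOp (single s z)) (Y (h0 s) r)` (`(h s)(h0 s)⁻¹ = h h0⁻¹`, `(h0 s) g = h0 (s g)`); if `z = 0` it is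
`finOp 0`. Right: the operator is `(h, k) ↦ X h (k s⁻¹) * z` (`rowMul_fin`); node with `g s`, `a`,
pieces `mulOp (Y h0 r) (finOp (single s z))`. `Q`: `Closed.mul`, `Closed.fin`.
-/

theorem b9_left {H : Type} [Group H] (s : H) (z : ℂ) (X : Op H) (h k : H) :
    mulOp (finOp (Finsupp.single s z)) X h k = z * X (h * s) k := by
  rw [mulOp_fin_left, Finsupp.sum_single_index (zero_mul _)]

theorem b9_right {H : Type} [Group H] (s : H) (z : ℂ) (X : Op H) (h k : H) :
    mulOp X (finOp (Finsupp.single s z)) h k = X h (k * s⁻¹) * z := by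
  have h1 : mulOp X (finOp (Finsupp.single s z)) h = rc (X h) (Finsupp.single s z) :=
    rowMul_fin (X h) (Finsupp.single s z)
  rw [h1]
  unfold rc
  rw [Finsupp.sum_single_index (mul_zero _)]

theorem NiceP.single_mul {H : Type} [Group H] {S : JS H} {Q : Op H → Prop} (hQ : Closed S Q)
    (s : H) (z : ℂ) {X : Op H} (hX : NiceP S Q X) :
    NiceP S Q (mulOp (finOp (Finsupp.single s z)) X) := by
  induction hX with
  | fin y =>
    rw [finOp_mul]
    exact NiceP.fin _
  | node X g a Y hN hY hX ih =>
    have hNX : NiceP S Q X := NiceP.node X g a Y hN hY hX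
    refine NiceP.node _ (s * g) (fun h => a (h * s))
      (fun h0 r => mulOp (finOp (Finsupp.single s z)) (Y (h0 * s) r)) ?_ (fun h0 r => ih (h0 * s) r) ?_
    · refine ⟨cons_shift hN.cons s, ?_, ?_⟩
      · intro h k hk
        rw [b9_left] at hk
        have h1 := hN.supp (h * s) k (right_ne_zero_of_mul hk)
        rw [mul_assoc] at h1
        exact h1
      · intro h0
        have e := hN.ex (h0 * s)
        have hb : ∀ h : H, h * s * (h0 * s)⁻¹ = h * h0⁻¹ := fun h => by group
        have hg : h0 * (s * g) = h0 * s * g := (mul_assoc _ _ _).symm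
        rw [hg]
        refine ⟨?_, ?_, ?_, ?_⟩
        · intro h k hh hk
          rw [b9_left] at hk
          refine e.supp (h * s) k ?_ (right_ne_zero_of_mul hk)
          rw [hb]
          exact hh
        · intro r h k hk
          rw [b9_left] at hk
          have h1 := e.hom r (h * s) k (right_ne_zero_of_mul hk)
          rw [hb] at h1
          exact h1
        · intro h k hh hk
          rw [b9_left, b9_left]
          have h1 := e.eq (h * s) k (by rw [hb]; exact hh) hk
          rw [hb] at h1
          rw [h1]
        · intro R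
          refine (e.fin R).subset ?_
          rintro r ⟨hr, hne⟩
          refine ⟨hr, fun h0 => hne ?_⟩
          rw [h0, mulOp_zero]
    · exact hQ.mul _ _ (NiceP.fin _) hNX.nice (hQ.fin _) hX

theorem NiceP.mul_single {H : Type} [Group H] {S : JS H} {Q : Op H → Prop} (hQ : Closed S Q)
    (s : H) (z : ℂ) {X : Op H} (hX : NiceP S Q X) :
    NiceP S Q (mulOp X (finOp (Finsupp.single s z))) := by
  induction hX with
  | fin y =>
    rw [finOp_mul]
    exact NiceP.fin _
  | node X g a Y hN hY hX ih =>
    have hNX : NiceP S Q X := NiceP.node X g a Y hN hY hX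
    refine NiceP.node _ (g * s) a
      (fun h0 r => mulOp (Y h0 r) (finOp (Finsupp.single s z))) ?_ (fun h0 r => ih h0 r) ?_
    · have hb : ∀ h k : H, k * (h * (g * s))⁻¹ = k * s⁻¹ * (h * g)⁻¹ := fun h k => by group
      refine ⟨hN.cons, ?_, ?_⟩
      · intro h k hk
        rw [b9_right] at hk
        rw [hb]
        exact hN.supp h (k * s⁻¹) (left_ne_zero_of_mul hk)
      · intro h0
        have e := hN.ex h0
        refine ⟨?_, ?_, ?_, ?_⟩
        · intro h k hh hk
          rw [b9_right] at hk
          rw [hb]
          exact e.supp h (k * s⁻¹) hh (left_ne_zero_of_mul hk)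
        · intro r h k hk
          rw [b9_right] at hk
          rw [hb]
          exact e.hom r h (k * s⁻¹) (left_ne_zero_of_mul hk)
        · intro h k hh hk
          rw [hb] at hk
          rw [b9_right, b9_right, hb, e.eq h (k * s⁻¹) hh hk]
        · intro R
          refine (e.fin R).subset ?_
          rintro r ⟨hr, hne⟩
          refine ⟨hr, fun h0 => hne ?_⟩
          rw [h0, zero_mulOp]
    · exact hQ.mul _ _ hNX.nice (NiceP.fin _) hX (hQ.fin _)

end Pool.Agent.LIR
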