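import Pool.Agent.LIR.B8
import Pool.Agent.LIR.B9

set_option autoImplicit false

open Pool.Agent.COST

namespace Pool.Agent.LIR

/-!
**[LIR-B10] Products with finite operators; finite sums.** PROOF. `Finsupp.induction_linear` (or
`Finsupp.induction`) in `x`: `mulOp` is additive in the finite factor (`mulOp_fin_left`, `rowMul_fin`),
`NiceP.single_mul`, `NiceP.mul_single`, `NiceP.add`. `neg`: `-X = mulOp X (finOp (single 1 (-1)))`.
`finsum`: `finsum_induction` or `finsum_eq_sum` and induction.
-/

theorem b10_zero {H : Type} [Group H] (S : JS H) (Q : Op H → Prop) : NiceP S Q (0 : Op H) := by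
  rw [← finOp_zero]
  exact NiceP.fin _

theorem b10_left {H : Type} [Group H] (x y : H →₀ ℂ) (X : Op H) :
    mulOp (finOp (x + y)) X = mulOp (finOp x) X + mulOp (finOp y) X := by
  funext h k
  rw [Pi.add_apply, Pi.add_apply, mulOp_fin_left, mulOp_fin_left, mulOp_fin_left]
  exact Finsupp.sum_add_index' (fun s => zero_mul _) (fun s z w => add_mul _ _ _)

theorem b10_right {H : Type} [Group H] (x y : H →₀ ℂ) (X : Op H) :
    mulOp X (finOp (x + y)) = mulOp X (finOp x) + mulOp X (finOp y) := by
  funext h k
  have e : ∀ c : H →₀ ℂ, mulOp X (finOp c) h = rc (X h) c := fun c => rowMul_fin (X h) c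
  rw [Pi.add_apply, Pi.add_apply, e, e, e]
  unfold rc
  exact Finsupp.sum_add_index' (fun s => mul_zero _) (fun s z w => mul_add _ _ _)

theorem NiceP.fin_mul {H : Type} [Group H] {S : JS H} {Q : Op H → Prop} (hQ : Closed S Q)
    (x : H →₀ ℂ) {X : Op H} (hX : NiceP S Q X) : NiceP S Q (mulOp (finOp x) X) := by
  induction x using Finsupp.induction_linear with
  | zero =>
    rw [finOp_zero, zero_mulOp]
    exact b10_zero S Q
  | add x y hx hy =>
    rw [b10_left]
    exact NiceP.add hQ hx hy
  | single s z => exact NiceP.single_mul hQ s z hX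

theorem NiceP.mul_fin {H : Type} [Group H] {S : JS H} {Q : Op H → Prop} (hQ : Closed S Q)
    (x : H →₀ ℂ) {X : Op H} (hX : NiceP S Q X) : NiceP S Q (mulOp X (finOp x)) := by
  induction x using Finsupp.induction_linear with
  | zero =>
    rw [finOp_zero, mulOp_zero]
    exact b10_zero S Q
  | add x y hx hy =>
    rw [b10_right]
    exact NiceP.add hQ hx hy
  | single s z => exact NiceP.mul_single hQ s z hX

theorem NiceP.zero {H : Type} [Group H] (S : JS H) (Q : Op H → Prop) : NiceP S Q 0 := by
  exact b10_zero S Q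

theorem NiceP.neg {H : Type} [Group H] {S : JS H} {Q : Op H → Prop} (hQ : Closed S Q)
    {X : Op H} (hX : NiceP S Q X) : NiceP S Q (-X) := by
  have h1 : -X = mulOp X (finOp (Finsupp.single 1 (-1))) := by
    funext h k
    rw [b9_right, inv_one, mul_one, mul_neg_one]
    rfl
  rw [h1]
  exact NiceP.mul_single hQ _ _ hX

theorem NiceP.sum {H : Type} [Group H] {S : JS H} {Q : Op H → Prop} (hQ : Closed S Q)
    {ι : Type} (s : Finset ι) {X : ι → Op H} (hX : ∀ i ∈ s, NiceP S Q (X i)) :
    NiceP S Q (∑ i ∈ s, X i) := by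
  classical
  induction s using Finset.induction_on with
  | empty =>
    rw [Finset.sum_empty]
    exact b10_zero S Q
  | insert i t hi ih =>
    rw [Finset.sum_insert hi]
    exact NiceP.add hQ (hX i (Finset.mem_insert_self i t))
      (ih (fun j hj => hX j (Finset.mem_insert_of_mem hj)))

theorem NiceP.finsum {H : Type} [Group H] {S : JS H} {Q : Op H → Prop} (hQ : Closed S Q)
    {ι : Type} {X : ι → Op H} (hX : ∀ i, NiceP S Q (X i)) : NiceP S Q (∑ᶠ i, X i) := by
  exact finsum_induction (NiceP S Q) (b10_zero S Q) (fun x y hx hy => NiceP.add hQ hx hy) hX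

end Pool.Agent.LIR
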