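import Pool.Agent.LIR.B3
import Pool.Agent.LIR.B6

set_option autoImplicit false

open Pool.Agent.COST

namespace Pool.Agent.LIR

/-!
Product of expansions.
-/

/-- the nonzero pieces are bounded below -/
theorem low_bound {R : Type} [Zero R] {Y : ℝ → R} (hf : ∀ B : ℝ, {r | r ≤ B ∧ Y r ≠ 0}.Finite) :
    ∃ δ : ℝ, ∀ i, Y i ≠ 0 → δ ≤ i := by
  by_cases h : ∃ i1, Y i1 ≠ 0
  · obtain ⟨i1, hi1⟩ := h
    obtain ⟨δ, ⟨hδ1, hδ2⟩, hmin⟩ :=
      Set.exists_min_image _ (fun i : ℝ => i) (hf i1) ⟨i1, le_rfl, hi1⟩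
    refine ⟨δ, ?_⟩
    intro i hi
    by_cases h1 : i ≤ i1
    · exact hmin i ⟨h1, hi⟩
    · exact hδ1.trans (not_le.mp h1).le
  · push Not at h
    exact ⟨0, fun i hi => absurd (h i) hi⟩

/-- the pieces of the product: finitely many terms -/
theorem Ex.mul_fin {H : Type} [Group H] {S : JS H} {a : S.Λ} {h0 g0 k0 : H} {X X' : Op H}
    {Y Y' : ℝ → Op H} (e : Ex S a h0 g0 X Y) (e' : Ex S a g0 k0 X' Y') (r : ℝ) :
    {i : ℝ | Y i ≠ 0 ∧ Y' (r - i) ≠ 0}.Finite := by
  obtain ⟨δ, hδ⟩ := low_bound e'.fin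
  refine (e.fin (r - δ)).subset ?_
  rintro i ⟨h1, h2⟩
  have h3 := hδ _ h2
  exact ⟨by linarith, h1⟩

theorem Ex.mul {H : Type} [Group H] {S : JS H} {a : S.Λ} {h0 g0 k0 : H} {X X' : Op H}
    {Y Y' : ℝ → Op H} (e : Ex S a h0 g0 X Y) (e' : Ex S a g0 k0 X' Y')
    (hF : ∀ i j, FF (Y i) (Y' j)) :
    (∀ h k, S.v (h * h0⁻¹) ≤ a → {m | X h m ≠ 0 ∧ X' m k ≠ 0}.Finite) ∧
      Ex S a h0 k0 (mulOp X X') (fun r => ∑ᶠ i : ℝ, mulOp (Y i) (Y' (r - i))) := by
  classical
  have hne : ∀ i j, mulOp (Y i) (Y' j) ≠ 0 → Y i ≠ 0 ∧ Y' j ≠ 0 := by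
    intro i j h
    constructor
    · intro h1
      apply h
      rw [h1]
      funext x z
      change ∑ᶠ m, (0 : ℂ) * Y' j m z = 0
      simp
    · intro h1
      apply h
      rw [h1]
      funext x z
      change ∑ᶠ m, Y i x m * (0 : ℂ) = 0
      simp
  refine ⟨?_, ?_, ?_, ?_, ?_⟩
  · intro h k hh
    have h1 : (⋃ i ∈ {i : ℝ | Y i ≠ 0 ∧
        Y' (S.ψ a (k * k0⁻¹) - S.ψ a (h * h0⁻¹) - i) ≠ 0},
        {m | Y i h m ≠ 0 ∧ Y' (S.ψ a (k * k0⁻¹) - S.ψ a (h * h0⁻¹) - i) m k ≠ 0}).Finite := by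
      refine Set.Finite.biUnion (Ex.mul_fin e e' _) ?_
      intro i _
      exact hF i _ h k
    refine h1.subset ?_
    rintro m ⟨hX, hX'⟩
    have hm := e.supp h m hh hX
    have hk := e'.supp m k hm hX'
    have e1 := e.eq h m hh hm
    have e2 := e'.eq m k hm hk
    have e3 : S.ψ a (k * k0⁻¹) - S.ψ a (h * h0⁻¹) - (S.ψ a (m * g0⁻¹) - S.ψ a (h * h0⁻¹)) =
        S.ψ a (k * k0⁻¹) - S.ψ a (m * g0⁻¹) := by ring
    rw [e1] at hX
    rw [e2] at hX'
    simp only [Set.mem_iUnion, Set.mem_setOf_eq]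
    refine ⟨S.ψ a (m * g0⁻¹) - S.ψ a (h * h0⁻¹), ⟨?_, ?_⟩, hX, ?_⟩
    · intro h4
      rw [h4] at hX
      exact hX rfl
    · rw [e3]
      intro h4
      rw [h4] at hX'
      exact hX' rfl
    · rw [e3]
      exact hX'
  · intro h k hh hXX
    obtain ⟨m, hm⟩ : ∃ m, X h m * X' m k ≠ 0 := by
      by_contra hcon
      push Not at hcon
      exact hXX (finsum_eq_zero_of_forall_eq_zero hcon)
    exact e'.supp m k (e.supp h m hh (left_ne_zero_of_mul hm)) (right_ne_zero_of_mul hm)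
  · intro r
    refine Hom.finsum fun i => ?_
    have h1 := Hom.mul (e.hom i) (e'.hom (r - i))
    have e1 : i + (r - i) = r := by ring
    rw [e1] at h1
    exact h1
  · intro h k hh hk
    set r : ℝ := S.ψ a (k * k0⁻¹) - S.ψ a (h * h0⁻¹) with hr
    have hI := Ex.mul_fin e e' r
    have h1 : (∑ᶠ i : ℝ, mulOp (Y i) (Y' (r - i))) =
        ∑ i ∈ hI.toFinset, mulOp (Y i) (Y' (r - i)) := by
      refine finsum_eq_sum_of_support_subset _ ?_
      intro i hi
      rw [Set.Finite.coe_toFinset]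
      exact hne i _ hi
    change mulOp X X' h k = (∑ᶠ i : ℝ, mulOp (Y i) (Y' (r - i))) h k
    rw [h1, Finset.sum_apply, Finset.sum_apply]
    have h2 : ∀ i, mulOp (Y i) (Y' (r - i)) h k = ∑ᶠ m, Y i h m * Y' (r - i) m k := fun i => rfl
    rw [Finset.sum_congr rfl fun i _ => h2 i, ← finsum_sum_comm]
    · change ∑ᶠ m, X h m * X' m k = _
      refine finsum_congr fun m => ?_
      by_cases hm : S.v (m * g0⁻¹) ≤ a
      · have e1 := e.eq h m hh hm
        have e2 := e'.eq m k hm hk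
        have e3 : S.ψ a (k * k0⁻¹) - S.ψ a (m * g0⁻¹) =
            r - (S.ψ a (m * g0⁻¹) - S.ψ a (h * h0⁻¹)) := by
          rw [hr]
          ring
        rw [e3] at e2
        rw [Finset.sum_eq_single (S.ψ a (m * g0⁻¹) - S.ψ a (h * h0⁻¹))]
        · rw [← e1, ← e2]
        · intro i _ hi
          by_contra hcon
          have h3 := left_ne_zero_of_mul hcon
          have h4 := (e.hom i h m h3).2 hh
          apply hi
          rw [h4]
          ring
        · intro hnot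
          by_contra hcon
          apply hnot
          rw [Set.Finite.mem_toFinset]
          refine ⟨?_, ?_⟩
          · intro h5
            rw [h5] at hcon
            exact hcon (zero_mul _)
          · intro h5
            rw [h5] at hcon
            exact hcon (mul_zero _)
      · have h3 : X h m = 0 := by
          by_contra hcon
          exact hm (e.supp h m hh hcon)
        rw [h3, zero_mul]
        symm
        refine Finset.sum_eq_zero fun i _ => ?_
        have h4 : Y i h m = 0 := by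
          by_contra hcon
          exact hm ((e.hom i h m hcon).1.mp hh)
        rw [h4, zero_mul]
    · intro i _
      refine (hF i (r - i) h k).subset ?_
      intro m hm
      exact ⟨left_ne_zero_of_mul hm, right_ne_zero_of_mul hm⟩
  · intro R
    obtain ⟨δ, hδ⟩ := low_bound e.fin
    obtain ⟨δ', hδ'⟩ := low_bound e'.fin
    have h1 : (Set.image2 (fun i j : ℝ => i + j) {i | i ≤ R - δ' ∧ Y i ≠ 0}
        {j | j ≤ R - δ ∧ Y' j ≠ 0}).Finite := Set.Finite.image2 _ (e.fin _) (e'.fin _)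
    refine h1.subset ?_
    rintro r ⟨hr, hrne⟩
    obtain ⟨i, hi⟩ : ∃ i : ℝ, mulOp (Y i) (Y' (r - i)) ≠ 0 := by
      by_contra hcon
      push Not at hcon
      exact hrne (finsum_eq_zero_of_forall_eq_zero hcon)
    obtain ⟨h2, h3⟩ := hne i _ hi
    have h4 := hδ i h2
    have h5 := hδ' _ h3
    refine ⟨i, ⟨by linarith, h2⟩, r - i, ⟨by linarith, h3⟩, ?_⟩
    change i + (r - i) = r
    ring

end Pool.Agent.LIR
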