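import Pool.Agent.LIR.Defs

set_option autoImplicit false

open Pool.Agent.COST

namespace Pool.Agent.LIR

/-!
**[LIR-B2] The trivial expansion at a larger jump.** PROOF. Let `c = v (h h0⁻¹)`,
`w = k (h g)⁻¹`, `v w ≤ a h`, `k (h0 g)⁻¹ = w (h h0⁻¹)`. If `c ≤ b` then `a h < b` (if `b ≤ a h` then
`c ≤ a h`, so `a h0 = a h ≥ b` by `Cons`, contradiction), so `v w < b`, `v (k (h0 g)⁻¹) ≤ b`,
`ψ b (k (h0 g)⁻¹) = ψ b w + ψ b (h h0⁻¹) = ψ b (h h0⁻¹)`. If `b < c` then `a h < c` (if `c ≤ a h` then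
`a h0 = a h ≥ c > b`), so `v w < c` and `v (k (h0 g)⁻¹) = c > b` (otherwise
`h h0⁻¹ = w⁻¹ (k (h0 g)⁻¹)` would have `v < c`). `Ex.fin`: the set is contained in `{0}`.
-/

theorem B2_aux {H : Type} [Group H] {S : JS H} {X : Op H} {g : H} {a : H → S.Λ}
    (cons : Cons S (fun h => (a h : WithBot S.Λ)))
    (supp : ∀ h k, X h k ≠ 0 → S.v (k * (h * g)⁻¹) ≤ a h) (h0 : H) (b : S.Λ) (hb : a h0 < b)
    {h k : H} (hX : X h k ≠ 0) :
    (S.v (h * h0⁻¹) ≤ b → S.v (k * (h0 * g)⁻¹) ≤ b ∧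
      S.ψ b (k * (h0 * g)⁻¹) = S.ψ b (h * h0⁻¹)) ∧
    (S.v (k * (h0 * g)⁻¹) ≤ b → S.v (h * h0⁻¹) ≤ b) := by
  have hw := supp h k hX
  have hk : k * (h0 * g)⁻¹ = (k * (h * g)⁻¹) * (h * h0⁻¹) := by
    group
  have hcons : S.v (h * h0⁻¹) ≤ (a h : WithBot S.Λ) → a h0 = a h := by
    intro h1
    exact WithBot.coe_injective (cons h h0 h1)
  constructor
  · intro hc
    have hab : a h < b := by
      by_contra hcon
      push Not at hcon
      have h1 : S.v (h * h0⁻¹) ≤ (a h : WithBot S.Λ) := hc.trans (WithBot.coe_le_coe.mpr hcon)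
      have h2 := hcons h1
      rw [h2] at hb
      exact absurd hb (not_lt.mpr hcon)
    have hwb : S.v (k * (h * g)⁻¹) < (b : WithBot S.Λ) := lt_of_le_of_lt hw (WithBot.coe_lt_coe.mpr hab)
    refine ⟨?_, ?_⟩
    · rw [hk]
      exact (S.v_mul _ _).trans (max_le hwb.le hc)
    · rw [hk, S.ψ_mul b _ _ hwb.le hc, (S.ψ_zero b _ hwb.le).mpr hwb, zero_add]
  · intro hv
    by_contra hc
    push Not at hc
    have h1 : h * h0⁻¹ = (k * (h * g)⁻¹)⁻¹ * (k * (h0 * g)⁻¹) := by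
      rw [hk]
      group
    have h2 : S.v (h * h0⁻¹) ≤ max (S.v (k * (h * g)⁻¹)) (S.v (k * (h0 * g)⁻¹)) := by
      conv_lhs => rw [h1]
      refine (S.v_mul _ _).trans ?_
      rw [S.v_inv]
    have h3 : S.v (h * h0⁻¹) ≤ (a h : WithBot S.Λ) := by
      rcases le_max_iff.mp h2 with h4 | h4
      · exact h4.trans hw
      · exact absurd (h4.trans hv) (not_le.mpr hc)
    have h5 := hcons h3
    rw [← h5] at h3
    have h6 : (b : WithBot S.Λ) < (a h0 : WithBot S.Λ) := lt_of_lt_of_le hc h3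
    exact absurd hb (not_lt.mpr (WithBot.coe_lt_coe.mp h6).le)

theorem Ex.triv {H : Type} [Group H] {S : JS H} {X : Op H} {g : H} {a : H → S.Λ}
    (cons : Cons S (fun h => (a h : WithBot S.Λ)))
    (supp : ∀ h k, X h k ≠ 0 → S.v (k * (h * g)⁻¹) ≤ a h) (h0 : H) (b : S.Λ) (hb : a h0 < b) :
    Ex S b h0 (h0 * g) X (triv X) := by
  have key := fun {h k : H} (hX : X h k ≠ 0) => B2_aux cons supp h0 b hb hX
  refine ⟨?_, ?_, ?_, ?_⟩
  · intro h k h1 hX
    exact ((key hX).1 h1).1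
  · intro r h k hr
    by_cases h0' : r = 0
    · subst h0'
      rw [triv_zero] at hr
      refine ⟨⟨fun h1 => ((key hr).1 h1).1, (key hr).2⟩, ?_⟩
      intro h1
      rw [add_zero]
      exact ((key hr).1 h1).2
    · rw [triv_ne X h0'] at hr
      exact absurd rfl hr
  · intro h k h1 h2
    by_cases hX : X h k = 0
    · rw [hX]
      by_cases h3 : S.ψ b (k * (h0 * g)⁻¹) - S.ψ b (h * h0⁻¹) = 0
      · rw [h3, triv_zero, hX]
      · rw [triv_ne X h3]
        rfl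
    · rw [((key hX).1 h1).2, sub_self, triv_zero]
  · intro R
    refine (Set.finite_singleton (0 : ℝ)).subset ?_
    rintro r ⟨_, hr⟩
    by_contra h3
    exact hr (triv_ne X h3)

end Pool.Agent.LIR
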