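import Pool.Agent.LIR.B1
import Pool.Agent.LIR.B2
import Pool.Agent.LIR.B10
import Pool.Agent.LIR.B11

set_option autoImplicit false

open Pool.Agent.COST

namespace Pool.Agent.LIR

/-!
**[LIR-B12] Products of nice operators.** PROOF. Induction on `NiceP S Q X` for all `X'`, inside
induction on `NiceP S Q X'`. `X` finite: `FF.fin_left`, `NiceP.fin_mul`; `X'` finite: `FF.fin_right`,
`NiceP.mul_fin`. Otherwise `X`: `g`, `a`, `Y`; `X'`: `g'`, `a'`, `Y'`. The product is a node with
`g g'` and `a'' h = max (a h) (a' (h g))`, consistent by `cons_max`, `cons_shift`. `supp`: there is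
`m` with `X h m ≠ 0`, `X' m k ≠ 0`; `k (h g g')⁻¹ = (k (m g')⁻¹) (m (h g)⁻¹)`, and
`a' m ≤ max (a h) (a' (h g))`: otherwise `v (m (h g)⁻¹) ≤ a h < a' m`, so `a' (h g) = a' m` by `Cons`,
contradiction. At `h0` let `b = a'' h0`; `YB = Y h0` if `a h0 = b`, otherwise the trivial expansion
(`Ex.triv`); `YB' = Y' (h0 g)` if `a' (h0 g) = b`, otherwise the trivial one at `(b, h0 g, h0 g g')`.
`Ex.mul` gives the expansion with pieces `∑ᶠ i, mulOp (YB i) (YB' (r - i))` and the finiteness for the rows in
the block. `FF (YB i) (YB' j)` and `NiceP (mulOp (YB i) (YB' j))`: both full: outer induction hypothesis; `YB'`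
trivial (`YB' j = X'` or `0`): outer hypothesis with `X'`; `YB` trivial: then `a' (h0 g) = b` and
`YB' j = Y' (h0 g) j`, inner hypothesis; `0` is clear (`zero_mulOp`, `mulOp_zero`). `NiceP.finsum`. `Q`:
`Closed.mul`.
-/

theorem b12_ff_zero {H : Type} (Y : Op H) : FF (0 : Op H) Y := by
  intro h k
  refine Set.Finite.subset Set.finite_empty ?_
  rintro m ⟨h1, _⟩
  exact absurd rfl h1

theorem b12_triv {H : Type} [Group H] {S : JS H} {Q : Op H → Prop} {X : Op H}
    (hX : NiceP S Q X) (r : ℝ) : NiceP S Q (triv X r) := by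
  by_cases hr : r = 0
  · rw [hr, triv_zero]
    exact hX
  · rw [triv_ne X hr]
    exact NiceP.zero S Q

theorem NiceP.mul_aux {H : Type} [Group H] {S : JS H} {Q : Op H → Prop} (hQ : Closed S Q)
    {X X' : Op H} (hX : NiceP S Q X) (hX' : NiceP S Q X') :
    FF X X' ∧ NiceP S Q (mulOp X X') := by
  classical
  induction hX generalizing X' with
  | fin x => exact ⟨FF.fin_left x X', NiceP.fin_mul hQ x hX'⟩
  | node X g a Y hN hY hXQ ih =>
    have hX : NiceP S Q X := NiceP.node X g a Y hN hY hXQ
    induction hX' with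
    | fin y => exact ⟨FF.fin_right X y, NiceP.mul_fin hQ y hX⟩
    | node X' g' a' Y' hN' hY' hXQ' ih' =>
      have hX' : NiceP S Q X' := NiceP.node X' g' a' Y' hN' hY' hXQ'
      obtain ⟨b, hb⟩ : ∃ b : H → S.Λ, ∀ h, b h = max (a h) (a' (h * g)) := ⟨_, fun _ => rfl⟩
      obtain ⟨YB, hYB⟩ : ∃ YB : H → ℝ → Op H, ∀ h0, YB h0 = if a h0 = b h0 then Y h0 else triv X :=
        ⟨_, fun _ => rfl⟩
      obtain ⟨YC, hYC⟩ : ∃ YC : H → ℝ → Op H, ∀ h0, YC h0 =
          if a' (h0 * g) = b h0 then Y' (h0 * g) else triv X' := ⟨_, fun _ => rfl⟩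
      have hle : ∀ h, a h ≤ b h := fun h => by
        rw [hb]
        exact le_max_left _ _
      have hle' : ∀ h, a' (h * g) ≤ b h := fun h => by
        rw [hb]
        exact le_max_right _ _
      have exL : ∀ h0, Ex S (b h0) h0 (h0 * g) X (YB h0) := by
        intro h0
        rw [hYB]
        by_cases h1 : a h0 = b h0
        · rw [if_pos h1, ← h1]
          exact hN.ex h0
        · rw [if_neg h1]
          exact Ex.triv hN.cons hN.supp h0 (b h0) (lt_of_le_of_ne (hle h0) h1)
      have exR : ∀ h0, Ex S (b h0) (h0 * g) (h0 * g * g') X' (YC h0) := by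
        intro h0
        rw [hYC]
        by_cases h1 : a' (h0 * g) = b h0
        · rw [if_pos h1, ← h1]
          exact hN'.ex (h0 * g)
        · rw [if_neg h1]
          exact Ex.triv hN'.cons hN'.supp (h0 * g) (b h0) (lt_of_le_of_ne (hle' h0) h1)
      have hC : ∀ h0 j, NiceP S Q (YC h0 j) := by
        intro h0 j
        rw [hYC]
        by_cases h1 : a' (h0 * g) = b h0
        · rw [if_pos h1]
          exact hY' (h0 * g) j
        · rw [if_neg h1]
          exact b12_triv hX' j
      have hP : ∀ h0 i j, FF (YB h0 i) (YC h0 j) ∧ NiceP S Q (mulOp (YB h0 i) (YC h0 j)) := by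
        intro h0 i j
        by_cases h1 : a h0 = b h0
        · have h2 : YB h0 = Y h0 := by rw [hYB, if_pos h1]
          rw [h2]
          exact ih h0 i (hC h0 j)
        · have h2 : YB h0 = triv X := by rw [hYB, if_neg h1]
          have h3 : a' (h0 * g) = b h0 := by
            rcases max_choice (a h0) (a' (h0 * g)) with h4 | h4
            · exact absurd (by rw [hb, h4]) h1
            · rw [hb, h4]
          have h4 : YC h0 = Y' (h0 * g) := by rw [hYC, if_pos h3]
          rw [h2, h4]
          by_cases hi : i = 0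
          · rw [hi, triv_zero]
            exact ih' (h0 * g) j
          · rw [triv_ne X hi]
            refine ⟨b12_ff_zero _, ?_⟩
            rw [zero_mulOp]
            exact NiceP.zero S Q
      have hE := fun h0 => Ex.mul (exL h0) (exR h0) (fun i j => (hP h0 i j).1)
      refine ⟨fun h k => (hE h).1 h k ?_, ?_⟩
      · rw [mul_inv_cancel, JS.v_one]
        exact bot_le
      · refine NiceP.node _ (g * g') b
          (fun h0 r => ∑ᶠ i : ℝ, mulOp (YB h0 i) (YC h0 (r - i))) ⟨?_, ?_, ?_⟩ ?_ ?_
        · have h1 := cons_max hN.cons (cons_shift hN'.cons g)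
          have h2 : (fun h => max ((a h : S.Λ) : WithBot S.Λ) ((a' (h * g) : S.Λ) : WithBot S.Λ)) =
              fun h => ((b h : S.Λ) : WithBot S.Λ) := by
            funext h
            rw [hb, WithBot.coe_max]
          rw [← h2]
          exact h1
        · intro h k hk
          have hk' : (∑ᶠ m, X h m * X' m k) ≠ 0 := hk
          obtain ⟨m, hm⟩ : ∃ m, X h m * X' m k ≠ 0 := by
            by_contra hno
            refine hk' (finsum_eq_zero_of_forall_eq_zero (fun m => ?_))
            by_contra hm
            exact hno ⟨m, hm⟩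
          have h1 := hN.supp h m (left_ne_zero_of_mul hm)
          have h2 := hN'.supp m k (right_ne_zero_of_mul hm)
          have h3 : a' m ≤ b h := by
            by_contra h4
            rw [not_le] at h4
            have h5 : ((a h : S.Λ) : WithBot S.Λ) ≤ ((a' m : S.Λ) : WithBot S.Λ) :=
              WithBot.coe_le_coe.2 ((hle h).trans h4.le)
            have h6 := hN'.cons m (h * g) (h1.trans h5)
            have h7 : a' (h * g) = a' m := WithBot.coe_injective h6
            have h8 := hle' h
            rw [h7] at h8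
            exact absurd h8 (not_le.2 h4)
          have h4 : k * (h * (g * g'))⁻¹ = k * (m * g')⁻¹ * (m * (h * g)⁻¹) := by group
          rw [h4]
          exact JS.le_mul S (h2.trans (WithBot.coe_le_coe.2 h3))
            (h1.trans (WithBot.coe_le_coe.2 (hle h)))
        · intro h0
          rw [← mul_assoc]
          exact (hE h0).2
        · intro h0 r
          exact NiceP.finsum hQ (fun i => (hP h0 i (r - i)).2)
        · exact hQ.mul X X' hX.nice hX'.nice hXQ hXQ'

theorem Nice.ff {H : Type} [Group H] {S : JS H} {X X' : Op H} (hX : Nice S X)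
    (hX' : Nice S X') : FF X X' := by
  exact (NiceP.mul_aux (Closed.true S) hX hX').1

theorem NiceP.mul {H : Type} [Group H] {S : JS H} {Q : Op H → Prop} (hQ : Closed S Q)
    {X X' : Op H} (hX : NiceP S Q X) (hX' : NiceP S Q X') : NiceP S Q (mulOp X X') := by
  exact (NiceP.mul_aux hQ hX hX').2

end Pool.Agent.LIR
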