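import Pool.Agent.LIR.B12

set_option autoImplicit false

open Pool.Agent.COST

namespace Pool.Agent.LIR

/-!
**[LIR-B13] Associativity.** PROOF. `Nice.abs`: induction; `fin`: `x.mapRange`; `node`: same `g`, `a`,
pieces `|Y h0 r|`. `assoc_row`: by `Nice.abs` and `NiceP.mul` (with `Closed.true`) the operator
`|U| |X|` is nice and `(|U| |X|) h n ≠ 0` as soon as there is `m` with `U h m ≠ 0`, `X m n ≠ 0` (all
terms are nonnegative reals; the sum is finite by `Nice.ff`). So by `Nice.ff` for `|U| |X|` and `Y` the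
set of `n` for which there is `m` with `u m ≠ 0`, `X m n ≠ 0`, `Y n k ≠ 0` is finite, and for each `n` the set
of `m` is finite. So all sums are finite over pairs `(m, n)` and can be exchanged
(`finsum` to `Finset.sum`, `Finset.sum_comm`).
-/

theorem Nice.abs {H : Type} [Group H] {S : JS H} {X : Op H} (hX : Nice S X) :
    Nice S (fun h k => ((‖X h k‖ : ℝ) : ℂ)) := by
  induction hX with
  | fin x =>
    have h1 : (fun h k => ((‖finOp x h k‖ : ℝ) : ℂ)) =
        finOp (x.mapRange (fun z : ℂ => ((‖z‖ : ℝ) : ℂ)) (by simp)) := by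
      funext h k
      simp [finOp]
    rw [h1]
    exact NiceP.fin _
  | node X g a Y hN hY hX ih =>
    refine NiceP.node _ g a (fun h0 r h k => ((‖Y h0 r h k‖ : ℝ) : ℂ)) ?_
      (fun h0 r => ih h0 r) trivial
    refine ⟨hN.cons, fun h k hne => hN.supp h k (by simpa using hne), fun h0 => ?_⟩
    have e := hN.ex h0
    refine ⟨fun h k h1 hne => e.supp h k h1 (by simpa using hne),
      fun r h k hne => e.hom r h k (by simpa using hne), fun h k h1 h2 => ?_, fun R => ?_⟩
    · show ((‖X h k‖ : ℝ) : ℂ) = _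
      rw [e.eq h k h1 h2]
    · refine (e.fin R).subset ?_
      rintro r ⟨h1, h2⟩
      refine ⟨h1, fun h3 => h2 ?_⟩
      funext h k
      simp [h3]

theorem assoc_row {H : Type} [Group H] {S : JS H} {U X Y : Op H} (hU : Nice S U)
    (hX : Nice S X) (hY : Nice S Y) (h : H) (u : H → ℂ) (hu : ∀ m, u m ≠ 0 → U h m ≠ 0) :
    rowMul (rowMul u X) Y = rowMul u (mulOp X Y) := by
  classical
  funext k
  -- the product of the absolute values
  have hW := NiceP.mul (Closed.true S) hU.abs hX.abs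
  have hpos : ∀ n, (∃ m, U h m ≠ 0 ∧ X m n ≠ 0) →
      mulOp (fun h k => ((‖U h k‖ : ℝ) : ℂ)) (fun h k => ((‖X h k‖ : ℝ) : ℂ)) h n ≠ 0 := by
    rintro n ⟨m, hm1, hm2⟩ h0
    have hf := Nice.ff hU hX h n
    have e1 : mulOp (fun h k => ((‖U h k‖ : ℝ) : ℂ)) (fun h k => ((‖X h k‖ : ℝ) : ℂ)) h n =
        ((∑ m ∈ hf.toFinset, ‖U h m‖ * ‖X m n‖ : ℝ) : ℂ) := by
      show (∑ᶠ m, ((‖U h m‖ : ℝ) : ℂ) * ((‖X m n‖ : ℝ) : ℂ)) = _
      rw [finsum_eq_sum_of_support_subset (s := hf.toFinset)]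
      · push_cast
        rfl
      · intro m' hm'
        rw [Set.Finite.coe_toFinset]
        have h1 : ((‖U h m'‖ : ℝ) : ℂ) * ((‖X m' n‖ : ℝ) : ℂ) ≠ 0 := hm'
        constructor
        · intro h2
          apply h1
          rw [h2]
          simp
        · intro h2
          apply h1
          rw [h2]
          simp
    rw [e1, Complex.ofReal_eq_zero] at h0
    have h1 := (Finset.sum_eq_zero_iff_of_nonneg (fun i _ => by positivity)).1 h0 m
      (hf.mem_toFinset.2 ⟨hm1, hm2⟩)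
    rcases mul_eq_zero.1 h1 with h2 | h2
    · exact hm1 (norm_eq_zero.1 h2)
    · exact hm2 (norm_eq_zero.1 h2)
  have hN : {n | (∃ m, U h m ≠ 0 ∧ X m n ≠ 0) ∧ Y n k ≠ 0}.Finite := by
    refine (Nice.ff hW hY h k).subset ?_
    rintro n ⟨h1, h2⟩
    exact ⟨hpos n h1, h2⟩
  have hM : (⋃ n ∈ {n | (∃ m, U h m ≠ 0 ∧ X m n ≠ 0) ∧ Y n k ≠ 0},
      {m | U h m ≠ 0 ∧ X m n ≠ 0}).Finite :=
    hN.biUnion fun n _ => Nice.ff hU hX h n
  have hmemN : ∀ n, n ∈ hN.toFinset ↔ ((∃ m, U h m ≠ 0 ∧ X m n ≠ 0) ∧ Y n k ≠ 0) := by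
    intro n
    rw [Set.Finite.mem_toFinset]
    rfl
  have hmemM : ∀ m n, U h m ≠ 0 → X m n ≠ 0 → Y n k ≠ 0 → m ∈ hM.toFinset := by
    intro m n h1 h2 h3
    rw [Set.Finite.mem_toFinset]
    exact Set.mem_biUnion (show n ∈ {n | (∃ m, U h m ≠ 0 ∧ X m n ≠ 0) ∧ Y n k ≠ 0} from
      ⟨⟨m, h1, h2⟩, h3⟩) ⟨h1, h2⟩
  -- the left side
  have hL : rowMul (rowMul u X) Y k =
      ∑ n ∈ hN.toFinset, ∑ m ∈ hM.toFinset, u m * X m n * Y n k := by
    show (∑ᶠ n, (∑ᶠ m, u m * X m n) * Y n k) = _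
    rw [finsum_eq_sum_of_support_subset (s := hN.toFinset)]
    · refine Finset.sum_congr rfl fun n hn => ?_
      have hn' := (hmemN n).1 hn
      rw [finsum_eq_sum_of_support_subset (s := hM.toFinset), Finset.sum_mul]
      intro m hm
      have h1 : u m * X m n ≠ 0 := hm
      exact hmemM m n (hu m (left_ne_zero_of_mul h1)) (right_ne_zero_of_mul h1) hn'.2
    · intro n hn
      have h1 : (∑ᶠ m, u m * X m n) * Y n k ≠ 0 := hn
      obtain ⟨m, hm⟩ : ∃ m, u m * X m n ≠ 0 := by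
        by_contra hcon
        push Not at hcon
        exact (left_ne_zero_of_mul h1) (finsum_eq_zero_of_forall_eq_zero hcon)
      exact (hmemN n).2 ⟨⟨m, hu m (left_ne_zero_of_mul hm), right_ne_zero_of_mul hm⟩,
        right_ne_zero_of_mul h1⟩
  -- the right side
  have hR : rowMul u (mulOp X Y) k =
      ∑ m ∈ hM.toFinset, ∑ n ∈ hN.toFinset, u m * X m n * Y n k := by
    show (∑ᶠ m, u m * (∑ᶠ n, X m n * Y n k)) = _
    rw [finsum_eq_sum_of_support_subset (s := hM.toFinset)]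
    · refine Finset.sum_congr rfl fun m _ => ?_
      by_cases hum : u m = 0
      · simp [hum]
      · rw [finsum_eq_sum_of_support_subset (s := hN.toFinset), Finset.mul_sum]
        · refine Finset.sum_congr rfl fun n _ => ?_
          ring
        · intro n hn
          have h1 : X m n * Y n k ≠ 0 := hn
          exact (hmemN n).2 ⟨⟨m, hu m hum, left_ne_zero_of_mul h1⟩, right_ne_zero_of_mul h1⟩
    · intro m hm
      have h1 : u m * (∑ᶠ n, X m n * Y n k) ≠ 0 := hm
      obtain ⟨n, hn⟩ : ∃ n, X m n * Y n k ≠ 0 := by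
        by_contra hcon
        push Not at hcon
        exact (right_ne_zero_of_mul h1) (finsum_eq_zero_of_forall_eq_zero hcon)
      exact hmemM m n (hu m (left_ne_zero_of_mul h1)) (left_ne_zero_of_mul hn)
        (right_ne_zero_of_mul hn)
  rw [hL, hR]
  exact Finset.sum_comm

end Pool.Agent.LIR
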