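import Pool.Agent.LIR.B13

set_option autoImplicit false

open Pool.Agent.COST

namespace Pool.Agent.LIR

/-!
The ring of nice operators.
-/

/-- the nice operators -/
structure NN {H : Type} [Group H] (S : JS H) where
  /-- the operator -/
  op : Op H
  nice : Nice S op

theorem NN.ext {H : Type} [Group H] {S : JS H} {X Y : NN S} (h : X.op = Y.op) : X = Y := by
  cases X
  cases Y
  cases h
  rfl

theorem mulOp_apply {H : Type} (X Y : Op H) (h k : H) :
    mulOp X Y h k = ∑ᶠ m, X h m * Y m k := rfl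

theorem nice_assoc {H : Type} [Group H] {S : JS H} {X Y Z : Op H} (hX : Nice S X)
    (hY : Nice S Y) (hZ : Nice S Z) : mulOp (mulOp X Y) Z = mulOp X (mulOp Y Z) := by
  funext h
  exact assoc_row hX hY hZ h (X h) (fun m hm => hm)

theorem nice_add_mul {H : Type} [Group H] {S : JS H} {X Y Z : Op H} (hX : Nice S X)
    (hY : Nice S Y) (hZ : Nice S Z) : mulOp (X + Y) Z = mulOp X Z + mulOp Y Z := by
  funext h k
  change ∑ᶠ m, (X h m + Y h m) * Z m k = ∑ᶠ m, X h m * Z m k + ∑ᶠ m, Y h m * Z m k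
  rw [← finsum_add_distrib]
  · exact finsum_congr fun m => add_mul _ _ _
  · refine (Nice.ff hX hZ h k).subset ?_
    intro m hm
    exact ⟨left_ne_zero_of_mul hm, right_ne_zero_of_mul hm⟩
  · refine (Nice.ff hY hZ h k).subset ?_
    intro m hm
    exact ⟨left_ne_zero_of_mul hm, right_ne_zero_of_mul hm⟩

theorem nice_mul_add {H : Type} [Group H] {S : JS H} {X Y Z : Op H} (hX : Nice S X)
    (hY : Nice S Y) (hZ : Nice S Z) : mulOp X (Y + Z) = mulOp X Y + mulOp X Z := by
  funext h k
  change ∑ᶠ m, X h m * (Y m k + Z m k) = ∑ᶠ m, X h m * Y m k + ∑ᶠ m, X h m * Z m k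
  rw [← finsum_add_distrib]
  · exact finsum_congr fun m => mul_add _ _ _
  · refine (Nice.ff hX hY h k).subset ?_
    intro m hm
    exact ⟨left_ne_zero_of_mul hm, right_ne_zero_of_mul hm⟩
  · refine (Nice.ff hX hZ h k).subset ?_
    intro m hm
    exact ⟨left_ne_zero_of_mul hm, right_ne_zero_of_mul hm⟩

noncomputable instance NN.instAdd {H : Type} [Group H] (S : JS H) : Add (NN S) :=
  ⟨fun X Y => ⟨X.op + Y.op, NiceP.add (Closed.true S) X.nice Y.nice⟩⟩

noncomputable instance NN.instNeg {H : Type} [Group H] (S : JS H) : Neg (NN S) :=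
  ⟨fun X => ⟨-X.op, NiceP.neg (Closed.true S) X.nice⟩⟩

noncomputable instance NN.instZero {H : Type} [Group H] (S : JS H) : Zero (NN S) :=
  ⟨⟨0, NiceP.zero S _⟩⟩

noncomputable instance NN.instOne {H : Type} [Group H] (S : JS H) : One (NN S) :=
  ⟨⟨oneOp, NiceP.fin _⟩⟩

noncomputable instance NN.instMul {H : Type} [Group H] (S : JS H) : Mul (NN S) :=
  ⟨fun X Y => ⟨mulOp X.op Y.op, NiceP.mul (Closed.true S) X.nice Y.nice⟩⟩

noncomputable instance NN.instRing {H : Type} [Group H] (S : JS H) : Ring (NN S) where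
  add_assoc X Y Z := NN.ext (add_assoc X.op Y.op Z.op)
  zero_add X := NN.ext (zero_add X.op)
  add_zero X := NN.ext (add_zero X.op)
  add_comm X Y := NN.ext (add_comm X.op Y.op)
  nsmul := nsmulRec
  zsmul := zsmulRec
  neg_add_cancel X := NN.ext (neg_add_cancel X.op)
  mul_assoc X Y Z := NN.ext (nice_assoc X.nice Y.nice Z.nice)
  one_mul X := NN.ext (one_mulOp X.op)
  mul_one X := NN.ext (mulOp_one X.op)
  left_distrib X Y Z := NN.ext (nice_mul_add X.nice Y.nice Z.nice)
  right_distrib X Y Z := NN.ext (nice_add_mul X.nice Y.nice Z.nice)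
  zero_mul X := NN.ext (zero_mulOp X.op)
  mul_zero X := NN.ext (mulOp_zero X.op)

theorem NN.add_op {H : Type} [Group H] {S : JS H} (X Y : NN S) : (X + Y).op = X.op + Y.op := rfl

theorem NN.neg_op {H : Type} [Group H] {S : JS H} (X : NN S) : (-X).op = -X.op := rfl

theorem NN.sub_op {H : Type} [Group H] {S : JS H} (X Y : NN S) : (X - Y).op = X.op - Y.op := by
  rw [sub_eq_add_neg, sub_eq_add_neg]
  rfl

theorem NN.zero_op {H : Type} [Group H] {S : JS H} : (0 : NN S).op = 0 := rfl

theorem NN.one_op {H : Type} [Group H] {S : JS H} : (1 : NN S).op = oneOp := rfl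

theorem NN.mul_op {H : Type} [Group H] {S : JS H} (X Y : NN S) :
    (X * Y).op = mulOp X.op Y.op := rfl

theorem NN.sum_op {H : Type} [Group H] {S : JS H} {ι : Type} (s : Finset ι) (X : ι → NN S) :
    (∑ i ∈ s, X i).op = ∑ i ∈ s, (X i).op := by
  classical
  induction s using Finset.induction_on with
  | empty => rfl
  | insert i s hi ih => rw [Finset.sum_insert hi, Finset.sum_insert hi, NN.add_op, ih]

theorem NN.finsum_op {H : Type} [Group H] {S : JS H} {ι : Type} (X : ι → NN S)
    (hX : {i | (X i).op ≠ 0}.Finite) : (∑ᶠ i, X i).op = ∑ᶠ i, (X i).op := by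
  have h1 : ∀ i, X i ≠ 0 → (X i).op ≠ 0 := by
    intro i hi h
    exact hi (NN.ext h)
  have h2 : (Function.support X).Finite := hX.subset fun i hi => h1 i hi
  rw [finsum_eq_sum_of_support_subset (s := hX.toFinset) X (fun i hi => by
      rw [Set.Finite.coe_toFinset]
      exact h1 i hi),
    finsum_eq_sum_of_support_subset (s := hX.toFinset) (fun i => (X i).op) (fun i hi => by
      rw [Set.Finite.coe_toFinset]
      exact hi), NN.sum_op]

end Pool.Agent.LIR
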