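import Pool.Agent.LIR.Defs

set_option autoImplicit false

open Pool.Agent.COST

namespace Pool.Agent.LIR

/-!
**[LIR-B4] Expansion of a finite operator.** PROOF. `finOp x h k ≠ 0` means `k = h s` with
`s = h⁻¹ k` in the support; `k (h0 g)⁻¹ = (h h0⁻¹) (h0 s g⁻¹ h0⁻¹)`; so `v (k (h0 g)⁻¹) ≤ a` iff
`v (h h0⁻¹) ≤ a`, and then `ψ a (k (h0 g)⁻¹) - ψ a (h h0⁻¹) = ψ a (h0 s g⁻¹ h0⁻¹)`. `Ex.fin`: only the
finitely many values of `ψ` on the support occur.
-/

theorem B4_le_mul {H : Type} [Group H] (S : JS H) {a : WithBot S.Λ} {A B : H} (hA : S.v A ≤ a)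
    (hB : S.v B ≤ a) : S.v (A * B) ≤ a :=
  (S.v_mul A B).trans (max_le hA hB)

theorem B4_iff {H : Type} [Group H] (S : JS H) {a : WithBot S.Λ} {A B : H} (hB : S.v B ≤ a) :
    S.v (A * B) ≤ a ↔ S.v A ≤ a := by
  constructor
  · intro h
    have h1 : S.v (A * B * B⁻¹) ≤ a := B4_le_mul S h (by rw [S.v_inv]; exact hB)
    simpa using h1
  · intro h
    exact B4_le_mul S h hB

theorem B4_id {H : Type} [Group H] (h k h0 g : H) :
    k * (h0 * g)⁻¹ = (h * h0⁻¹) * (h0 * (h⁻¹ * k) * g⁻¹ * h0⁻¹) := by group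

theorem fin_ex {H : Type} [Group H] {S : JS H} (x : H →₀ ℂ) (a : S.Λ) (h0 g : H)
    (hx : ∀ s ∈ x.support, S.v (h0 * s * g⁻¹ * h0⁻¹) ≤ a) :
    Ex S a h0 (h0 * g) (finOp x) (fun r => finOp (lev S x a h0 g r)) := by
  classical
  refine ⟨?_, ?_, ?_, ?_⟩
  · intro h k hh hk
    have hs : h⁻¹ * k ∈ x.support := Finsupp.mem_support_iff.2 hk
    rw [B4_id h k h0 g]
    exact (B4_iff S (hx _ hs)).2 hh
  · intro r h k hk
    have hk' : (lev S x a h0 g r) (h⁻¹ * k) ≠ 0 := hk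
    unfold lev at hk'
    rw [Finsupp.filter_apply] at hk'
    split_ifs at hk' with hr
    · have hs : h⁻¹ * k ∈ x.support := Finsupp.mem_support_iff.2 hk'
      rw [B4_id h k h0 g]
      refine ⟨((B4_iff S (hx _ hs))).symm, fun hh => ?_⟩
      rw [S.ψ_mul a _ _ hh (hx _ hs), hr]
    · exact absurd rfl hk'
  · intro h k hh hk
    show x (h⁻¹ * k) = (lev S x a h0 g _) (h⁻¹ * k)
    unfold lev
    rw [Finsupp.filter_apply]
    have hB : S.v (h0 * (h⁻¹ * k) * g⁻¹ * h0⁻¹) ≤ a := by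
      have h1 : S.v ((h * h0⁻¹)⁻¹ * (k * (h0 * g)⁻¹)) ≤ a :=
        B4_le_mul S (by rw [S.v_inv]; exact hh) hk
      rw [B4_id h k h0 g] at h1
      simpa only [inv_mul_cancel_left] using h1
    rw [if_pos]
    rw [B4_id h k h0 g, S.ψ_mul a _ _ hh hB]
    ring
  · intro R
    refine (x.support.image fun s => S.ψ a (h0 * s * g⁻¹ * h0⁻¹)).finite_toSet.subset ?_
    rintro r ⟨-, hr⟩
    by_contra hcon
    apply hr
    funext h k
    show (lev S x a h0 g r) (h⁻¹ * k) = 0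
    unfold lev
    rw [Finsupp.filter_apply]
    split_ifs with h1
    · by_contra h2
      exact hcon (Finset.mem_coe.2 (Finset.mem_image.2
        ⟨h⁻¹ * k, Finsupp.mem_support_iff.2 h2, h1⟩))
    · rfl

end Pool.Agent.LIR
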