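import Pool.Agent.LIR.B1
import Pool.Agent.LIR.B2
import Pool.Agent.LIR.B3
import Pool.Agent.LIR.B4
import Pool.Agent.LIR.B5
import Pool.Agent.LIR.B6

set_option autoImplicit false

open Pool.Agent.COST

namespace Pool.Agent.LIR

/-!
**[LIR-B7] Finite plus nice.** PROOF. By strong induction on `n = card x.support` prove: for all
`x` with `card ≤ n` and all `X` with `NiceP S Q X`: `NiceP S Q (finOp x + X)`; inside, induction on
`NiceP S Q X`. `x = 0`: `finOp 0 = 0`. `X = finOp y`: `finOp_add`. `X` a node with `g`, `a`, `Y`: the
sum is a node with the same `g` and `a' h = max (a h) (sup of v (h s g⁻¹ h⁻¹) over s ∈ x.support)`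
(a value in `S.Λ`, since `a h` is; to define it take the maximum in `WithBot S.Λ`, which is not `⊥`),
consistent by `cons_max`, `cons_conj` (`u = s g⁻¹`, induction on the support). `supp`: `finOp x h k ≠ 0` gives
`k = h s`, `k (h g)⁻¹ = h s g⁻¹ h⁻¹`. At `h0` let `b = a' h0`; expansion of `finOp x`: `fin_ex`; of `X`:
`Y h0` if `a h0 = b`, `Ex.triv` if `a h0 < b`; `Ex.add`. Pieces: if `a h0 = b`:
`finOp (filter) + Y h0 r`, by the inner induction hypothesis (for all `x` of card `≤ n`). If
`a h0 < b`: for `r ≠ 0` `finOp (filter) + 0`; for `r = 0` `finOp (filter) + X`, and the filter is a proper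
part of `x`, because `b = v (h0 s g⁻¹ h0⁻¹)` for some `s ∈ x.support`, so that
`ψ b (h0 s g⁻¹ h0⁻¹) ≠ 0`: outer induction hypothesis. `Q (finOp x + X)`: `Closed.add`.
-/

private theorem b7_cons {H : Type} [Group H] (S : JS H) (g : H) (T : Finset H) :
    Cons S (fun h => T.sup fun s => S.v (h * (s * g⁻¹) * h⁻¹)) := by
  classical
  induction T using Finset.induction_on with
  | empty =>
    intro h h0 _
    show (∅ : Finset H).sup _ = (∅ : Finset H).sup _
    rw [Finset.sup_empty, Finset.sup_empty]
  | insert s T hs ih =>
    have h1 := cons_max (cons_conj S (s * g⁻¹)) ih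
    intro h h0 hh
    have h2 := h1 h h0
    simp only [Finset.sup_insert] at hh ⊢
    exact h2 hh

private theorem b7_card {H : Type} [Group H] (S : JS H) (x : H →₀ ℂ) (a : S.Λ) (h0 g : H) (r : ℝ) :
    (lev S x a h0 g r).support ⊆ x.support := by
  classical
  unfold lev
  rw [Finsupp.support_filter]
  exact Finset.filter_subset _ _

private theorem b7_main {H : Type} [Group H] {S : JS H} {Q : Op H → Prop} (hQ : Closed S Q)
    (n : ℕ) : ∀ (x : H →₀ ℂ) (X : Op H), x.support.card ≤ n → NiceP S Q X →
      NiceP S Q (finOp x + X) := by
  classical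
  induction n with
  | zero =>
    intro x X hx hX
    have h1 : x = 0 := by
      rw [← Finsupp.support_eq_empty, ← Finset.card_eq_zero]
      omega
    rw [h1, finOp_zero, zero_add]
    exact hX
  | succ n IH =>
    intro x X hx hX
    induction hX generalizing x with
    | fin y =>
      rw [← finOp_add]
      exact NiceP.fin _
    | node X g a Y hN hY hX ih =>
      set sp : H → WithBot S.Λ := fun h => x.support.sup fun s => S.v (h * (s * g⁻¹) * h⁻¹)
        with hsp
      have hne : ∀ h, max (a h : WithBot S.Λ) (sp h) ≠ ⊥ := by
        intro h h0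
        have h1 : (a h : WithBot S.Λ) ≤ ⊥ := h0 ▸ le_max_left _ _
        exact WithBot.coe_ne_bot (le_bot_iff.1 h1)
      set a' : H → S.Λ := fun h => (max (a h : WithBot S.Λ) (sp h)).unbot (hne h) with ha'
      have hca : ∀ h, (a' h : WithBot S.Λ) = max (a h : WithBot S.Λ) (sp h) := fun h =>
        WithBot.coe_unbot _ (hne h)
      have hle : ∀ h, (a h : WithBot S.Λ) ≤ a' h := fun h => by
        rw [hca h]
        exact le_max_left _ _
      have hsle : ∀ h, ∀ s ∈ x.support, S.v (h * s * g⁻¹ * h⁻¹) ≤ a' h := by
        intro h s hs
        rw [hca h]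
        refine le_trans ?_ (le_max_right _ _)
        have h1 : h * s * g⁻¹ * h⁻¹ = h * (s * g⁻¹) * h⁻¹ := by group
        rw [h1]
        exact Finset.le_sup (f := fun s => S.v (h * (s * g⁻¹) * h⁻¹)) hs
      have hcons : Cons S (fun h => (a' h : WithBot S.Λ)) := by
        have h1 := cons_max hN.cons (b7_cons S g x.support)
        have h2 : (fun h => (a' h : WithBot S.Λ)) = fun h => max (a h : WithBot S.Λ) (sp h) :=
          funext hca
        rw [h2]
        exact h1
      set Z : H → ℝ → Op H := fun h0 r => if a h0 = a' h0 then Y h0 r else triv X r with hZ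
      have hlt : ∀ h0, a h0 ≠ a' h0 → a h0 < a' h0 := fun h0 h =>
        lt_of_le_of_ne (WithBot.coe_le_coe.1 (hle h0)) h
      refine NiceP.node (finOp x + X) g a'
        (fun h0 r => finOp (lev S x (a' h0) h0 g r) + Z h0 r) ⟨hcons, ?_, ?_⟩ ?_ ?_
      · intro h k hk
        by_cases h1 : X h k = 0
        · have h2 : finOp x h k ≠ 0 := by
            intro h2
            apply hk
            show finOp x h k + X h k = 0
            rw [h1, h2, add_zero]
          have h3 : h⁻¹ * k ∈ x.support := Finsupp.mem_support_iff.2 h2
          have h4 := hsle h _ h3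
          have h5 : h * (h⁻¹ * k) * g⁻¹ * h⁻¹ = k * (h * g)⁻¹ := by group
          rwa [h5] at h4
        · exact (hN.supp h k h1).trans (hle h)
      · intro h0
        have e1 := fin_ex x (a' h0) h0 g (hsle h0)
        have e2 : Ex S (a' h0) h0 (h0 * g) X (Z h0) := by
          by_cases h1 : a h0 = a' h0
          · have h2 : Z h0 = Y h0 := by
              funext r
              rw [hZ]
              exact if_pos h1
            rw [h2, ← h1]
            exact hN.ex h0
          · have h2 : Z h0 = triv X := by
              funext r
              rw [hZ]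
              exact if_neg h1
            rw [h2]
            exact Ex.triv hN.cons hN.supp h0 (a' h0) (hlt h0 h1)
        exact e1.add e2
      · intro h0 r
        by_cases h1 : a h0 = a' h0
        · have h2 : Z h0 r = Y h0 r := by
            rw [hZ]
            exact if_pos h1
          show NiceP S Q (finOp (lev S x (a' h0) h0 g r) + Z h0 r)
          rw [h2]
          exact ih h0 r _ ((Finset.card_le_card (b7_card S x (a' h0) h0 g r)).trans hx)
        · have h2 : Z h0 r = triv X r := by
            rw [hZ]
            exact if_neg h1
          show NiceP S Q (finOp (lev S x (a' h0) h0 g r) + Z h0 r)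
          rw [h2]
          by_cases hr : r = 0
          · rw [hr, triv_zero]
            refine IH _ _ ?_ (NiceP.node X g a Y hN hY hX)
            have h3 := hlt h0 h1
            have h4 : (a' h0 : WithBot S.Λ) = sp h0 := by
              rcases max_choice (a h0 : WithBot S.Λ) (sp h0) with h5 | h5
              · have h6 := (hca h0).trans h5
                exact absurd h3 (not_lt.2 (WithBot.coe_le_coe.1 h6.le))
              · exact (hca h0).trans h5
            have hnem : x.support.Nonempty := by
              rw [Finset.nonempty_iff_ne_empty]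
              intro h5
              have h6 : sp h0 = ⊥ := by
                rw [hsp]
                show x.support.sup _ = ⊥
                rw [h5, Finset.sup_empty]
              rw [h6] at h4
              exact WithBot.coe_ne_bot h4
            obtain ⟨s, hs, hs2⟩ := Finset.exists_mem_eq_sup x.support hnem
              (fun s => S.v (h0 * (s * g⁻¹) * h0⁻¹))
            have h5 : S.v (h0 * s * g⁻¹ * h0⁻¹) = a' h0 := by
              have h6 : h0 * s * g⁻¹ * h0⁻¹ = h0 * (s * g⁻¹) * h0⁻¹ := by group
              rw [h6, h4]
              exact hs2.symm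
            have h6 : S.ψ (a' h0) (h0 * s * g⁻¹ * h0⁻¹) ≠ 0 := by
              intro h7
              have h8 := (S.ψ_zero (a' h0) _ h5.le).1 h7
              rw [h5] at h8
              exact lt_irrefl _ h8
            have h7 : s ∉ (lev S x (a' h0) h0 g 0).support := by
              unfold lev
              rw [Finsupp.support_filter, Finset.mem_filter]
              exact fun h8 => h6 h8.2
            have h8 : (lev S x (a' h0) h0 g 0).support ⊂ x.support :=
              ⟨b7_card S x (a' h0) h0 g 0, fun h9 => h7 (h9 hs)⟩
            have h9 := Finset.card_lt_card h8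
            omega
          · rw [triv_ne X hr, add_zero]
            exact NiceP.fin _
      · exact hQ.add _ _ (NiceP.fin x) (NiceP.node X g a Y hN hY hX).nice (hQ.fin x) hX

theorem NiceP.fin_add {H : Type} [Group H] {S : JS H} {Q : Op H → Prop} (hQ : Closed S Q)
    (x : H →₀ ℂ) {X : Op H} (hX : NiceP S Q X) : NiceP S Q (finOp x + X) :=
  b7_main hQ _ x X le_rfl hX

end Pool.Agent.LIR
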