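import Pool.Agent.LIR.B7

set_option autoImplicit false

open Pool.Agent.COST

namespace Pool.Agent.LIR

/-!
**[LIR-B8] Sums.** PROOF. Induction on `NiceP S Q X` for all `X'`, inside induction on
`NiceP S Q X'`. If one of them is finite: `NiceP.fin_add`. Otherwise `X`: `g`, `a`, `Y`, `X'`: `g'`,
`a'`, `Y'`. The sum is a node with `g` and `a'' h = max (a h) (a' h) (v (h (g' g⁻¹) h⁻¹))` (in
`WithBot S.Λ`, not `⊥`), consistent: `cons_max`, `cons_conj`. `supp`:
`k (h g)⁻¹ = (k (h g')⁻¹) (h g' g⁻¹ h⁻¹)`. At `h0` let `b = a'' h0`. Expansion of `X` at `(b, h0, h0 g)`: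
`Y h0` if `a h0 = b`, otherwise `Ex.triv`. Expansion of `X'` at `(b, h0, h0 g')`: `Y' h0` or `Ex.triv`, then
`Ex.rebase` to `h0 g` (shift by `κ = ψ b (h0 g' (h0 g)⁻¹)`); `Ex.add`. Pieces: both full: outer
induction hypothesis; `a h0 = b`, `a' h0 < b`: `Y h0 r + X'` or `Y h0 r + 0`: outer hypothesis for
`X'`; `a h0 < b = a' h0`: `X + Y' h0 r'` or `0 + Y' h0 r'`: inner hypothesis; both `< b`: then
`v (h0 g' g⁻¹ h0⁻¹) = b`, `κ ≠ 0`, so every piece is `X`, `X'` or `0` (or a sum with `0`). `Q`: `Closed.add`.
-/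

open Classical in
private noncomputable def b8_pc {H : Type} [Group H] {S : JS H} (X : Op H) (a : H → S.Λ)
    (Y : H → ℝ → Op H) (b : S.Λ) (h0 : H) : ℝ → Op H :=
  if a h0 = b then Y h0 else triv X

private theorem b8_eq {H : Type} [Group H] {S : JS H} (X : Op H) {a : H → S.Λ}
    (Y : H → ℝ → Op H) {b : S.Λ} {h0 : H} (h : a h0 = b) : b8_pc X a Y b h0 = Y h0 := by
  unfold b8_pc
  exact if_pos h

private theorem b8_ne {H : Type} [Group H] {S : JS H} (X : Op H) {a : H → S.Λ}
    (Y : H → ℝ → Op H) {b : S.Λ} {h0 : H} (h : a h0 ≠ b) : b8_pc X a Y b h0 = triv X := by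
  unfold b8_pc
  exact if_neg h

private theorem b8_ex {H : Type} [Group H] {S : JS H} {X : Op H} {g : H} {a : H → S.Λ}
    {Y : H → ℝ → Op H} (hN : Node S X g a Y) (h0 : H) (b : S.Λ) (hb : a h0 ≤ b) :
    Ex S b h0 (h0 * g) X (b8_pc X a Y b h0) := by
  by_cases h : a h0 = b
  · rw [b8_eq X Y h, ← h]
    exact hN.ex h0
  · rw [b8_ne X Y h]
    exact Ex.triv hN.cons hN.supp h0 b (lt_of_le_of_ne hb h)

theorem NiceP.add {H : Type} [Group H] {S : JS H} {Q : Op H → Prop} (hQ : Closed S Q)
    {X X' : Op H} (hX : NiceP S Q X) (hX' : NiceP S Q X') : NiceP S Q (X + X') := by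
  classical
  induction hX generalizing X' with
  | fin x => exact NiceP.fin_add hQ x hX'
  | node X g a Y hN hY hXq ih =>
    have hXn : NiceP S Q X := NiceP.node X g a Y hN hY hXq
    induction hX' with
    | fin y =>
      rw [add_comm]
      exact NiceP.fin_add hQ y hXn
    | node X' g' a' Y' hN' hY' hXq' ih' =>
      have hXn' : NiceP S Q X' := NiceP.node X' g' a' Y' hN' hY' hXq'
      set m : H → WithBot S.Λ := fun h =>
        max (max (a h : WithBot S.Λ) (a' h : WithBot S.Λ)) (S.v (h * (g' * g⁻¹) * h⁻¹)) with hm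
      have hne : ∀ h, m h ≠ ⊥ := by
        intro h h0
        have h1 : (a h : WithBot S.Λ) ≤ ⊥ :=
          h0 ▸ (le_max_left (a h : WithBot S.Λ) (a' h : WithBot S.Λ)).trans (le_max_left _ _)
        exact WithBot.coe_ne_bot (le_bot_iff.1 h1)
      set b : H → S.Λ := fun h => (m h).unbot (hne h) with hb
      have hcb : ∀ h, (b h : WithBot S.Λ) =
          max (max (a h : WithBot S.Λ) (a' h : WithBot S.Λ)) (S.v (h * (g' * g⁻¹) * h⁻¹)) :=
        fun h => WithBot.coe_unbot _ (hne h)
      have hab : ∀ h, a h ≤ b h := fun h => by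
        rw [← WithBot.coe_le_coe, hcb h]
        exact (le_max_left _ _).trans (le_max_left _ _)
      have hab' : ∀ h, a' h ≤ b h := fun h => by
        rw [← WithBot.coe_le_coe, hcb h]
        exact (le_max_right _ _).trans (le_max_left _ _)
      have hg5 : ∀ h : H, h * g' * (h * g)⁻¹ = h * (g' * g⁻¹) * h⁻¹ := fun h => by group
      have hκ : ∀ h, S.v (h * g' * (h * g)⁻¹) ≤ b h := fun h => by
        rw [hg5 h, hcb h]
        exact le_max_right _ _
      have hcons : Cons S (fun h => (b h : WithBot S.Λ)) := by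
        have h1 := cons_max (cons_max hN.cons hN'.cons) (cons_conj S (g' * g⁻¹))
        have h2 : (fun h => (b h : WithBot S.Λ)) = fun h =>
            max (max (a h : WithBot S.Λ) (a' h : WithBot S.Λ)) (S.v (h * (g' * g⁻¹) * h⁻¹)) :=
          funext hcb
        rw [h2]
        exact h1
      refine NiceP.node (X + X') g b (fun h0 r => b8_pc X a Y (b h0) h0 r +
        b8_pc X' a' Y' (b h0) h0 (r - S.ψ (b h0) (h0 * g' * (h0 * g)⁻¹))) ⟨hcons, ?_, ?_⟩ ?_ ?_
      · intro h k hk
        by_cases h1 : X h k = 0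
        · have h2 : X' h k ≠ 0 := by
            intro h2
            apply hk
            show X h k + X' h k = 0
            rw [h1, h2, add_zero]
          have h4 := S.le_mul ((hN'.supp h k h2).trans (WithBot.coe_le_coe.2 (hab' h))) (hκ h)
          have h5 : k * (h * g')⁻¹ * (h * g' * (h * g)⁻¹) = k * (h * g)⁻¹ := by group
          rwa [h5] at h4
        · exact (hN.supp h k h1).trans (WithBot.coe_le_coe.2 (hab h))
      · intro h0
        exact (b8_ex hN h0 (b h0) (hab h0)).add ((b8_ex hN' h0 (b h0) (hab' h0)).rebase (hκ h0))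
      · intro h0 r
        show NiceP S Q (b8_pc X a Y (b h0) h0 r +
          b8_pc X' a' Y' (b h0) h0 (r - S.ψ (b h0) (h0 * g' * (h0 * g)⁻¹)))
        by_cases h1 : a h0 = b h0
        · rw [b8_eq X Y h1]
          by_cases h2 : a' h0 = b h0
          · rw [b8_eq X' Y' h2]
            exact ih h0 r (hY' h0 _)
          · rw [b8_ne X' Y' h2]
            by_cases h3 : r - S.ψ (b h0) (h0 * g' * (h0 * g)⁻¹) = 0
            · rw [h3, triv_zero]
              exact ih h0 r hXn'
            · rw [triv_ne _ h3, add_zero]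
              exact hY h0 r
        · rw [b8_ne X Y h1]
          by_cases h2 : a' h0 = b h0
          · rw [b8_eq X' Y' h2]
            by_cases h3 : r = 0
            · rw [h3, triv_zero]
              exact ih' h0 _
            · rw [triv_ne _ h3, zero_add]
              exact hY' h0 _
          · rw [b8_ne X' Y' h2]
            have h3 : S.ψ (b h0) (h0 * g' * (h0 * g)⁻¹) ≠ 0 := by
              intro h4
              have h5 := (S.ψ_zero (b h0) _ (hκ h0)).1 h4
              rw [hg5 h0] at h5
              rcases max_choice (max (a h0 : WithBot S.Λ) (a' h0 : WithBot S.Λ))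
                (S.v (h0 * (g' * g⁻¹) * h0⁻¹)) with h6 | h6
              · have h7 := (hcb h0).trans h6
                rcases max_choice (a h0 : WithBot S.Λ) (a' h0 : WithBot S.Λ) with h8 | h8
                · exact h1 (WithBot.coe_injective (h7.trans h8)).symm
                · exact h2 (WithBot.coe_injective (h7.trans h8)).symm
              · rw [(hcb h0).trans h6] at h5
                exact lt_irrefl _ h5
            by_cases h4 : r = 0
            · have h5 : r - S.ψ (b h0) (h0 * g' * (h0 * g)⁻¹) ≠ 0 := by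
                rw [h4, zero_sub]
                exact neg_ne_zero.2 h3
              rw [triv_ne _ h5, add_zero, h4, triv_zero]
              exact hXn
            · rw [triv_ne _ h4, zero_add]
              by_cases h5 : r - S.ψ (b h0) (h0 * g' * (h0 * g)⁻¹) = 0
              · rw [h5, triv_zero]
                exact hXn'
              · rw [triv_ne _ h5, ← finOp_zero]
                exact NiceP.fin 0
      · exact hQ.add _ _ hXn.nice hXn'.nice hXq hXq'

end Pool.Agent.LIR
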