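import Pool.Agent.LIR.B10
import Pool.Agent.LIR.B13

set_option autoImplicit false

open Pool.Agent.COST

namespace Pool.Agent.LIR

/-!
**[LIR-C1] Injective matrices.** PROOF. `FR_one`: `vecF` of the row is the basis vector, the inner products
with its translates are the coordinates of `f`. `FR_blk`: let `f` on `H × (I ⊕ I')` be orthogonal to
all translates of all rows. The rows `inr i` only involve the coordinates `inr j`: the function
`f2 (h, j) = f (h, inr j)` (an element of `L2 (H × I')`: restriction of a square summable function along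
the injection `(h, j) ↦ (h, inr j)`) satisfies the hypothesis of `FR A'`, so `f2 = 0`. Then the rows
`inl i` give the hypothesis of `FR A` for `f1`. (Expand the inner products as finite sums: `toL2` of a
finitely supported function, `inner_dl`, or: `⟪tr g (toL2 p), f⟫ = ∑ conj (p (h, i)) * f (g h, i)` over
the support of `p`.)
-/

/-- block triangular matrix -/
noncomputable def blk {H I I' : Type} (A : I → I → H →₀ ℂ) (E : I → I' → H →₀ ℂ)
    (A' : I' → I' → H →₀ ℂ) : I ⊕ I' → I ⊕ I' → H →₀ ℂ
  | Sum.inl i, Sum.inl j => A i j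
  | Sum.inl i, Sum.inr j => E i j
  | Sum.inr _, Sum.inl _ => 0
  | Sum.inr i, Sum.inr j => A' i j

theorem C1_toL2 {H I : Type} [Group H] [Fintype I] (w : I → H →₀ ℂ) :
    toL2 (vecF w) = ∑ j, ∑ h ∈ (w j).support, w j h • dl (h, j) := by
  classical
  apply L2.ext
  rintro ⟨k, j0⟩
  rw [toL2_apply, vecF_apply, lp.coeFn_sum, Finset.sum_apply, Finset.sum_eq_single j0]
  · rw [lp.coeFn_sum, Finset.sum_apply]
    by_cases hk : k ∈ (w j0).support
    · rw [Finset.sum_eq_single k]
      · change w j0 k = w j0 k * (dl (k, j0) : L2 (H × I)) (k, j0)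
        rw [dl_self, mul_one]
      · intro h _ hne
        change w j0 h * (dl (h, j0) : L2 (H × I)) (k, j0) = 0
        rw [dl_ne, mul_zero]
        intro h3
        exact hne (congrArg Prod.fst h3).symm
      · intro h
        exact absurd hk h
    · rw [Finsupp.notMem_support_iff.1 hk]
      symm
      apply Finset.sum_eq_zero
      intro h hh
      change w j0 h * (dl (h, j0) : L2 (H × I)) (k, j0) = 0
      rw [dl_ne, mul_zero]
      intro h3
      have h4 := congrArg Prod.fst h3
      change k = h at h4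
      rw [h4] at hk
      exact hk hh
  · intro j _ hne
    rw [lp.coeFn_sum, Finset.sum_apply]
    apply Finset.sum_eq_zero
    intro h _
    change w j h * (dl (h, j) : L2 (H × I)) (k, j0) = 0
    rw [dl_ne, mul_zero]
    intro h3
    exact hne (congrArg Prod.snd h3).symm
  · intro h
    exact absurd (Finset.mem_univ _) h

theorem C1_inner {H I : Type} [Group H] [Fintype I] (w : I → H →₀ ℂ) (g : H) (f : L2 (H × I)) :
    inner ℂ (tr g (toL2 (vecF w))) f =
      ∑ j, ∑ h ∈ (w j).support, (starRingEnd ℂ) (w j h) * f (g * h, j) := by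
  classical
  rw [C1_toL2, map_sum, sum_inner]
  refine Finset.sum_congr rfl fun j _ => ?_
  rw [map_sum, sum_inner]
  refine Finset.sum_congr rfl fun h _ => ?_
  rw [map_smul, tr_dl, inner_smul_left, inner_dl]

theorem FR_one {H : Type} [Group H] : FR (fun _ _ : Unit => (Finsupp.single 1 1 : H →₀ ℂ)) := by
  classical
  intro f hf
  apply L2.ext
  rintro ⟨g, ⟨⟩⟩
  have h1 := hf g ()
  rw [C1_inner] at h1
  simp only [Finset.univ_unique, Finset.sum_singleton] at h1
  rw [Finsupp.support_single_ne_zero _ one_ne_zero, Finset.sum_singleton,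
    Finsupp.single_eq_same, map_one, one_mul, mul_one] at h1
  exact h1

theorem FR_blk {H I I' : Type} [Group H] [Fintype I] [Fintype I'] {A : I → I → H →₀ ℂ}
    {A' : I' → I' → H →₀ ℂ} (hA : FR A) (hA' : FR A') (E : I → I' → H →₀ ℂ) :
    FR (blk A E A') := by
  classical
  intro f hf
  obtain ⟨R2, -, hR2⟩ := pre_op (Ω := H × (I ⊕ I')) (Ω' := H × I')
    (fun q => some (q.1, Sum.inr q.2)) (by
      rintro ⟨a, i⟩ ⟨b, j⟩ ω ha hb
      have h := (Option.some.inj ha).trans (Option.some.inj hb).symm
      have h1 := congrArg Prod.fst h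
      have h2 := Sum.inr_injective (congrArg Prod.snd h)
      simp only at h1 h2
      rw [h1, h2])
  obtain ⟨R1, -, hR1⟩ := pre_op (Ω := H × (I ⊕ I')) (Ω' := H × I)
    (fun q => some (q.1, Sum.inl q.2)) (by
      rintro ⟨a, i⟩ ⟨b, j⟩ ω ha hb
      have h := (Option.some.inj ha).trans (Option.some.inj hb).symm
      have h1 := congrArg Prod.fst h
      have h2 := Sum.inl_injective (congrArg Prod.snd h)
      simp only at h1 h2
      rw [h1, h2])
  have e2 : ∀ h j, R2 f (h, j) = f (h, Sum.inr j) := fun h j => hR2 f (h, j)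
  have e1 : ∀ h j, R1 f (h, j) = f (h, Sum.inl j) := fun h j => hR1 f (h, j)
  have h2 : R2 f = 0 := by
    apply hA'
    intro g i
    have h3 := hf g (Sum.inr i)
    rw [C1_inner, Fintype.sum_sum_type] at h3
    rw [C1_inner]
    have h4 : ∑ j : I, ∑ h ∈ (blk A E A' (Sum.inr i) (Sum.inl j)).support,
        (starRingEnd ℂ) (blk A E A' (Sum.inr i) (Sum.inl j) h) * f (g * h, Sum.inl j) = 0 := by
      apply Finset.sum_eq_zero
      intro j _
      change ∑ h ∈ (0 : H →₀ ℂ).support, _ = _
      simp
    rw [h4, zero_add] at h3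
    rw [← h3]
    refine Finset.sum_congr rfl fun j _ => ?_
    refine Finset.sum_congr rfl fun h _ => ?_
    rw [e2]
    rfl
  have h5 : ∀ h j, f (h, Sum.inr j) = 0 := by
    intro h j
    rw [← e2, h2]
    rfl
  have h1 : R1 f = 0 := by
    apply hA
    intro g i
    have h3 := hf g (Sum.inl i)
    rw [C1_inner, Fintype.sum_sum_type] at h3
    rw [C1_inner]
    have h4 : ∑ j : I', ∑ h ∈ (blk A E A' (Sum.inl i) (Sum.inr j)).support,
        (starRingEnd ℂ) (blk A E A' (Sum.inl i) (Sum.inr j) h) * f (g * h, Sum.inr j) = 0 := by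
      apply Finset.sum_eq_zero
      intro j _
      apply Finset.sum_eq_zero
      intro h _
      rw [h5, mul_zero]
    rw [h4, add_zero] at h3
    rw [← h3]
    refine Finset.sum_congr rfl fun j _ => ?_
    refine Finset.sum_congr rfl fun h _ => ?_
    rw [e1]
    rfl
  apply L2.ext
  rintro ⟨h, j | j⟩
  · rw [← e1, h1]
    rfl
  · rw [h5]
    rfl

theorem FR_empty {H : Type} [Group H] (A : Empty → Empty → H →₀ ℂ) : FR A := by
  intro f _
  apply L2.ext
  rintro ⟨_, ⟨⟩⟩

end Pool.Agent.LIR
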