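import Pool.Agent.LIR.C1
import Pool.Agent.LIR.B14

set_option autoImplicit false

open Pool.Agent.COST

namespace Pool.Agent.LIR

/-!
**[LIR-C2] Rational operators are closed under sums and products.** PROOF. `fin`: `I = Unit`,
`A = c = 1`, `b = x`, `U = oneOp` (`FR_one`, `one_mulOp`). `add`: `I ⊕ I'`, `blk A 0 A'`,
`b`, `c`, `U` by `Sum.elim`. `mul` (`X = ∑ U i b i`, `X' = ∑ U' i b' i`): `I ⊕ I'`,
`blk A (fun i j => - mulF (b i) (c' j)) A'`, `b'' = Sum.elim 0 b'`, `c'' = Sum.elim c 0`,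
`U'' = Sum.elim U (fun i => mulOp X (U' i))`. Check: columns `inl j`: `∑ U i A i j = c j`. Columns
`inr j`: `- ∑ U i (b i) (c' j) + X ∑ U' i A' i j = - X c' j + X c' j = 0`. `U'' b'' = X ∑ U' i b' i = X X'`.
All computations in the ring `NN S` (associativity, distributivity); `finOp_mul`, `finOp_add`,
`FR_blk`.
-/

/-- a finite operator as an element of the ring of nice operators -/
noncomputable def c2_f {H : Type} [Group H] (S : JS H) (x : H →₀ ℂ) : NN S :=
  ⟨finOp x, NiceP.fin x⟩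

theorem c2_f_mul {H : Type} [Group H] (S : JS H) (x y : H →₀ ℂ) :
    c2_f S (mulF x y) = c2_f S x * c2_f S y := by
  apply NN.ext
  rw [NN.mul_op]
  exact (finOp_mul x y).symm

theorem c2_f_neg {H : Type} [Group H] (S : JS H) (x : H →₀ ℂ) :
    c2_f S (-x) = -c2_f S x := by
  apply NN.ext
  rw [NN.neg_op]
  funext h k
  change (-x) (h⁻¹ * k) = -(x (h⁻¹ * k))
  rw [Finsupp.neg_apply]

theorem c2_f_zero {H : Type} [Group H] (S : JS H) : c2_f S 0 = 0 := by
  apply NN.ext
  rw [NN.zero_op]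
  exact finOp_zero

theorem c2_sum {H : Type} [Group H] {S : JS H} {I : Type} [Fintype I] {U : I → Op H}
    (hU : ∀ i, Nice S (U i)) (x : I → H →₀ ℂ) (X : Op H) (hX : Nice S X)
    (h : ∑ i, mulOp (U i) (finOp (x i)) = X) :
    ∑ i, (⟨U i, hU i⟩ : NN S) * c2_f S (x i) = ⟨X, hX⟩ := by
  apply NN.ext
  rw [NN.sum_op]
  change _ = X
  rw [← h]
  refine Finset.sum_congr rfl fun i _ => ?_
  rw [NN.mul_op]
  rfl

theorem c2_sum' {H : Type} [Group H] {S : JS H} {I : Type} [Fintype I] {U : I → Op H}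
    (hU : ∀ i, Nice S (U i)) (x : I → H →₀ ℂ) (X : NN S)
    (h : ∑ i, (⟨U i, hU i⟩ : NN S) * c2_f S (x i) = X) :
    ∑ i, mulOp (U i) (finOp (x i)) = X.op := by
  rw [← h, NN.sum_op]
  refine Finset.sum_congr rfl fun i _ => ?_
  rw [NN.mul_op]
  rfl

theorem rat_closed {H : Type} [Group H] (S : JS H) : Closed S (Rat S) := by
  constructor
  · intro x
    refine ⟨Unit, inferInstance, fun _ _ => Finsupp.single 1 1, fun _ => x,
      fun _ => Finsupp.single 1 1, fun _ => oneOp, FR_one, fun _ => NiceP.fin _, ?_, ?_⟩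
    · intro j
      rw [Finset.univ_unique, Finset.sum_singleton, one_mulOp]
    · rw [Finset.univ_unique, Finset.sum_singleton, one_mulOp]
  · rintro X X' hX hX' ⟨I, hI, A, b, c, U, hA, hU, h1, h2⟩ ⟨I', hI', A', b', c', U', hA', hU', h1', h2'⟩
    refine ⟨I ⊕ I', inferInstance, blk A (fun _ _ => 0) A', Sum.elim b b', Sum.elim c c',
      Sum.elim U U', FR_blk hA hA' _, ?_, ?_, ?_⟩
    · rintro (i | i)
      · exact hU i
      · exact hU' i
    · rintro (j | j)
      · rw [Fintype.sum_sum_type]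
        simp only [blk, Sum.elim_inl, Sum.elim_inr]
        rw [h1 j, finOp_zero]
        simp only [mulOp_zero, Finset.sum_const_zero, add_zero]
      · rw [Fintype.sum_sum_type]
        simp only [blk, Sum.elim_inl, Sum.elim_inr]
        rw [h1' j, finOp_zero]
        simp only [mulOp_zero, Finset.sum_const_zero, zero_add]
    · rw [Fintype.sum_sum_type]
      simp only [Sum.elim_inl, Sum.elim_inr]
      rw [h2, h2']
  · rintro X X' hX hX' ⟨I, hI, A, b, c, U, hA, hU, h1, h2⟩ ⟨I', hI', A', b', c', U', hA', hU', h1', h2'⟩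
    have hXU : ∀ i, Nice S (mulOp X (U' i)) := fun i => by
      have := ((⟨X, hX⟩ : NN S) * ⟨U' i, hU' i⟩).nice
      rw [NN.mul_op] at this
      exact this
    have eXU : ∀ i, (⟨mulOp X (U' i), hXU i⟩ : NN S) = ⟨X, hX⟩ * ⟨U' i, hU' i⟩ := fun i => by
      apply NN.ext
      rw [NN.mul_op]
    have hb := c2_sum hU b X hX h2
    have hb' := c2_sum hU' b' X' hX' h2'
    have hc' : ∀ j, ∑ i, (⟨U' i, hU' i⟩ : NN S) * c2_f S (A' i j) = c2_f S (c' j) := fun j =>
      c2_sum hU' (fun i => A' i j) (finOp (c' j)) (NiceP.fin _) (h1' j)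
    refine ⟨I ⊕ I', inferInstance, blk A (fun i j => -mulF (b i) (c' j)) A', Sum.elim (fun _ => 0) b',
      Sum.elim c (fun _ => 0), Sum.elim U (fun i => mulOp X (U' i)), FR_blk hA hA' _, ?_, ?_, ?_⟩
    · rintro (i | i)
      · exact hU i
      · exact hXU i
    · rintro (j | j)
      · rw [Fintype.sum_sum_type]
        simp only [blk, Sum.elim_inl, Sum.elim_inr]
        rw [h1 j, finOp_zero]
        simp only [mulOp_zero, Finset.sum_const_zero, add_zero]
      · rw [Fintype.sum_sum_type]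
        simp only [blk, Sum.elim_inl, Sum.elim_inr]
        have e1 := c2_sum' hU (fun i => -mulF (b i) (c' j)) (-((⟨X, hX⟩ : NN S) * c2_f S (c' j))) (by
          rw [← hb, Finset.sum_mul, ← Finset.sum_neg_distrib]
          refine Finset.sum_congr rfl fun i _ => ?_
          rw [c2_f_neg, c2_f_mul, mul_neg, mul_assoc])
        have e2 := c2_sum' hXU (fun i => A' i j) ((⟨X, hX⟩ : NN S) * c2_f S (c' j)) (by
          rw [← hc' j, Finset.mul_sum]
          refine Finset.sum_congr rfl fun i _ => ?_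
          rw [eXU, mul_assoc])
        rw [e1, e2, NN.neg_op, neg_add_cancel, finOp_zero]
    · rw [Fintype.sum_sum_type]
      simp only [Sum.elim_inl, Sum.elim_inr]
      rw [finOp_zero]
      simp only [mulOp_zero, Finset.sum_const_zero, zero_add]
      have e2 := c2_sum' hXU b' ((⟨X, hX⟩ : NN S) * ⟨X', hX'⟩) (by
        rw [← hb', Finset.mul_sum]
        refine Finset.sum_congr rfl fun i _ => ?_
        rw [eXU, mul_assoc])
      rw [e2, NN.mul_op]

theorem NQ.nice {H : Type} [Group H] {S : JS H} {X : Op H} (hX : NQ S X) : Nice S X :=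
  NiceP.nice hX

theorem NQ.rat {H : Type} [Group H] {S : JS H} {X : Op H} (hX : NQ S X) : Rat S X :=
  NiceP.q (rat_closed S) hX

end Pool.Agent.LIR
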