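import Pool.Agent.LIR.Defs

set_option autoImplicit false

open Pool.Agent.COST

namespace Pool.Agent.LIR

/-- restriction of a square summable function to the range of an injective map -/
theorem D1_mem {Ω Ω' : Type} (κ : Ω → Ω') (hκ : Function.Injective κ) (f : L2 Ω') :
    Memℓp (fun ω : Ω => (f (κ ω) : ℂ)) 2 := by
  have h1 : Summable fun i : Ω' => ‖(f i : ℂ)‖ ^ (2 : ENNReal).toReal :=
    (memℓp_gen_iff e0_1_two).mp (lp.memℓp f)
  rw [memℓp_gen_iff e0_1_two]
  exact h1.comp_injective hκ

/-- the inner product with a function supported in the range of an injective map -/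
theorem D1_inner {Ω Ω' : Type} (κ : Ω → Ω') (hκ : Function.Injective κ) (f x' : L2 Ω')
    (hf : ∀ ω', ω' ∉ Set.range κ → f ω' = 0) (f₁ x : L2 Ω) (hf₁ : ∀ ω, f₁ ω = f (κ ω))
    (hx : ∀ ω, x ω = x' (κ ω)) : inner ℂ x f₁ = inner ℂ x' f := by
  rw [lp.inner_eq_tsum, lp.inner_eq_tsum, ← hκ.tsum_eq]
  · refine tsum_congr fun ω => ?_
    rw [hf₁, hx]
  · intro ω' h
    by_contra h2
    apply h
    change inner ℂ (x' ω') (f ω') = 0
    rw [hf ω' h2, inner_zero_right]

theorem D1_inner_dl {H J : Type} [Group H] (g : H) (j : J) (f : L2 (H × J)) :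
    inner ℂ (tr g (toL2 (Finsupp.single ((1 : H), j) 1))) f = f (g, j) := by
  rw [toL2_single, one_smul, tr_dl, mul_one]
  exact inner_dl _ f

/-- a closed invariant subspace is zero if its dimension is zero -/
theorem D1_zero {H J : Type} [Group H] [Fintype J] (V : Submodule ℂ (L2 (H × J)))
    (hV : ∀ (g : H) (f : L2 (H × J)), f ∈ V → tr g f ∈ V) (h0 : vd V ≤ 0) (f : L2 (H × J))
    (hf : f ∈ V) : f = 0 := by
  have h1 : ∀ j : J, V.topologicalClosure.starProjection (dl ((1 : H), j)) = 0 := by
    have h2 : vd V = 0 := le_antisymm h0 (Finset.sum_nonneg fun i _ => sq_nonneg _)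
    unfold vd at h2
    rw [Finset.sum_eq_zero_iff_of_nonneg fun i _ => sq_nonneg _] at h2
    intro j
    have h3 := h2 j (Finset.mem_univ j)
    rw [sq_eq_zero_iff, norm_eq_zero] at h3
    exact h3
  apply L2.ext
  rintro ⟨g, j⟩
  have h2 : V.topologicalClosure.starProjection (dl (g, j)) = 0 := by
    have h3 : (dl (g, j) : L2 (H × J)) = tr g (dl ((1 : H), j)) := by
      rw [tr_dl, mul_one]
    rw [h3, l0_4_comm V hV, h1, map_zero]
  have h4 := Submodule.starProjection_inner_eq_zero (K := V.topologicalClosure)
    (dl (g, j) : L2 (H × J)) f (V.le_topologicalClosure hf)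
  rw [h2, sub_zero, inner_dl] at h4
  rw [h4]
  rfl

/-- a space generated by active generators whose projection is dense bounds the dimension -/
theorem D1_le {H I S : Type} [Group H] [Countable H] [Fintype I] [Fintype S] (X : PMP H)
    (ξ : S → H × I →₀ ℂ) (A : S → Set X.X) (hA : ∀ s, MeasurableSet (A s))
    (V : Submodule ℂ (L2 (H × I))) (hVc : V.topologicalClosure = V)
    (hV : ∀ (g : H) (f : L2 (H × I)), f ∈ V → tr g f ∈ V)
    (hz : ∀ z, ∀ f ∈ V, (∀ g s, g⁻¹ • z ∈ A s → inner ℂ (tr g (toL2 (ξ s))) f = 0) → f = 0) :
    vd V ≤ ∑ s, (X.μ (A s)).toReal := by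
  obtain ⟨_, h2⟩ := gen_proj X ξ A hA V hV
  have hcl : ∀ z, ((genSpan ξ A z).map
      V.topologicalClosure.starProjection.toLinearMap).topologicalClosure =
        V.topologicalClosure := by
    intro z
    have hle : ((genSpan ξ A z).map
      V.topologicalClosure.starProjection.toLinearMap).topologicalClosure ≤
        V.topologicalClosure := by
      refine Submodule.topologicalClosure_minimal _ ?_ (Submodule.isClosed_topologicalClosure _)
      rintro _ ⟨u, _, rfl⟩
      exact Submodule.starProjection_apply_mem _ u
    apply le_antisymm hle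
    intro x hx
    set K : Submodule ℂ (L2 (H × I)) := ((genSpan ξ A z).map
      V.topologicalClosure.starProjection.toLinearMap).topologicalClosure with hK
    have hKcomp : CompleteSpace K := (Submodule.isClosed_topologicalClosure _).completeSpace_coe
    have h1 : K.starProjection x ∈ K := Submodule.starProjection_apply_mem K x
    have h2 : x - K.starProjection x ∈ Kᗮ := Submodule.sub_starProjection_mem_orthogonal x
    have h3 : x - K.starProjection x ∈ V.topologicalClosure :=
      Submodule.sub_mem _ hx (hle h1)
    have h4 : x - K.starProjection x ∈ V := by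
      rw [hVc] at h3
      exact h3
    have h5 : x - K.starProjection x = 0 := by
      refine hz z _ h4 ?_
      intro g s hg
      have h6 : V.topologicalClosure.starProjection (tr g (toL2 (ξ s))) ∈ K := by
        refine Submodule.le_topologicalClosure _ ?_
        exact ⟨_, Submodule.subset_span ⟨g, s, hg, rfl⟩, rfl⟩
      have h7 := (Submodule.mem_orthogonal _ _).1 h2 _ h6
      have h8 := Submodule.starProjection_inner_eq_zero (K := V.topologicalClosure)
        (tr g (toL2 (ξ s))) _ h3
      rw [inner_sub_left, h7, sub_zero] at h8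
      exact h8
    rw [sub_eq_zero] at h5
    rw [h5]
    exact h1
  have hvd : ∀ z, vd ((genSpan ξ A z).map V.topologicalClosure.starProjection.toLinearMap) =
      vd V := by
    intro z
    unfold vd
    refine Finset.sum_congr rfl fun i _ => ?_
    rw [l0_4_congr _ _ (hcl z)]
  have h3 : ∫ z, vd ((genSpan ξ A z).map V.topologicalClosure.starProjection.toLinearMap) ∂X.μ =
      vd V := by
    simp only [hvd]
    rw [MeasureTheory.integral_const]
    simp
  rw [h3] at h2
  exact h2

/-!
**[LIR-D1] Injectivity of a bordered matrix from one tame row.** PROOF. Let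
`V = {f | f orthogonal to all tr g (toL2 (vecF (bord .. i)))}` (a closed invariant subspace:
the orthogonal complement of the span, `tr` is unitary). Claim `vd V = 0`; then the projections of all
`dl (1, i)` and by invariance of all `dl (g, i)` on `V` are `0`, so `V = 0`. Let `ε > 0`. `star_fam` for the family
of relations indexed by `j : Option I`: `- c0 j + ∑ i, rc (u i) (bord .. i j) = 0`
(`c0 none = single m 1`, `c0 (some j) = 0`), `Option I` of the rows reindexed by `Fin (card I + 1)`
(as in `m1`, `m2`), gives `N`, `sys_exists` a system `A` and sets `T`, `T'` of measure `≤ ε`. `gen_proj`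
for `X = A.X`, this `V`, and the generators `single (1, j) 1` on `T` (`j : Option I`) and
`single (m, none) 1` on `T'`: the integral of `vd (P_V (genSpan ..))` is at most
`(card I + 2) ε`. For every `z` the space `P_V (genSpan .. z)` is dense in `V`: let `f ∈ V` be orthogonal
to it, i.e. (as `f ∈ V`) to all `dl (g, j)` with `g⁻¹ • z ∈ T` and to all `dl (g m, none)` with
`g⁻¹ • z ∈ T'`. If `g⁻¹ • z ∉ T'` then by `m2_incl`-type expansion (with `b i = trunc A (g⁻¹ • z) (u i)`,
`trunc_finite`) `dl (g m, none) = tr g (toL2 (vecF c0))` is in the span of the translates of the rows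
of `bord ..` and of the `dl (g y, j)` with `(g y)⁻¹ • z ∈ T`, so `f` is orthogonal to it. Hence
`f (h, none) = 0` for all `h`. The restriction of `f` to the coordinates `some i` then satisfies the
hypothesis of `FR A` (the rows `some i` of `bord`; the entries at `none` do not matter), so `f = 0`. So
`vd V = ∫ vd V ≤ (card I + 2) ε` for all `ε`.
-/

theorem FR_bord {H : Type} [Group H] [Countable H] {S : JS H} {I : Type} [Fintype I]
    {A : I → I → H →₀ ℂ} {b c : I → H →₀ ℂ} {d : H →₀ ℂ} (hA : FR A) (u : Option I → H → ℂ)
    (hu : ∀ i, Tame S (u i)) (m : H)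
    (e0 : ∀ (j : I) (h : H), ∑ i, rc (u i) (bord A b c d i (some j)) h = 0)
    (e1 : ∀ h : H, ∑ i, rc (u i) (bord A b c d i none) h = (Finsupp.single m (1 : ℂ)) h) :
    FR (bord A b c d) := by
  classical
  let B := bord A b c d
  let U : Submodule ℂ (L2 (H × Option I)) :=
    Submodule.span ℂ {f | ∃ (g : H) (i : Option I), f = tr g (toL2 (vecF (B i)))}
  have hUinv : ∀ (g : H) (f : L2 (H × Option I)), f ∈ U → tr g f ∈ U := by
    intro g f hf
    induction hf using Submodule.span_induction with
    | mem x hx =>
      obtain ⟨h, i, rfl⟩ := hx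
      rw [← tr_mul]
      exact Submodule.subset_span ⟨g * h, i, rfl⟩
    | zero => rw [map_zero]; exact U.zero_mem
    | add x y _ _ hx hy => rw [map_add]; exact U.add_mem hx hy
    | smul a x _ hx => rw [map_smul]; exact U.smul_mem a hx
  have hVinv : ∀ (g : H) (f : L2 (H × Option I)), f ∈ Uᗮ → tr g f ∈ Uᗮ := by
    intro g f hf
    rw [Submodule.mem_orthogonal] at hf ⊢
    intro x hx
    have h3 : x = tr g (tr g⁻¹ x) := by
      rw [← tr_mul, mul_inv_cancel, tr_one]
    rw [h3, LinearIsometryEquiv.inner_map_map]
    exact hf _ (hUinv g⁻¹ x hx)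
  have hVc : (Uᗮ).topologicalClosure = Uᗮ :=
    (Submodule.isClosed_orthogonal _).submodule_topologicalClosure_eq
  -- the restriction to the coordinates `some i`
  have hres : ∀ f : L2 (H × Option I), f ∈ Uᗮ → (∀ h, f (h, none) = 0) → f = 0 := by
    intro f hf hn
    let κ : H × I → H × Option I := fun p => (p.1, some p.2)
    have hκ : Function.Injective κ := by
      rintro ⟨h, i⟩ ⟨h', i'⟩ he
      have he1 := congrArg Prod.fst he
      have he2 := congrArg Prod.snd he
      simp only [κ, Option.some.injEq] at he1 he2
      rw [he1, he2]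
    let f₁ : L2 (H × I) := ⟨fun ω => f (κ ω), D1_mem κ hκ f⟩
    have h1 : f₁ = 0 := by
      apply hA f₁
      intro g i
      have h2 : inner ℂ (tr g (toL2 (vecF (A i)))) f₁ =
          inner ℂ (tr g (toL2 (vecF (B (some i))))) f := by
        refine D1_inner κ hκ f _ ?_ f₁ _ (fun ω => rfl) ?_
        · rintro ⟨h, j⟩ hr
          rcases j with _ | j
          · exact hn h
          · exact absurd ⟨(h, j), rfl⟩ hr
        · rintro ⟨h, j⟩
          change (tr g (toL2 (vecF (A i)))) (h, j) =
            (tr g (toL2 (vecF (B (some i))))) (h, some j)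
          rw [tr_toL2, tr_toL2]
          rfl
      rw [h2]
      exact (Submodule.mem_orthogonal _ _).1 hf _ (Submodule.subset_span ⟨g, some i, rfl⟩)
    apply L2.ext
    rintro ⟨h, j⟩
    rcases j with _ | j
    · rw [hn h]; rfl
    · have h3 : f₁ (h, j) = (0 : L2 (H × I)) (h, j) := by rw [h1]
      exact h3
  -- the dimension is zero
  have hdim : vd (Uᗮ) ≤ 0 := by
    apply le_of_forall_pos_le_add
    intro η hη
    let c0 : Option I → H →₀ ℂ := fun j => j.elim (Finsupp.single m (1 : ℂ)) fun _ => 0
    let e : Fin (Fintype.card (Option I)) ≃ Option I := (Fintype.equivFin (Option I)).symm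
    have hrel : ∀ (j : Option I) (h : H),
        (- c0 j) h + ∑ t, rc (u (e t)) (B (e t) j) h = 0 := by
      intro j h
      rw [Equiv.sum_comp e (fun i => rc (u i) (B i j) h)]
      rcases j with _ | j
      · have := e1 h
        change -((Finsupp.single m (1 : ℂ)) h) + ∑ i, rc (u i) (bord A b c d i none) h = 0
        rw [this]; ring
      · have := e0 j h
        change -((0 : H →₀ ℂ) h) + ∑ i, rc (u i) (bord A b c d i (some j)) h = 0
        rw [this]; simp
    let ε : ℝ := η / (Fintype.card (Option I) + 1)
    have hε : 0 < ε := by positivity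
    obtain ⟨N, hN, hstar⟩ := star_fam (S := S) (K := Option I)
      (n := Fintype.card (Option I)) (fun _ t => u (e t)) (fun j t => B (e t) j)
      (fun j => - c0 j) (fun _ t => hu (e t)) hrel (ENNReal.ofReal ε) (by simpa using hε)
    obtain ⟨Y⟩ := sys_exists S N hN
    obtain ⟨T, T', hT, hT', hμ, hgood⟩ := hstar Y
    have hle := D1_le (S := Option I ⊕ Unit) Y.X
      (Sum.elim (fun j => Finsupp.single ((1 : H), j) 1) (fun _ => Finsupp.single (m, none) 1))
      (Sum.elim (fun _ => T) (fun _ => T'))
      (by
        rintro (j | j)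
        · exact hT
        · exact hT') Uᗮ hVc hVinv (by
        intro z f hf hgs
        refine hres f hf fun h => ?_
        by_cases hz : (h * m⁻¹)⁻¹ • z ∈ T'
        · have h1 := hgs (h * m⁻¹) (Sum.inr ()) hz
          change inner ℂ (tr (h * m⁻¹) (toL2 (Finsupp.single (m, (none : Option I)) 1))) f = 0
            at h1
          rw [toL2_single, one_smul, tr_dl, inv_mul_cancel_right, inner_dl] at h1
          exact h1
        · have h2 : tr (h * m⁻¹) (toL2 (vecF c0)) ∈ (Submodule.span ℂ {f})ᗮ := by
            refine m2_incl (fun t => B (e t)) c0 (fun t => trunc Y ((h * m⁻¹)⁻¹ • z) (u (e t)))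
              (fun t => trunc_finite Y _ (hu (e t))) (h * m⁻¹) _ ?_ ?_
            · intro t y
              rw [Submodule.mem_orthogonal_singleton_iff_inner_left]
              exact (Submodule.mem_orthogonal _ _).1 hf _
                (Submodule.subset_span ⟨h * m⁻¹ * y, e t, rfl⟩)
            · intro j y hy
              have h4 := hgood j ((h * m⁻¹)⁻¹ • z) hz y (by
                rw [Finsupp.neg_apply]
                exact hy)
              rw [Submodule.mem_orthogonal_singleton_iff_inner_left]
              have h5 := hgs (h * m⁻¹ * y) (Sum.inl j) (by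
                change (h * m⁻¹ * y)⁻¹ • z ∈ T
                rw [mul_inv_rev, mul_smul]
                exact h4)
              change inner ℂ (tr (h * m⁻¹ * y) (toL2 (Finsupp.single ((1 : H), j) 1))) f = 0
                at h5
              rw [toL2_single, one_smul, tr_dl, mul_one] at h5
              exact h5
          rw [Submodule.mem_orthogonal_singleton_iff_inner_left] at h2
          have h6 : vecF c0 = Finsupp.single (m, (none : Option I)) 1 := by
            ext ⟨k, j⟩
            rw [vecF_apply]
            rcases j with _ | j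
            · change (Finsupp.single m (1 : ℂ)) k = _
              by_cases hk : m = k
              · subst hk; simp
              · rw [Finsupp.single_eq_of_ne (Ne.symm hk), Finsupp.single_eq_of_ne]
                intro h
                exact hk (congrArg Prod.fst h).symm
            · change (0 : H →₀ ℂ) k = _
              rw [Finsupp.single_eq_of_ne]
              · rfl
              · intro h
                have := congrArg Prod.snd h
                simp at this
          rw [h6, toL2_single, one_smul, tr_dl, inv_mul_cancel_right, inner_dl] at h2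
          exact h2)
    have hμ2 : (Y.X.μ T).toReal ≤ ε ∧ (Y.X.μ T').toReal ≤ ε := by
      constructor
      · apply ENNReal.toReal_le_of_le_ofReal hε.le
        exact le_self_add.trans hμ
      · apply ENNReal.toReal_le_of_le_ofReal hε.le
        exact le_add_self.trans hμ
    have hsum : ∑ s : Option I ⊕ Unit, (Y.X.μ (Sum.elim (fun _ => T) (fun _ => T') s)).toReal ≤
        η := by
      rw [Fintype.sum_sum_type]
      simp only [Sum.elim_inl, Sum.elim_inr, Finset.sum_const, Finset.card_univ, nsmul_eq_mul,
        Fintype.card_unit, Nat.cast_one, one_mul]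
      calc (Fintype.card (Option I) : ℝ) * (Y.X.μ T).toReal + (Y.X.μ T').toReal
          ≤ (Fintype.card (Option I) : ℝ) * ε + ε := by
            gcongr
            · exact hμ2.1
            · exact hμ2.2
        _ = (Fintype.card (Option I) + 1) * ε := by ring
        _ = η := by
            change (Fintype.card (Option I) + 1 : ℝ) * (η / (Fintype.card (Option I) + 1)) = η
            field_simp
    linarith
  intro f hf
  refine D1_zero Uᗮ hVinv hdim f ?_
  rw [Submodule.mem_orthogonal]
  intro x hx
  induction hx using Submodule.span_induction with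
  | mem x hx =>
    obtain ⟨g, i, rfl⟩ := hx
    exact hf g i
  | zero => exact inner_zero_left _
  | add x y _ _ hx hy => rw [inner_add_left, hx, hy, add_zero]
  | smul a x _ hx => rw [inner_smul_left, hx, mul_zero]

end Pool.Agent.LIR
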