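import Pool.Agent.LIR.D0

set_option autoImplicit false

open Pool.Agent.COST

namespace Pool.Agent.LIR

/-!
**[LIR-D2] A bordered matrix which is not injective.** PROOF. Let `w i = (A i ·, b i)` (`i : I`,
reindexed by `Fin (card I)`), `v = (c, d)` translated by `h0`:
`v (some j) h = c j (h0⁻¹ h)`, `v none h = d (h0⁻¹ h)` (as Finsupps: `mapDomain (h0 * ·)`). `m2'` for
`w`, `W = {v} ∪ range w` (`d i = single 1 1` for the `w i`; a function with finite support is tame)
gives `vd (span of the translates of W) ≤ card I`. If `FR (bord ..)` then the orthogonal complement of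
this span is `0` (`toL2 (vecF v) = tr h0 (toL2 (vecF (bord .. none)))`, so the translates of the last row are
the translates of `v`), so its closure is everything and `vd = card (Option I) = card I + 1`
(`norm_dl`), contradiction.
-/

theorem d2_rc_one {H : Type} [Group H] (c : H →₀ ℂ) (h : H) :
    rc (fun t => (Finsupp.single (1 : H) (1 : ℂ)) t) c h = c h := by
  classical
  unfold rc
  rw [Finsupp.sum, Finset.sum_eq_single h]
  · simp
  · intro s _ hs
    dsimp only
    rw [Finsupp.single_apply, if_neg, zero_mul]
    intro h1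
    exact hs (by rw [eq_comm, mul_inv_eq_one] at h1; exact h1.symm)
  · intro hh
    rw [Finsupp.notMem_support_iff] at hh
    rw [hh, mul_zero]

theorem d2_rc_zero {H : Type} [Group H] (c : H →₀ ℂ) (h : H) :
    rc (fun _ => (0 : ℂ)) c h = 0 := by
  unfold rc
  simp [Finsupp.sum]

theorem d2_map {H : Type} [Group H] (h0 : H) (x : H →₀ ℂ) (h : H) :
    (x.mapDomain fun t => h0 * t) h = x (h0⁻¹ * h) := by
  have h1 : h = h0 * (h0⁻¹ * h) := by rw [mul_inv_cancel_left]
  conv_lhs => rw [h1]
  exact Finsupp.mapDomain_apply (mul_right_injective h0) x (h0⁻¹ * h)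

theorem not_FR_bord {H : Type} [Group H] [Countable H] {S : JS H} {I : Type} [Fintype I]
    {A : I → I → H →₀ ℂ} {b c : I → H →₀ ℂ} {d : H →₀ ℂ} (y : I → H → ℂ)
    (hy : ∀ i, Tame S (y i)) (h0 : H)
    (e0 : ∀ (j : I) (h : H), ∑ i, rc (y i) (A i j) h = c j (h0⁻¹ * h))
    (e1 : ∀ h : H, ∑ i, rc (y i) (b i) h = d (h0⁻¹ * h)) :
    ¬ FR (bord A b c d) := by
  classical
  intro hF
  obtain ⟨e⟩ : Nonempty (I ≃ Fin (Fintype.card I)) := ⟨Fintype.equivFin I⟩
  set n := Fintype.card I with hn
  let B := bord A b c d
  let w : Fin n → Option I → H →₀ ℂ := fun i => B (some (e.symm i))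
  let v : Option I → H →₀ ℂ := fun j => (B none j).mapDomain fun t => h0 * t
  let W : Set (Option I → H →₀ ℂ) := insert v (Set.range w)
  have key := m2' (S := S) w W (by
    intro u hu
    rcases hu with hu | ⟨i0, hu⟩
    · subst hu
      refine ⟨fun i => y (e.symm i), fun i => hy _, ?_⟩
      intro j h
      change ∑ i, rc (y (e.symm i)) (B (some (e.symm i)) j) h = ((B none j).mapDomain fun t => h0 * t) h
      rw [Equiv.sum_comp e.symm (fun i => rc (y i) (B (some i) j) h), d2_map]
      rcases j with _ | j
      · exact e1 h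
      · exact e0 j h
    · refine ⟨fun i => if i = i0 then (fun t => (Finsupp.single (1 : H) (1 : ℂ)) t)
        else fun _ => 0, ?_, ?_⟩
      · intro i
        dsimp only
        split_ifs
        · apply Tame.fin
          apply ((Finsupp.single (1 : H) (1 : ℂ)).support.finite_toSet).subset
          intro t ht
          exact Finsupp.mem_support_iff.2 ht
        · apply Tame.fin
          simp
      · intro j h
        rw [Finset.sum_eq_single i0]
        · dsimp only
          rw [if_pos rfl, d2_rc_one, hu]
        · intro i _ hi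
          dsimp only
          rw [if_neg hi, d2_rc_zero]
        · intro hh
          exact absurd (Finset.mem_univ _) hh)
  set M : Submodule ℂ (L2 (H × Option I)) :=
    Submodule.span ℂ {f : L2 (H × Option I) | ∃ w ∈ W, ∃ g : H, f = tr g (toL2 (vecF w))} with hM
  have hmem : ∀ u ∈ W, ∀ g : H, tr g (toL2 (vecF u)) ∈ M := by
    intro u hu g
    exact Submodule.subset_span ⟨u, hu, g, rfl⟩
  have hv : toL2 (vecF v) = tr h0 (toL2 (vecF (B none))) := by
    apply L2.ext
    rintro ⟨k, j⟩
    rw [tr_toL2, toL2_apply]
    change ((B none j).mapDomain fun t => h0 * t) k = B none j (h0⁻¹ * k)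
    rw [d2_map]
  have hperp : Mᗮ = ⊥ := by
    rw [Submodule.eq_bot_iff]
    intro f hf
    rw [Submodule.mem_orthogonal] at hf
    apply hF f
    intro g i
    rcases i with _ | i
    · have h1 : tr g (toL2 (vecF (bord A b c d none))) = tr (g * h0⁻¹) (toL2 (vecF v)) := by
        rw [hv, ← tr_mul, inv_mul_cancel_right]
      rw [h1]
      exact hf _ (hmem v (Set.mem_insert _ _) _)
    · have h1 : bord A b c d (some i) = w (e i) := by
        change bord A b c d (some i) = bord A b c d (some (e.symm (e i)))
        rw [e.symm_apply_apply]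
      rw [h1]
      exact hf _ (hmem _ (Set.mem_insert_of_mem _ ⟨_, rfl⟩) _)
  have htop : M.topologicalClosure = ⊤ := by
    rw [Submodule.topologicalClosure_eq_top_iff]
    exact hperp
  have hvd : vd M = n + 1 := by
    unfold vd
    have h1 : ∀ j : Option I,
        ‖M.topologicalClosure.starProjection (dl ((1 : H), j))‖ ^ 2 = 1 := by
      intro j
      rw [Submodule.starProjection_eq_self_iff.2 (by rw [htop]; exact Submodule.mem_top), norm_dl,
        one_pow]
    rw [Finset.sum_congr rfl fun j _ => h1 j]
    simp [hn]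
  have h2 : ((n : ℝ) + 1) ≤ n := by
    rw [← hvd]
    exact key
  linarith

end Pool.Agent.LIR
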