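import Pool.Agent.LIR.C2
import Pool.Agent.LIR.D1
import Pool.Agent.LIR.D2

set_option autoImplicit false

open Pool.Agent.COST

namespace Pool.Agent.LIR

/-!
Coherence and inverses of rational operators.
-/

/-- a finite operator as an element of the ring -/
noncomputable def nfin {H : Type} [Group H] (S : JS H) (x : H →₀ ℂ) : NN S :=
  ⟨finOp x, NiceP.fin x⟩

theorem nfin_op {H : Type} [Group H] {S : JS H} (x : H →₀ ℂ) : (nfin S x).op = finOp x := rfl

theorem mulOp_fin_row {H : Type} [Group H] (X : Op H) (c : H →₀ ℂ) (m : H) :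
    mulOp X (finOp c) m = rc (X m) c := rowMul_fin (X m) c

theorem rc_neg_left {H : Type} [Group H] (u : H → ℂ) (c : H →₀ ℂ) (h : H) :
    rc (-u) c h = - rc u c h := by
  unfold rc
  rw [Finsupp.sum, Finsupp.sum, ← Finset.sum_neg_distrib]
  apply Finset.sum_congr rfl
  intro s _
  rw [Pi.neg_apply, neg_mul]

/-- rows of the bordered matrix -/
theorem bord_rows {H : Type} [Group H] {S : JS H} {I : Type} [Fintype I]
    {A : I → I → H →₀ ℂ} {b c : I → H →₀ ℂ} {U : I → Op H} (hU : ∀ i, Nice S (U i))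
    (hA : ∀ j, ∑ i, mulOp (U i) (finOp (A i j)) = finOp (c j)) {X : Op H}
    (hb : ∑ i, mulOp (U i) (finOp (b i)) = X) {Z : Op H} (hZ : Nice S Z) (m h : H) :
    (∀ j, ∑ i, rc (mulOp Z (U i) m) (A i j) h - rc (Z m) (c j) h = 0) ∧
      ∑ i, rc (mulOp Z (U i) m) (b i) h = mulOp Z X m h := by
  let z : NN S := ⟨Z, hZ⟩
  let u : I → NN S := fun i => ⟨U i, hU i⟩
  have key : ∀ (d : I → H →₀ ℂ) (V : NN S), ∑ i, mulOp (U i) (finOp (d i)) = V.op →
      ∑ i, rc (mulOp Z (U i) m) (d i) h = (z * V).op m h := by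
    intro d V hd
    have h1 : ∑ i, u i * nfin S (d i) = V := by
      apply NN.ext
      rw [NN.sum_op, ← hd]
      rfl
    have h2 : ∑ i, (z * u i) * nfin S (d i) = z * V := by
      rw [← h1, Finset.mul_sum]
      exact Finset.sum_congr rfl fun i _ => mul_assoc _ _ _
    rw [← h2, NN.sum_op, Finset.sum_apply, Finset.sum_apply]
    apply Finset.sum_congr rfl
    intro i _
    rw [NN.mul_op, NN.mul_op, nfin_op, mulOp_fin_row]
  constructor
  · intro j
    rw [key (fun i => A i j) (nfin S (c j)) (hA j), NN.mul_op, nfin_op, mulOp_fin_row, sub_self]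
  · have hX : Nice S X := by
      rw [← hb]
      exact NiceP.sum (Closed.true S) _ fun i _ => NiceP.mul (Closed.true S) (hU i) (NiceP.fin _)
    exact key b ⟨X, hX⟩ hb

/-- rows of the inverse of the bordered matrix -/
noncomputable def brow {H I : Type} (U : I → Op H) (Z : Op H) : Option I → Op H
  | some i => mulOp Z (U i)
  | none => -Z

theorem brow_nice {H : Type} [Group H] {S : JS H} {I : Type} {U : I → Op H}
    (hU : ∀ i, Nice S (U i)) {Z : Op H} (hZ : Nice S Z) (i : Option I) : Nice S (brow U Z i) := by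
  cases i with
  | some i => exact NiceP.mul (Closed.true S) hZ (hU i)
  | none => exact NiceP.neg (Closed.true S) hZ

theorem rat_fr {H : Type} [Group H] [Countable H] {S : JS H} {I : Type} [Fintype I]
    {A : I → I → H →₀ ℂ} {b c : I → H →₀ ℂ} {U : I → Op H} (hFR : FR A)
    (hU : ∀ i, Nice S (U i))
    (hA : ∀ j, ∑ i, mulOp (U i) (finOp (A i j)) = finOp (c j)) {X : Op H}
    (hb : ∑ i, mulOp (U i) (finOp (b i)) = X) {Z : Op H} (hZ : Nice S Z) (m : H)
    (hm : mulOp Z X m = oneOp m) : FR (bord A b c 0) := by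
  refine FR_bord (S := S) hFR (fun i => brow U Z i m) (fun i => Nice.tame (brow_nice hU hZ i) m) m ?_ ?_
  · intro j h
    rw [Fintype.sum_option]
    change rc (-(Z m)) (c j) h + ∑ i, rc (mulOp Z (U i) m) (A i j) h = 0
    have h1 := (bord_rows hU hA hb hZ m h).1 j
    rw [rc_neg_left, neg_add_eq_sub]
    exact h1
  · intro h
    rw [Fintype.sum_option]
    change rc (-(Z m)) 0 h + ∑ i, rc (mulOp Z (U i) m) (b i) h = _
    rw [(bord_rows hU hA hb hZ m h).2, hm]
    have h1 : rc (-(Z m)) (0 : H →₀ ℂ) h = 0 := by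
      unfold rc
      exact Finsupp.sum_zero_index
    rw [h1, zero_add]
    change (Finsupp.single (1 : H) (1 : ℂ)) (m⁻¹ * h) = _
    classical
    rw [Finsupp.single_apply, Finsupp.single_apply]
    by_cases hmh : m = h
    · rw [if_pos hmh, if_pos (by rw [hmh, inv_mul_cancel])]
    · rw [if_neg hmh, if_neg]
      intro h2
      exact hmh (inv_mul_eq_one.mp h2.symm)

/-- if one row of `X` has a left inverse row then all rows are nonzero -/
theorem rat_coh {H : Type} [Group H] [Countable H] {S : JS H} {X Z : Op H} (hX : Rat S X)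
    (hZ : Nice S Z) (m : H) (hm : mulOp Z X m = oneOp m) (h : H) : X h ≠ 0 := by
  obtain ⟨I, _, A, b, c, U, hFR, hU, hA, hb⟩ := hX
  intro hXh
  have h1 := rat_fr hFR hU hA hb hZ m hm
  refine not_FR_bord (S := S) (fun i => U i h) (fun i => Nice.tame (hU i) h) h ?_ ?_ h1
  · intro j k
    have h2 := congrFun (congrFun (hA j) h) k
    rw [Finset.sum_apply, Finset.sum_apply] at h2
    change _ = finOp (c j) h k
    rw [← h2]
    apply Finset.sum_congr rfl
    intro i _
    rw [mulOp_fin_row]
  · intro k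
    have h2 := congrFun (congrFun hb h) k
    rw [Finset.sum_apply, Finset.sum_apply, hXh] at h2
    change _ = (0 : ℂ)
    rw [← show (0 : H → ℂ) k = 0 from rfl, ← h2]
    apply Finset.sum_congr rfl
    intro i _
    rw [mulOp_fin_row]

theorem rat_inv {H : Type} [Group H] [Countable H] {S : JS H} {X Z : Op H} (hX : Rat S X)
    (hZ : Nice S Z) (hZX : mulOp Z X = oneOp) : Rat S Z := by
  obtain ⟨I, hI, A, b, c, U, hFR, hU, hA, hb⟩ := hX
  have hZ' : ∀ m, mulOp Z X m = oneOp m := fun m => by rw [hZX]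
  refine ⟨Option I, inferInstance, bord A b c 0,
    fun i => Option.elim i (Finsupp.single 1 (-1)) (fun _ => 0),
    fun j => Option.elim j (Finsupp.single 1 1) (fun _ => 0), brow U Z,
    rat_fr hFR hU hA hb hZ 1 (hZ' 1), brow_nice hU hZ, ?_, ?_⟩
  · intro j
    funext m h
    rw [Fintype.sum_option, Pi.add_apply, Pi.add_apply, Finset.sum_apply, Finset.sum_apply]
    cases j with
    | some j =>
      change mulOp (-Z) (finOp (c j)) m h + ∑ i, mulOp (mulOp Z (U i)) (finOp (A i j)) m h =
        finOp 0 m h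
      have h1 := (bord_rows hU hA hb hZ m h).1 j
      have h2 : ∑ i, mulOp (mulOp Z (U i)) (finOp (A i j)) m h =
          ∑ i, rc (mulOp Z (U i) m) (A i j) h :=
        Finset.sum_congr rfl fun i _ => by rw [mulOp_fin_row]
      rw [h2, mulOp_fin_row]
      change rc (-(Z m)) (c j) h + _ = 0
      rw [rc_neg_left, neg_add_eq_sub]
      exact h1
    | none =>
      change mulOp (-Z) (finOp 0) m h + ∑ i, mulOp (mulOp Z (U i)) (finOp (b i)) m h =
        oneOp m h
      have h2 : ∑ i, mulOp (mulOp Z (U i)) (finOp (b i)) m h =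
          ∑ i, rc (mulOp Z (U i) m) (b i) h :=
        Finset.sum_congr rfl fun i _ => by rw [mulOp_fin_row]
      rw [h2, (bord_rows hU hA hb hZ m h).2, hZX, finOp_zero, mulOp_zero]
      change (0 : ℂ) + _ = _
      rw [zero_add]
  · funext m h
    rw [Fintype.sum_option, Pi.add_apply, Pi.add_apply, Finset.sum_apply, Finset.sum_apply]
    change mulOp (-Z) (finOp (Finsupp.single 1 (-1))) m h +
      ∑ i, mulOp (mulOp Z (U i)) (finOp 0) m h = Z m h
    have h2 : ∑ i, mulOp (mulOp Z (U i)) (finOp 0) m h = 0 := by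
      refine Finset.sum_eq_zero fun i _ => ?_
      rw [finOp_zero, mulOp_zero]
      rfl
    rw [h2, add_zero, mulOp_fin_row]
    unfold rc
    rw [Finsupp.sum_single_index (by rw [mul_zero]), inv_one, mul_one]
    change -(Z m h) * (-1) = Z m h
    ring

end Pool.Agent.LIR
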