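import Pool.Agent.LIR.Defs

set_option autoImplicit false

open Pool.Agent.COST
open scoped ENNReal InnerProductSpace
open MeasureTheory

namespace Pool.Agent.LIR

/-!
**[LIR-D0] Dimension bound for the span.** PROOF. The same proof as `Pool.Agent.COST.m2` (which uses only
`D.w` and `D.span` of the `LinData`).
-/

theorem m2' {H : Type} [Group H] [Countable H] {S : JS H} {I : Type} [Fintype I] {r : ℕ}
    (w : Fin r → I → H →₀ ℂ) (W : Set (I → H →₀ ℂ))
    (hspan : ∀ v ∈ W, ∃ d : Fin r → H → ℂ, (∀ i, Tame S (d i)) ∧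
      ∀ j h, ∑ i, rc (d i) (w i j) h = v j h) :
    vd (Submodule.span ℂ {f : L2 (H × I) | ∃ w ∈ W, ∃ g : H, f = tr g (toL2 (vecF w))}) ≤ r := by
  classical
  apply le_of_forall_pos_le_add
  intro η hη
  obtain ⟨v, hv, happ⟩ := vd_approx
    (Submodule.span ℂ {f : L2 (H × I) | ∃ w ∈ W, ∃ g : H, f = tr g (toL2 (vecF w))}) (η / 2)
    (by positivity)
  -- a finite part
  have h1 : ∀ i, ∃ T : Finset (L2 (H × I)),
      (T : Set (L2 (H × I))) ⊆ {f : L2 (H × I) | ∃ w ∈ W, ∃ g : H, f = tr g (toL2 (vecF w))} ∧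
      v i ∈ Submodule.span ℂ (T : Set (L2 (H × I))) := by
    intro i
    exact Submodule.mem_span_finite_of_mem_span (hv i)
  choose U0 hU0 hU1 using h1
  let U : Finset (L2 (H × I)) := Finset.univ.biUnion U0
  have hU : ∀ t : U, ∃ w ∈ W, ∃ g : H, (t : L2 (H × I)) = tr g (toL2 (vecF w)) := by
    rintro ⟨t, ht⟩
    obtain ⟨i, _, hi⟩ := Finset.mem_biUnion.mp ht
    exact hU0 i hi
  choose wK hwK gK hgK using hU
  let V' : Submodule ℂ (L2 (H × I)) :=
    Submodule.span ℂ {f : L2 (H × I) | ∃ t : U, ∃ g : H, f = tr g (toL2 (vecF (wK t)))}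
  have hvV' : ∀ i, v i ∈ V' := by
    intro i
    refine Submodule.span_mono ?_ (hU1 i)
    intro t ht
    have h2 : t ∈ U := Finset.mem_biUnion.mpr ⟨i, Finset.mem_univ _, ht⟩
    exact ⟨⟨t, h2⟩, gK ⟨t, h2⟩, hgK ⟨t, h2⟩⟩
  have hV' := happ V' hvV'
  -- coefficients
  have h3 : ∀ t : U, ∃ d : Fin r → H → ℂ, (∀ i, Tame S (d i)) ∧
      ∀ j h, ∑ i, rc (d i) (w i j) h = wK t j h := fun t => hspan (wK t) (hwK t)
  choose dK hdK hdK2 using h3
  let ε : ℝ := η / 2 / (Fintype.card U + Fintype.card I + 1)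
  have hε : 0 < ε := by positivity
  obtain ⟨N, hN, hstar⟩ := star_fam (S := S) (K := U × I) (n := r)
    (fun k i => dK k.1 i) (fun k i => w i k.2) (fun k => - wK k.1 k.2)
    (fun k i => hdK k.1 i) (by
      rintro ⟨t, j⟩ h
      change - wK t j h + ∑ i, rc (dK t i) (w i j) h = 0
      rw [hdK2 t j h]
      ring) (ENNReal.ofReal ε) (by simpa using hε)
  obtain ⟨A⟩ := sys_exists S N hN
  obtain ⟨T, T', hT, hT', hμ, hgood⟩ := hstar A
  have hgen := gen (S := Fin r ⊕ U ⊕ I) A.X
    (Sum.elim (fun i => vecF (w i)) (Sum.elim (fun t => vecF (wK t))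
      (fun j => Finsupp.single ((1 : H), j) 1)))
    (Sum.elim (fun _ => Set.univ) (Sum.elim (fun _ => T') (fun _ => T))) (by
      rintro (i | t | j)
      · exact MeasurableSet.univ
      · exact hT'
      · exact hT) V' (by
      intro z x hx
      apply subset_closure
      refine (?_ : V' ≤ _) hx
      rw [Submodule.span_le]
      rintro _ ⟨t, g, rfl⟩
      by_cases hz : g⁻¹ • z ∈ T'
      · exact Submodule.subset_span ⟨g, Sum.inr (Sum.inl t), hz, rfl⟩
      · refine m2_incl w (wK t) (fun i => trunc A (g⁻¹ • z) (dK t i))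
          (fun i => trunc_finite A _ (hdK t i)) g _ ?_ ?_
        · intro i u
          exact Submodule.subset_span ⟨g * u, Sum.inl i, trivial, rfl⟩
        · intro j y hy
          have h4 := hgood (t, j) (g⁻¹ • z) hz y hy
          refine Submodule.subset_span ⟨g * y, Sum.inr (Sum.inr j), ?_, ?_⟩
          · change (g * y)⁻¹ • z ∈ T
            rw [mul_inv_rev, mul_smul]
            exact h4
          · change dl (g * y, j) = tr (g * y) (toL2 (Finsupp.single ((1 : H), j) 1))
            rw [toL2_single, one_smul, tr_dl, mul_one])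
  have hμ2 : (A.X.μ T).toReal ≤ ε ∧ (A.X.μ T').toReal ≤ ε := by
    constructor
    · apply ENNReal.toReal_le_of_le_ofReal hε.le
      exact le_self_add.trans hμ
    · apply ENNReal.toReal_le_of_le_ofReal hε.le
      exact le_add_self.trans hμ
  have hsum : ∑ s : Fin r ⊕ U ⊕ I, (A.X.μ (Sum.elim (fun _ => Set.univ)
      (Sum.elim (fun _ => T') (fun _ => T)) s)).toReal ≤ r + η / 2 := by
    rw [Fintype.sum_sum_type, Fintype.sum_sum_type]
    simp only [Sum.elim_inl, Sum.elim_inr, measure_univ, ENNReal.toReal_one, Finset.sum_const,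
      Finset.card_univ, Fintype.card_fin, nsmul_eq_mul, mul_one]
    have h5 : (Fintype.card U : ℝ) * (A.X.μ T').toReal + (Fintype.card I : ℝ) * (A.X.μ T).toReal ≤
        η / 2 := by
      calc (Fintype.card U : ℝ) * (A.X.μ T').toReal + (Fintype.card I : ℝ) * (A.X.μ T).toReal
          ≤ (Fintype.card U : ℝ) * ε + (Fintype.card I : ℝ) * ε := by
            gcongr
            · exact hμ2.2
            · exact hμ2.1
        _ = (Fintype.card U + Fintype.card I) * ε := by ring
        _ ≤ (Fintype.card U + Fintype.card I + 1) * ε := by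
            apply mul_le_mul_of_nonneg_right _ hε.le
            linarith
        _ = η / 2 := by
            change (Fintype.card U + Fintype.card I + 1 : ℝ) *
              (η / 2 / (Fintype.card U + Fintype.card I + 1)) = η / 2
            field_simp
    linarith
  linarith

end Pool.Agent.LIR
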