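import Pool.Agent.COST.L1
import Pool.Agent.COSTP.P3

/-!
Project LIR: operators with tame rows on a group with a jump system. Definitions shared by all
files.
-/

set_option autoImplicit false

open Pool.Agent.COST

namespace Pool.Agent.LIR

/-- An operator: `X h` is the row at `h`. It acts on row vectors from the right. -/
abbrev Op (H : Type) : Type := H → H → ℂ

/-- right multiplication by the element `x` of the group algebra -/
def finOp {H : Type} [Group H] (x : H →₀ ℂ) : Op H := fun h k => x (h⁻¹ * k)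

/-- the identity -/
noncomputable def oneOp {H : Type} [Group H] : Op H := finOp (Finsupp.single 1 1)

/-- row vector times operator -/
noncomputable def rowMul {H : Type} (u : H → ℂ) (X : Op H) : H → ℂ := fun k => ∑ᶠ m, u m * X m k

/-- product of operators -/
noncomputable def mulOp {H : Type} (X Y : Op H) : Op H := fun h => rowMul (X h) Y

/-- the sums which define the product are finite -/
def FF {H : Type} (X Y : Op H) : Prop := ∀ h k, {m | X h m ≠ 0 ∧ Y m k ≠ 0}.Finite

/-- `X` respects the block `{v (h h0⁻¹) ≤ a}` of rows and the block `{v (k g0⁻¹) ≤ a}` of columns,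
and it is homogeneous of degree `r` there. -/
def Hom {H : Type} [Group H] (S : JS H) (a : S.Λ) (h0 g0 : H) (r : ℝ) (X : Op H) : Prop :=
  ∀ h k, X h k ≠ 0 → (S.v (h * h0⁻¹) ≤ a ↔ S.v (k * g0⁻¹) ≤ a) ∧
    (S.v (h * h0⁻¹) ≤ a → S.ψ a (k * g0⁻¹) = S.ψ a (h * h0⁻¹) + r)

/-- `Y r` (`r : ℝ`) is the expansion of `X` on the rows in the block of `h0`, with columns in the
block of `g0` -/
structure Ex {H : Type} [Group H] (S : JS H) (a : S.Λ) (h0 g0 : H) (X : Op H) (Y : ℝ → Op H) :
    Prop where
  supp : ∀ h k, S.v (h * h0⁻¹) ≤ a → X h k ≠ 0 → S.v (k * g0⁻¹) ≤ a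
  hom : ∀ r, Hom S a h0 g0 r (Y r)
  eq : ∀ h k, S.v (h * h0⁻¹) ≤ a → S.v (k * g0⁻¹) ≤ a →
    X h k = Y (S.ψ a (k * g0⁻¹) - S.ψ a (h * h0⁻¹)) h k
  fin : ∀ R : ℝ, {r | r ≤ R ∧ Y r ≠ 0}.Finite

open Classical in
/-- the expansion of an operator which is homogeneous of degree `0` -/
noncomputable def triv {H : Type} (X : Op H) : ℝ → Op H := fun r => if r = 0 then X else 0

theorem triv_zero {H : Type} (X : Op H) : triv X 0 = X := by
  simp [triv]

theorem triv_ne {H : Type} (X : Op H) {r : ℝ} (hr : r ≠ 0) : triv X r = 0 := by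
  simp [triv, hr]

open Classical in
/-- the part of `x` at level `r`, seen from `h0` -/
noncomputable def lev {H : Type} [Group H] (S : JS H) (x : H →₀ ℂ) (a : S.Λ) (h0 g : H) (r : ℝ) :
    H →₀ ℂ :=
  x.filter fun s => S.ψ a (h0 * s * g⁻¹ * h0⁻¹) = r

/-- `α` is constant on its own blocks -/
def Cons {H : Type} [Group H] (S : JS H) (α : H → WithBot S.Λ) : Prop :=
  ∀ h h0, S.v (h * h0⁻¹) ≤ α h → α h0 = α h

/-- `X` has an expansion `Y h0` at every `h0`, of jump `a h0`, around the column `h0 * g`. -/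
structure Node {H : Type} [Group H] (S : JS H) (X : Op H) (g : H) (a : H → S.Λ)
    (Y : H → ℝ → Op H) : Prop where
  cons : Cons S (fun h => (a h : WithBot S.Λ))
  supp : ∀ h k, X h k ≠ 0 → S.v (k * (h * g)⁻¹) ≤ a h
  ex : ∀ h0, Ex S (a h0) h0 (h0 * g) X (Y h0)

/-- The operators which are built from the finite ones by iterated expansions. All intermediate
operators satisfy `Q`. -/
inductive NiceP {H : Type} [Group H] (S : JS H) (Q : Op H → Prop) : Op H → Prop
  | fin (x : H →₀ ℂ) : NiceP S Q (finOp x)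
  | node (X : Op H) (g : H) (a : H → S.Λ) (Y : H → ℝ → Op H) (hN : Node S X g a Y)
      (hY : ∀ h0 r, NiceP S Q (Y h0 r)) (hX : Q X) : NiceP S Q X

/-- nice operators -/
def Nice {H : Type} [Group H] (S : JS H) (X : Op H) : Prop := NiceP S (fun _ => True) X

/-- closure properties of a predicate -/
structure Closed {H : Type} [Group H] (S : JS H) (Q : Op H → Prop) : Prop where
  fin : ∀ x, Q (finOp x)
  add : ∀ X Y, Nice S X → Nice S Y → Q X → Q Y → Q (X + Y)
  mul : ∀ X Y, Nice S X → Nice S Y → Q X → Q Y → Q (mulOp X Y)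

/-- the matrix `A` over the group algebra is injective on square summable column vectors -/
def FR {H I : Type} [Group H] [Fintype I] (A : I → I → H →₀ ℂ) : Prop :=
  ∀ f : L2 (H × I), (∀ (g : H) (i : I), inner ℂ (tr g (toL2 (vecF (A i)))) f = 0) → f = 0

/-- rational operators: `X = c A⁻¹ b` for a matrix `A` with `FR A` over the group algebra -/
def Rat {H : Type} [Group H] (S : JS H) (X : Op H) : Prop :=
  ∃ (I : Type) (_ : Fintype I) (A : I → I → H →₀ ℂ) (b c : I → H →₀ ℂ) (U : I → Op H),
    FR A ∧ (∀ i, Nice S (U i)) ∧ (∀ j, ∑ i, mulOp (U i) (finOp (A i j)) = finOp (c j)) ∧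
      ∑ i, mulOp (U i) (finOp (b i)) = X

/-- rational nice operators all of whose iterated pieces are rational -/
def NQ {H : Type} [Group H] (S : JS H) (X : Op H) : Prop := NiceP S (Rat S) X

/-- bordered matrix -/
def bord {H I : Type} (A : I → I → H →₀ ℂ) (b c : I → H →₀ ℂ) (d : H →₀ ℂ) :
    Option I → Option I → H →₀ ℂ
  | some i, some j => A i j
  | some i, none => b i
  | none, some j => c j
  | none, none => d

/-- product in the group algebra -/
noncomputable def mulF {H : Type} [Group H] (x y : H →₀ ℂ) : H →₀ ℂ :=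
  x.sum fun s c => (y.mapDomain fun t => s * t).mapRange (fun z => c * z) (mul_zero c)

end Pool.Agent.LIR
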