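import Pool.Agent.LIR.Defs

set_option autoImplicit false

open Pool.Agent.COST

namespace Pool.Agent.LIR

/-!
**[LIR-E1] Series in a ring.** PROOF. `level_ind`: if all `N s = 0` then `hs` gives `C r`. Otherwise
let `δ > 0` be such that `N s ≠ 0` implies `δ ≤ s` (minimum of the finite set
`{s | s ≤ s1 ∧ N s ≠ 0}` of positive numbers, for some `s1` with `N s1 ≠ 0`); prove by induction on `n : ℕ`
that `C r` for all `r < n * δ`. `series`: define `Vn : ℕ → ℝ → R` by `Vn 0 r = 0`,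
`Vn (n + 1) r = (if r = 0 then 1 else 0) - ∑ᶠ s, Vn n (r - s) * N s`. By induction `Vn n r = 0` for `r < 0`,
and `Vn (n + 1) r = Vn n r` for `r < n * δ`; so `V r = Vn n r` for all `n` with `r < n * δ`; take
`V r = Vn (⌊r / δ⌋₊ + 1) r`. The set `{r ≤ B | Vn n r ≠ 0}` is finite by induction on `n`: it is contained
in `{0}` and the finitely many translates by the `s` with `N s ≠ 0`, `0 < s ≤ B` of
`{r ≤ B | Vn (n - 1) r ≠ 0}`. `V 0 = 1`: `V (0 - s) * N s = 0` for all `s`. (If `N = 0` take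
`V r = if r = 0 then 1 else 0`.)
-/

/-- the nonzero levels are bounded below by a positive number -/
theorem lower_level {R : Type} [Zero R] (N : ℝ → R) (h0 : ∀ s, s ≤ 0 → N s = 0)
    (hf : ∀ B : ℝ, {s | s ≤ B ∧ N s ≠ 0}.Finite) : ∃ δ : ℝ, 0 < δ ∧ ∀ s, N s ≠ 0 → δ ≤ s := by
  by_cases h : ∃ s1, N s1 ≠ 0
  · obtain ⟨s1, hs1⟩ := h
    have hne : (hf s1).toFinset.Nonempty := ⟨s1, by simp [hs1]⟩
    refine ⟨(hf s1).toFinset.min' hne, ?_, ?_⟩
    · have h1 := (hf s1).toFinset.min'_mem hne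
      rw [Set.Finite.mem_toFinset] at h1
      by_contra hcon
      exact h1.2 (h0 _ (not_lt.1 hcon))
    · intro s hs
      by_cases h2 : s ≤ s1
      · exact Finset.min'_le _ _ (by rw [Set.Finite.mem_toFinset]; exact ⟨h2, hs⟩)
      · have h3 : (hf s1).toFinset.min' hne ≤ s1 :=
          Finset.min'_le _ _ (by rw [Set.Finite.mem_toFinset]; exact ⟨le_refl _, hs1⟩)
        linarith [not_le.1 h2]
  · push Not at h
    exact ⟨1, one_pos, fun s hs => absurd (h s) hs⟩

theorem level_ind {R : Type} [Zero R] (N : ℝ → R) (h0 : ∀ s, s ≤ 0 → N s = 0)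
    (hf : ∀ B : ℝ, {s | s ≤ B ∧ N s ≠ 0}.Finite) (C : ℝ → Prop) (hneg : ∀ r, r < 0 → C r)
    (hs : ∀ r, (∀ s, N s ≠ 0 → C (r - s)) → C r) : ∀ r, C r := by
  obtain ⟨δ, hδ, hl⟩ := lower_level N h0 hf
  have key : ∀ n : ℕ, ∀ r : ℝ, r < n * δ → C r := by
    intro n
    induction n with
    | zero =>
      intro r hr
      exact hneg r (by simpa using hr)
    | succ n ih =>
      intro r hr
      refine hs r fun s hs' => ih _ ?_
      have := hl s hs'
      push_cast at hr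
      linarith
  intro r
  obtain ⟨n, hn⟩ := exists_nat_gt (r / δ)
  refine key n r ?_
  rwa [div_lt_iff₀ hδ] at hn

open Classical in
/-- The successive approximations. -/
noncomputable def Vn {R : Type} [Ring R] (N : ℝ → R) : ℕ → ℝ → R
  | 0, _ => 0
  | n + 1, r => (if r = 0 then 1 else 0) - ∑ᶠ s : ℝ, Vn N n (r - s) * N s

open Classical in
theorem Vn_succ {R : Type} [Ring R] (N : ℝ → R) (n : ℕ) (r : ℝ) :
    Vn N (n + 1) r = (if r = 0 then 1 else 0) - ∑ᶠ s : ℝ, Vn N n (r - s) * N s := rfl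

theorem Vn_neg {R : Type} [Ring R] (N : ℝ → R) (h0 : ∀ s, s ≤ 0 → N s = 0) (n : ℕ) :
    ∀ r : ℝ, r < 0 → Vn N n r = 0 := by
  induction n with
  | zero => intro r _; rfl
  | succ n ih =>
    intro r hr
    rw [Vn_succ, if_neg hr.ne, zero_sub, neg_eq_zero]
    rw [← finsum_zero (α := ℝ)]
    refine finsum_congr fun s => ?_
    by_cases hs : s ≤ 0
    · rw [h0 s hs, mul_zero]
    · rw [ih (r - s) (by linarith [not_le.1 hs]), zero_mul]

theorem Vn_stable {R : Type} [Ring R] (N : ℝ → R) {δ : ℝ}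
    (hl : ∀ s, N s ≠ 0 → δ ≤ s) (h0 : ∀ s, s ≤ 0 → N s = 0) (n : ℕ) :
    ∀ r : ℝ, r < n * δ → Vn N (n + 1) r = Vn N n r := by
  induction n with
  | zero =>
    intro r hr
    have hr0 : r < 0 := by simpa using hr
    rw [Vn_neg N h0 _ r hr0, Vn_neg N h0 _ r hr0]
  | succ n ih =>
    intro r hr
    rw [Vn_succ N (n + 1), Vn_succ N n]
    congr 1
    refine finsum_congr fun s => ?_
    by_cases hs : N s = 0
    · rw [hs, mul_zero, mul_zero]
    · rw [ih (r - s) ?_]
      have := hl s hs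
      push_cast at hr
      linarith

theorem Vn_stable' {R : Type} [Ring R] (N : ℝ → R) {δ : ℝ} (hδ : 0 < δ)
    (hl : ∀ s, N s ≠ 0 → δ ≤ s) (h0 : ∀ s, s ≤ 0 → N s = 0) (n m : ℕ) (hnm : n ≤ m) :
    ∀ r : ℝ, r < n * δ → Vn N m r = Vn N n r := by
  induction m, hnm using Nat.le_induction with
  | base => intro r _; rfl
  | succ m hm ih =>
    intro r hr
    rw [Vn_stable N hl h0 m r ?_, ih r hr]
    have : (n:ℝ) ≤ m := by exact_mod_cast hm
    nlinarith

theorem Vn_finite {R : Type} [Ring R] (N : ℝ → R) (h0 : ∀ s, s ≤ 0 → N s = 0)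
    (hf : ∀ B : ℝ, {s | s ≤ B ∧ N s ≠ 0}.Finite) (n : ℕ) :
    ∀ B : ℝ, {r | r ≤ B ∧ Vn N n r ≠ 0}.Finite := by
  induction n with
  | zero =>
    intro B
    refine Set.Finite.subset Set.finite_empty ?_
    rintro r ⟨_, h⟩
    exact absurd rfl h
  | succ n ih =>
    intro B
    refine Set.Finite.subset (((hf B).image2 (fun s u => u + s) (ih B)).union
      (Set.finite_singleton (0:ℝ))) ?_
    rintro r ⟨hr, h⟩
    by_cases hr0 : r = 0
    · exact Or.inr hr0
    · left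
      rw [Vn_succ, if_neg hr0, zero_sub, neg_ne_zero] at h
      obtain ⟨s, hs⟩ : ∃ s, Vn N n (r - s) * N s ≠ 0 := by
        by_contra hcon
        push Not at hcon
        apply h
        rw [← finsum_zero (α := ℝ)]
        exact finsum_congr hcon
      have hN : N s ≠ 0 := right_ne_zero_of_mul hs
      have hV : Vn N n (r - s) ≠ 0 := left_ne_zero_of_mul hs
      have hs0 : 0 < s := by
        by_contra hcon
        exact hN (h0 s (not_lt.1 hcon))
      have hrs : 0 ≤ r - s := by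
        by_contra hcon
        exact hV (Vn_neg N h0 n _ (not_le.1 hcon))
      exact ⟨s, ⟨by linarith, hN⟩, r - s, ⟨by linarith, hV⟩, by ring⟩

open Classical in
theorem series {R : Type} [Ring R] (N : ℝ → R) (h0 : ∀ s, s ≤ 0 → N s = 0)
    (hf : ∀ B : ℝ, {s | s ≤ B ∧ N s ≠ 0}.Finite) :
    ∃ V : ℝ → R, (∀ r, r < 0 → V r = 0) ∧ V 0 = 1 ∧
      (∀ B : ℝ, {r | r ≤ B ∧ V r ≠ 0}.Finite) ∧
      ∀ r, V r = (if r = 0 then 1 else 0) - ∑ᶠ s : ℝ, V (r - s) * N s := by
  obtain ⟨δ, hδ, hl⟩ := lower_level N h0 hf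
  set V : ℝ → R := fun r => Vn N (⌊r / δ⌋₊ + 1) r with hV
  have hlt : ∀ r : ℝ, r < ((⌊r / δ⌋₊ + 1 : ℕ) : ℝ) * δ := by
    intro r
    have h1 := Nat.lt_floor_add_one (r / δ)
    rw [div_lt_iff₀ hδ] at h1
    push_cast
    exact h1
  have hVn : ∀ (n : ℕ) (r : ℝ), r < n * δ → V r = Vn N n r := by
    intro n r hr
    rcases le_total (⌊r / δ⌋₊ + 1) n with h | h
    · exact (Vn_stable' N hδ hl h0 _ _ h r (hlt r)).symm
    · exact Vn_stable' N hδ hl h0 _ _ h r hr
  have heq : ∀ r, V r = (if r = 0 then 1 else 0) - ∑ᶠ s : ℝ, V (r - s) * N s := by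
    intro r
    obtain ⟨n, hn⟩ := exists_nat_gt (r / δ)
    rw [div_lt_iff₀ hδ] at hn
    have hn1 : r < ((n + 1 : ℕ) : ℝ) * δ := by
      push_cast
      linarith
    rw [hVn (n + 1) r hn1, Vn_succ]
    congr 1
    refine finsum_congr fun s => ?_
    by_cases hs : N s = 0
    · rw [hs, mul_zero, mul_zero]
    · rw [hVn n (r - s) ?_]
      have := hl s hs
      linarith
  refine ⟨V, fun r hr => Vn_neg N h0 _ r hr, ?_, ?_, heq⟩
  · rw [heq 0, if_pos rfl]
    have : ∑ᶠ s : ℝ, V (0 - s) * N s = 0 := by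
      refine (finsum_congr (g := fun _ => (0 : R)) fun s => ?_).trans finsum_zero
      by_cases hs : s ≤ 0
      · rw [h0 s hs, mul_zero]
      · have : V (0 - s) = 0 := Vn_neg N h0 _ _ (by linarith [not_le.1 hs])
        rw [this, zero_mul]
    rw [this, sub_zero]
  · intro B
    obtain ⟨n, hn⟩ := exists_nat_gt (B / δ)
    rw [div_lt_iff₀ hδ] at hn
    refine (Vn_finite N h0 hf n B).subset ?_
    rintro r ⟨hr, h⟩
    refine ⟨hr, ?_⟩
    rwa [← hVn n r (by linarith)]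

end Pool.Agent.LIR
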