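import Pool.Agent.LIR.B3
import Pool.Agent.LIR.B14

set_option autoImplicit false

open Pool.Agent.COST

namespace Pool.Agent.LIR

/-!
**[LIR-E2] Inverses of homogeneous operators are homogeneous.** PROOF. `resp_inv`: fix `m`. Let
`u1 h = if ρ h then Q m h else 0`, `u2 = Q m - u1`. Then `rowMul u1 P + rowMul u2 P = (Q P) m = oneOp m`
(finite sums: `Nice.ff`), `rowMul u1 P k = 0` unless `σ k`, `rowMul u2 P k = 0` if `σ k`. If `σ m`: `oneOp m k = 0`
for `k` with `¬ σ k`, so `rowMul u2 P = 0`, hence by `assoc_row` (`U = Q`)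
`u2 = rowMul u2 (P Q) = rowMul (rowMul u2 P) Q = 0`. If `¬ σ m`: in the same way `u1 = 0`. `Hom.inv`: apply
`resp_inv` to the blocks, and for every real `t` to `ρ h`: `v (h h0⁻¹) ≤ a ∧ ψ a (h h0⁻¹) = t` and
`σ k`: `v (k g0⁻¹) ≤ a ∧ ψ a (k g0⁻¹) = t + r`.
-/

theorem e2_row_zero {H : Type} [Group H] {S : JS H} {P Q : NN S}
    (hPQ : P * Q = 1) (m : H) (u : H → ℂ) (hu : ∀ n, u n ≠ 0 → Q.op m n ≠ 0)
    (h0 : rowMul u P.op = 0) : u = 0 := by
  have h1 : mulOp P.op Q.op = oneOp := by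
    rw [← NN.mul_op, hPQ, NN.one_op]
  have h2 := assoc_row Q.nice P.nice Q.nice m u hu
  rw [h0, h1] at h2
  have h3 : rowMul u (oneOp : Op H) = u := by
    have := congrFun (mulOp_one (fun _ : H => u)) 1
    exact this
  have h4 : rowMul (0 : H → ℂ) Q.op = 0 := by
    have := congrFun (zero_mulOp Q.op) 1
    exact this
  rw [h3, h4] at h2
  exact h2.symm

theorem e2_split {H : Type} [Group H] {S : JS H} {P Q : NN S} (hQP : Q * P = 1) (m : H)
    (u1 u2 : H → ℂ) (h1 : ∀ n, u1 n ≠ 0 → Q.op m n ≠ 0) (h2 : ∀ n, u2 n ≠ 0 → Q.op m n ≠ 0)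
    (h : ∀ n, u1 n + u2 n = Q.op m n) (k : H) (hk : k ≠ m) :
    rowMul u1 P.op k + rowMul u2 P.op k = 0 := by
  classical
  have e1 : mulOp Q.op P.op = oneOp := by
    rw [← NN.mul_op, hQP, NN.one_op]
  have e2 : rowMul (Q.op m) P.op k = 0 := by
    have e3 : rowMul (Q.op m) P.op k = (oneOp : Op H) m k := by
      rw [← e1]
      rfl
    rw [e3]
    change (Finsupp.single (1 : H) (1 : ℂ)) (m⁻¹ * k) = 0
    rw [Finsupp.single_apply, if_neg]
    intro h5
    apply hk
    have : m⁻¹ * k = 1 := h5.symm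
    rw [inv_mul_eq_one] at this
    exact this.symm
  rw [← e2]
  have hff := Nice.ff Q.nice P.nice m k
  unfold rowMul
  rw [← finsum_add_distrib]
  · refine finsum_congr fun n => ?_
    rw [← h n]
    ring
  · refine hff.subset fun n hn => ?_
    have hn' : u1 n * P.op n k ≠ 0 := hn
    exact ⟨h1 n (left_ne_zero_of_mul hn'), right_ne_zero_of_mul hn'⟩
  · refine hff.subset fun n hn => ?_
    have hn' : u2 n * P.op n k ≠ 0 := hn
    exact ⟨h2 n (left_ne_zero_of_mul hn'), right_ne_zero_of_mul hn'⟩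

theorem resp_inv {H : Type} [Group H] {S : JS H} {P Q : NN S} (hQP : Q * P = 1)
    (hPQ : P * Q = 1) (ρ σ : H → Prop) (h1 : ∀ h k, P.op h k ≠ 0 → (ρ h ↔ σ k)) :
    ∀ m h, Q.op m h ≠ 0 → (σ m ↔ ρ h) := by
  classical
  intro m
  have hu1 : ∀ n, (fun h => if ρ h then Q.op m h else 0) n ≠ 0 → Q.op m n ≠ 0 := by
    intro n hn h0
    apply hn
    simp [h0]
  have hu2 : ∀ n, (fun h => if ρ h then 0 else Q.op m h) n ≠ 0 → Q.op m n ≠ 0 := by
    intro n hn h0
    apply hn
    simp [h0]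
  have hsum : ∀ n, (fun h => if ρ h then Q.op m h else 0) n +
      (fun h => if ρ h then 0 else Q.op m h) n = Q.op m n := by
    intro n
    by_cases hρ : ρ n <;> simp [hρ]
  have hr1 : ∀ k, ¬ σ k → rowMul (fun h => if ρ h then Q.op m h else 0) P.op k = 0 := by
    intro k hk
    unfold rowMul
    refine finsum_eq_zero_of_forall_eq_zero fun n => ?_
    by_cases hρ : ρ n
    · have : P.op n k = 0 := by
        by_contra hne
        exact hk ((h1 n k hne).1 hρ)
      rw [this, mul_zero]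
    · simp [hρ]
  have hr2 : ∀ k, σ k → rowMul (fun h => if ρ h then 0 else Q.op m h) P.op k = 0 := by
    intro k hk
    unfold rowMul
    refine finsum_eq_zero_of_forall_eq_zero fun n => ?_
    by_cases hρ : ρ n
    · simp [hρ]
    · have : P.op n k = 0 := by
        by_contra hne
        exact hρ ((h1 n k hne).2 hk)
      rw [this, mul_zero]
  intro h hQ
  by_cases hσ : σ m
  · have hz : (fun h => if ρ h then 0 else Q.op m h) = 0 := by
      refine e2_row_zero hPQ m _ hu2 ?_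
      funext k
      by_cases hk : σ k
      · exact hr2 k hk
      · have hkm : k ≠ m := fun h => hk (h ▸ hσ)
        have h5 := e2_split hQP m _ _ hu1 hu2 hsum k hkm
        rw [hr1 k hk, zero_add] at h5
        exact h5
    refine ⟨fun _ => ?_, fun _ => hσ⟩
    by_contra hρ
    apply hQ
    have := congrFun hz h
    simpa [hρ] using this
  · have hz : (fun h => if ρ h then Q.op m h else 0) = 0 := by
      refine e2_row_zero hPQ m _ hu1 ?_
      funext k
      by_cases hk : σ k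
      · have hkm : k ≠ m := fun h => hσ (h ▸ hk)
        have h5 := e2_split hQP m _ _ hu1 hu2 hsum k hkm
        rw [hr2 k hk, add_zero] at h5
        exact h5
      · exact hr1 k hk
    refine ⟨fun h6 => absurd h6 hσ, fun hρ => ?_⟩
    exfalso
    apply hQ
    have := congrFun hz h
    simpa [hρ] using this

theorem Hom.inv {H : Type} [Group H] {S : JS H} {a : S.Λ} {h0 g0 : H} {r : ℝ} {P Q : NN S}
    (hQP : Q * P = 1) (hPQ : P * Q = 1) (hP : Hom S a h0 g0 r P.op) :
    Hom S a g0 h0 (-r) Q.op := by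
  have key1 := resp_inv hQP hPQ (fun h => S.v (h * h0⁻¹) ≤ a) (fun k => S.v (k * g0⁻¹) ≤ a)
    (fun h k hne => (hP h k hne).1)
  intro m h hne
  refine ⟨key1 m h hne, fun hm => ?_⟩
  have key2 := resp_inv hQP hPQ
    (fun h => S.v (h * h0⁻¹) ≤ a ∧ S.ψ a (h * h0⁻¹) = S.ψ a (m * g0⁻¹) - r)
    (fun k => S.v (k * g0⁻¹) ≤ a ∧ S.ψ a (k * g0⁻¹) = S.ψ a (m * g0⁻¹)) ?_
  · have h2 := (key2 m h hne).1 ⟨hm, rfl⟩
    rw [h2.2]
    ring
  · intro h' k hne'
    have h3 := hP h' k hne'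
    constructor
    · rintro ⟨h4, h5⟩
      refine ⟨h3.1.1 h4, ?_⟩
      rw [h3.2 h4, h5]
      ring
    · rintro ⟨h4, h5⟩
      have h6 := h3.1.2 h4
      refine ⟨h6, ?_⟩
      have h7 := h3.2 h6
      rw [h5] at h7
      linarith

end Pool.Agent.LIR
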