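import Pool.Agent.LIR.E1
import Pool.Agent.LIR.E2

set_option autoImplicit false

open Pool.Agent.COST

namespace Pool.Agent.LIR

/-!
Inverse series at one block.
-/

/-- the coefficients of the series -/
noncomputable def nser {R : Type} [Ring R] (Y : ℝ → R) (r0 : ℝ) (P : R) (s : ℝ) : R :=
  if 0 < s then Y (r0 + s) * P else 0

theorem nser_neg {R : Type} [Ring R] (Y : ℝ → R) (r0 : ℝ) (P : R) {s : ℝ} (hs : s ≤ 0) :
    nser Y r0 P s = 0 := if_neg (not_lt.mpr hs)

theorem nser_pos {R : Type} [Ring R] (Y : ℝ → R) (r0 : ℝ) (P : R) {s : ℝ} (hs : 0 < s) :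
    nser Y r0 P s = Y (r0 + s) * P := if_pos hs

theorem nser_fin {R : Type} [Ring R] {Y : ℝ → R} (hfin : ∀ B : ℝ, {r | r ≤ B ∧ Y r ≠ 0}.Finite)
    (r0 : ℝ) (P : R) (B : ℝ) : {s | s ≤ B ∧ nser Y r0 P s ≠ 0}.Finite := by
  have h1 : ((fun r => r - r0) '' {r | r ≤ r0 + B ∧ Y r ≠ 0}).Finite := (hfin (r0 + B)).image _
  refine h1.subset ?_
  rintro s ⟨hs, hne⟩
  by_cases h0 : 0 < s
  · rw [nser_pos Y r0 P h0] at hne
    refine ⟨r0 + s, ⟨by linarith, left_ne_zero_of_mul hne⟩, ?_⟩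
    change r0 + s - r0 = s
    ring
  · exact absurd (nser_neg Y r0 P (not_lt.mp h0)) hne

theorem ser_sum {R : Type} [Ring R] {Y : ℝ → R} (hfin : ∀ B : ℝ, {r | r ≤ B ∧ Y r ≠ 0}.Finite)
    {r0 : ℝ} {P : R} (hPY : P * Y r0 = 1) (hlow : ∀ r, r < r0 → Y r = 0) {V : ℝ → R}
    (hV0 : ∀ r, r < 0 → V r = 0)
    (hV : ∀ r, V r = (if r = 0 then 1 else 0) - ∑ᶠ s : ℝ, V (r - s) * nser Y r0 P s) (r : ℝ) :
    {i : ℝ | P * V (i + r0) * Y (r - i) ≠ 0}.Finite ∧
      ∑ᶠ i : ℝ, P * V (i + r0) * Y (r - i) = if r = 0 then 1 else 0 := by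
  classical
  -- finite sets
  have hf1 : {s : ℝ | V (r - s) * Y (r0 + s) ≠ 0}.Finite := by
    have h1 : ((fun t => t - r0) '' {t | t ≤ r0 + r ∧ Y t ≠ 0}).Finite := (hfin (r0 + r)).image _
    refine h1.subset ?_
    intro s hs
    have h2 : ¬ (r - s < 0) := fun h => left_ne_zero_of_mul hs (hV0 _ h)
    refine ⟨r0 + s, ⟨by linarith, right_ne_zero_of_mul hs⟩, ?_⟩
    change r0 + s - r0 = s
    ring
  have hf2 : {s : ℝ | V (r - s) * nser Y r0 P s ≠ 0}.Finite := by
    refine (nser_fin hfin r0 P r).subset ?_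
    intro s hs
    have h2 : ¬ (r - s < 0) := fun h => left_ne_zero_of_mul hs (hV0 _ h)
    exact ⟨by linarith, right_ne_zero_of_mul hs⟩
  let e : ℝ ≃ ℝ := Equiv.subLeft (r - r0)
  have he : ∀ s, e s = r - r0 - s := fun s => rfl
  have hterm : ∀ s, P * V (e s + r0) * Y (r - e s) = P * (V (r - s) * Y (r0 + s)) := by
    intro s
    rw [he, mul_assoc]
    have e1 : r - r0 - s + r0 = r - s := by ring
    have e2 : r - (r - r0 - s) = r0 + s := by ring
    rw [e1, e2]
  refine ⟨?_, ?_⟩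
  · refine (hf1.image e).subset ?_
    intro i hi
    refine ⟨e.symm i, ?_, e.apply_symm_apply i⟩
    have h1 := hterm (e.symm i)
    rw [e.apply_symm_apply] at h1
    intro h2
    apply hi
    rw [h1, h2, mul_zero]
  · rw [← finsum_comp_equiv e]
    rw [finsum_congr hterm]
    -- the sum over `s`
    have h3 : ∀ s, V (r - s) * Y (r0 + s) =
        (if s = 0 then V r * Y r0 else 0) + (V (r - s) * nser Y r0 P s) * Y r0 := by
      intro s
      rcases lt_trichotomy s 0 with hs | hs | hs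
      · rw [if_neg hs.ne, nser_neg Y r0 P hs.le, hlow (r0 + s) (by linarith)]
        simp
      · subst hs
        rw [if_pos rfl, nser_neg Y r0 P le_rfl]
        simp
      · rw [if_neg hs.ne', nser_pos Y r0 P hs, zero_add, mul_assoc, mul_assoc, hPY, mul_one]
    have h4 : ∑ᶠ s : ℝ, V (r - s) * Y (r0 + s) = (if r = 0 then 1 else 0) * Y r0 := by
      rw [finsum_congr h3, finsum_add_distrib, ← finsum_mul' _ _ hf2]
      · have h5 : ∑ᶠ s : ℝ, (if s = 0 then V r * Y r0 else 0) = V r * Y r0 := by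
          rw [finsum_eq_single _ (0 : ℝ) (fun x hx => if_neg hx), if_pos rfl]
        rw [h5, ← add_mul]
        have h6 := hV r
        have h7 : V r + ∑ᶠ s : ℝ, V (r - s) * nser Y r0 P s = if r = 0 then 1 else 0 := by
          rw [← eq_sub_iff_add_eq]
          exact h6
        rw [h7]
      · refine (Set.finite_singleton (0 : ℝ)).subset ?_
        intro s hs
        by_contra h8
        exact hs (if_neg h8)
      · refine hf2.subset ?_
        intro s hs
        exact left_ne_zero_of_mul hs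
    rw [← mul_finsum' _ _ hf1, h4]
    by_cases hr : r = 0
    · rw [if_pos hr, one_mul, hPY]
    · rw [if_neg hr, zero_mul, mul_zero]

open Classical in
theorem block_inv {H : Type} [Group H] {S : JS H} {Q : Op H → Prop} (hQ : Closed S Q) {a : S.Λ}
    {h0 g0 : H} {Y : ℝ → Op H} (hY : ∀ r, NiceP S Q (Y r))
    (hhom : ∀ r, Hom S a h0 g0 r (Y r)) (hfin : ∀ R : ℝ, {r | r ≤ R ∧ Y r ≠ 0}.Finite)
    {r0 : ℝ} {P : Op H} (hP : NiceP S Q P) (hPY : mulOp P (Y r0) = oneOp)
    (hYP : mulOp (Y r0) P = oneOp) (hlow : ∀ r, r < r0 → Y r = 0) :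
    ∃ W : ℝ → Op H, (∀ r, NiceP S Q (W r)) ∧ (∀ r, Hom S a g0 h0 r (W r)) ∧
      (∀ R : ℝ, {r | r ≤ R ∧ W r ≠ 0}.Finite) ∧ W (-r0) = P ∧ (∀ r, r < -r0 → W r = 0) ∧
      ∀ r, ∑ᶠ i : ℝ, mulOp (W i) (Y (r - i)) = if r = 0 then oneOp else 0 := by
  let y : ℝ → NN S := fun r => ⟨Y r, (hY r).nice⟩
  let p : NN S := ⟨P, hP.nice⟩
  have hyne : ∀ r, y r ≠ 0 → Y r ≠ 0 := fun r h h1 => h (NN.ext h1)
  have hyfin : ∀ B : ℝ, {r | r ≤ B ∧ y r ≠ 0}.Finite := fun B =>
    (hfin B).subset fun r hr => ⟨hr.1, hyne r hr.2⟩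
  have hpy : p * y r0 = 1 := NN.ext hPY
  have hyp : y r0 * p = 1 := NN.ext hYP
  have hylow : ∀ r, r < r0 → y r = 0 := fun r hr => NN.ext (hlow r hr)
  obtain ⟨V, hV0, hV1, hVf, hV⟩ := series (nser y r0 p) (fun s hs => nser_neg y r0 p hs)
    (nser_fin hyfin r0 p)
  -- properties of the coefficients
  have hPhom : Hom S a g0 h0 (-r0) P := Hom.inv (P := y r0) (Q := p) hpy hyp (hhom r0)
  have hN : ∀ s, NiceP S Q (nser y r0 p s).op ∧ Hom S a h0 h0 s (nser y r0 p s).op := by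
    intro s
    by_cases hs : 0 < s
    · rw [nser_pos y r0 p hs]
      refine ⟨NiceP.mul hQ (hY _) hP, ?_⟩
      have h1 := Hom.mul (hhom (r0 + s)) hPhom
      have e1 : r0 + s + -r0 = s := by ring
      rw [e1] at h1
      exact h1
    · rw [nser_neg y r0 p (not_lt.mp hs)]
      exact ⟨NiceP.zero S Q, Hom.zero S a h0 h0 s⟩
  have hfs : ∀ r, {s : ℝ | (V (r - s) * nser y r0 p s).op ≠ 0}.Finite := by
    intro r
    refine (nser_fin hyfin r0 p r).subset ?_
    intro s hs
    have h1 : V (r - s) * nser y r0 p s ≠ 0 := by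
      intro h
      apply hs
      rw [h]
      rfl
    have h2 : ¬ (r - s < 0) := fun h => left_ne_zero_of_mul h1 (hV0 _ h)
    exact ⟨by linarith, right_ne_zero_of_mul h1⟩
  have hC : ∀ r, NiceP S Q (V r).op ∧ Hom S a h0 h0 r (V r).op := by
    refine level_ind (nser y r0 p) (fun s hs => nser_neg y r0 p hs) (nser_fin hyfin r0 p)
      (fun r => NiceP S Q (V r).op ∧ Hom S a h0 h0 r (V r).op) ?_ ?_
    · intro r hr
      rw [hV0 r hr]
      exact ⟨NiceP.zero S Q, Hom.zero S a h0 h0 r⟩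
    · intro r hr
      have h1 : (V r).op = (if r = 0 then (1 : NN S) else 0).op +
          -(∑ᶠ s : ℝ, (V (r - s) * nser y r0 p s).op) := by
        rw [← NN.finsum_op _ (hfs r), ← NN.neg_op, ← NN.add_op, ← sub_eq_add_neg, ← hV r]
      have h2 : ∀ s, NiceP S Q (V (r - s) * nser y r0 p s).op ∧
          Hom S a h0 h0 r (V (r - s) * nser y r0 p s).op := by
        intro s
        by_cases hs : nser y r0 p s = 0
        · rw [hs, mul_zero]
          exact ⟨NiceP.zero S Q, Hom.zero S a h0 h0 r⟩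
        · obtain ⟨h3, h4⟩ := hr s hs
          refine ⟨NiceP.mul hQ h3 (hN s).1, ?_⟩
          have h5 := Hom.mul h4 (hN s).2
          rw [sub_add_cancel] at h5
          exact h5
      rw [h1]
      refine ⟨NiceP.add hQ ?_ (NiceP.neg hQ (NiceP.finsum hQ fun s => (h2 s).1)),
        Hom.add ?_ (Hom.neg (Hom.finsum fun s => (h2 s).2))⟩
      · by_cases h6 : r = 0
        · rw [if_pos h6]
          exact NiceP.fin _
        · rw [if_neg h6]
          exact NiceP.zero S Q
      · by_cases h6 : r = 0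
        · rw [if_pos h6, h6]
          exact Hom.one S a h0
        · rw [if_neg h6]
          exact Hom.zero S a h0 h0 r
  refine ⟨fun r => (p * V (r + r0)).op, ?_, ?_, ?_, ?_, ?_, ?_⟩
  · intro r
    exact NiceP.mul hQ hP (hC _).1
  · intro r
    have h1 := Hom.mul hPhom (hC (r + r0)).2
    have e1 : -r0 + (r + r0) = r := by ring
    rw [e1] at h1
    exact h1
  · intro R
    have h1 : ((fun t => t - r0) '' {t | t ≤ R + r0 ∧ V t ≠ 0}).Finite := (hVf (R + r0)).image _
    refine h1.subset ?_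
    rintro r ⟨hr, hne⟩
    refine ⟨r + r0, ⟨by linarith, ?_⟩, ?_⟩
    · intro h
      apply hne
      change (p * V (r + r0)).op = 0
      rw [h, mul_zero]
      rfl
    · change r + r0 - r0 = r
      ring
  · change (p * V (-r0 + r0)).op = P
    rw [neg_add_cancel, hV1, mul_one]
  · intro r hr
    change (p * V (r + r0)).op = 0
    rw [hV0 _ (by linarith), mul_zero]
    rfl
  · intro r
    obtain ⟨hf, hs⟩ := ser_sum hyfin hpy hylow hV0 hV r
    have h1 : {i : ℝ | (p * V (i + r0) * y (r - i)).op ≠ 0}.Finite := by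
      refine hf.subset ?_
      intro i hi h
      apply hi
      rw [h]
      rfl
    have h2 := NN.finsum_op (fun i : ℝ => p * V (i + r0) * y (r - i)) h1
    rw [hs] at h2
    change ∑ᶠ i : ℝ, (p * V (i + r0) * y (r - i)).op = _
    rw [← h2]
    by_cases h6 : r = 0
    · rw [if_pos h6, if_pos h6]
      rfl
    · rw [if_neg h6, if_neg h6]
      rfl

end Pool.Agent.LIR
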