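import Pool.Agent.LIR.E2

set_option autoImplicit false

open Pool.Agent.COST

namespace Pool.Agent.LIR

/-!
**[LIR-E4] Uniqueness of the inverse series on a block.** PROOF. Fix `m` in the block of `g0`. Suppose
that some `u i = W i m - W' i m` is nonzero; by local finiteness there is a least such `i`. Take
`r = i + r0` and look at the row `m` of `e r`, `e' r`. For every `i'` the row `W' i' m` is supported in the
block of `h0` (`hW'`), where `Y = Y'`, so `rowMul (W' i' m) (Y' t) = rowMul (W' i' m) (Y t)`. Subtract: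
`∑ᶠ i', rowMul (u i') (Y (r - i')) = 0` (finitely many nonzero terms; the row of a finite sum of operators
is the sum of the rows; `rowMul` is additive in the row: the sums are finite by `Nice.ff`). For
`i' < i` the term is `0` because `u i' = 0`; for `i' > i` because `Y (r - i') = 0`
(`r - i' < r0`). So `rowMul (u i) (Y r0) = 0`; by `assoc_row` with `U = |W i| + |W' i|` (nice: `Nice.abs`,
`NiceP.add`) `u i = rowMul (u i) (Y r0 P) = 0`, contradiction.
-/

theorem E4_one {H : Type} [Group H] (u : H → ℂ) : rowMul u (oneOp : Op H) = u := by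
  have h := mulOp_one (fun _ : H => u)
  exact congrFun h 1

theorem E4_zero {H : Type} (P : Op H) : rowMul (0 : H → ℂ) P = 0 := by
  funext k
  simp [rowMul]

theorem E4_sub {H : Type} [Group H] {S : JS H} {X X' Z : Op H} (hX : Nice S X) (hX' : Nice S X')
    (hZ : Nice S Z) (m : H) :
    rowMul (X m - X' m) Z = rowMul (X m) Z - rowMul (X' m) Z := by
  funext k
  show ∑ᶠ n, (X m n - X' m n) * Z n k = ∑ᶠ n, X m n * Z n k - ∑ᶠ n, X' m n * Z n k
  rw [← finsum_sub_distrib]
  · congr 1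
    funext n
    ring
  · refine (Nice.ff hX hZ m k).subset ?_
    intro n hn
    exact ⟨left_ne_zero_of_mul hn, right_ne_zero_of_mul hn⟩
  · refine (Nice.ff hX' hZ m k).subset ?_
    intro n hn
    exact ⟨left_ne_zero_of_mul hn, right_ne_zero_of_mul hn⟩

/-- a locally finite set of levels is bounded below -/
theorem E4_bdd {H : Type} {Y : ℝ → Op H} (fY : ∀ R : ℝ, {r | r ≤ R ∧ Y r ≠ 0}.Finite) :
    ∃ L : ℝ, ∀ r, Y r ≠ 0 → L ≤ r := by
  by_cases h : ∃ r1, Y r1 ≠ 0
  · obtain ⟨r1, hr1⟩ := h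
    obtain ⟨L, hL⟩ := (fY r1).bddBelow
    refine ⟨L, fun r hr => ?_⟩
    rcases le_total r r1 with h1 | h1
    · exact hL ⟨h1, hr⟩
    · exact (hL ⟨le_refl r1, hr1⟩).trans h1
  · push Not at h
    exact ⟨0, fun r hr => absurd (h r) hr⟩

theorem E4_fin {H : Type} {Y W : ℝ → Op H} (fY : ∀ R : ℝ, {r | r ≤ R ∧ Y r ≠ 0}.Finite)
    (fW : ∀ R : ℝ, {r | r ≤ R ∧ W r ≠ 0}.Finite) (r : ℝ) :
    (Function.support fun i => mulOp (W i) (Y (r - i))).Finite := by
  obtain ⟨L, hL⟩ := E4_bdd fY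
  refine (fW (r - L)).subset ?_
  intro i hi
  have h1 : W i ≠ 0 := by
    intro h
    apply hi
    show mulOp (W i) (Y (r - i)) = 0
    rw [h, zero_mulOp]
  have h2 : Y (r - i) ≠ 0 := by
    intro h
    apply hi
    show mulOp (W i) (Y (r - i)) = 0
    rw [h, mulOp_zero]
  have h3 := hL _ h2
  exact ⟨by linarith, h1⟩

open Classical in
theorem block_uniq {H : Type} [Group H] {S : JS H} {a : S.Λ} {h0 g0 : H}
    {Y Y' W W' : ℝ → Op H} (nY : ∀ r, Nice S (Y r)) (nW : ∀ r, Nice S (W r))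
    (nY' : ∀ r, Nice S (Y' r)) (nW' : ∀ r, Nice S (W' r))
    (hag : ∀ r h k, S.v (h * h0⁻¹) ≤ a → Y r h k = Y' r h k)
    (hW : ∀ r, Hom S a g0 h0 r (W r)) (hW' : ∀ r, Hom S a g0 h0 r (W' r))
    (fY : ∀ R : ℝ, {r | r ≤ R ∧ Y r ≠ 0}.Finite) (fY' : ∀ R : ℝ, {r | r ≤ R ∧ Y' r ≠ 0}.Finite)
    (fW : ∀ R : ℝ, {r | r ≤ R ∧ W r ≠ 0}.Finite) (fW' : ∀ R : ℝ, {r | r ≤ R ∧ W' r ≠ 0}.Finite)
    {r0 : ℝ} {P : Op H} (hP : Nice S P) (hYP : mulOp (Y r0) P = oneOp)
    (hlow : ∀ r, r < r0 → Y r = 0)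
    (e : ∀ r, ∑ᶠ i : ℝ, mulOp (W i) (Y (r - i)) = if r = 0 then oneOp else 0)
    (e' : ∀ r, ∑ᶠ i : ℝ, mulOp (W' i) (Y' (r - i)) = if r = 0 then oneOp else 0)
    (r : ℝ) (m k : H) (hm : S.v (m * g0⁻¹) ≤ a) : W r m k = W' r m k := by
  by_contra hcon
  -- the least level where the rows differ
  have hD : {i : ℝ | i ≤ r ∧ W i m ≠ W' i m}.Finite := by
    refine ((fW r).union (fW' r)).subset ?_
    rintro i ⟨h1, h2⟩
    by_cases h3 : W i = 0
    · right
      refine ⟨h1, ?_⟩
      intro h4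
      apply h2
      rw [h3, h4]
    · exact Or.inl ⟨h1, h3⟩
  have hne : {i : ℝ | i ≤ r ∧ W i m ≠ W' i m}.Nonempty := by
    refine ⟨r, le_refl r, ?_⟩
    intro h
    exact hcon (congrFun h k)
  obtain ⟨i, ⟨hir, hi⟩, hmin⟩ := Set.exists_min_image _ id hD hne
  have hlt : ∀ i', i' < i → W i' m = W' i' m := by
    intro i' hi'
    by_contra h
    have := hmin i' ⟨(hi'.le).trans hir, h⟩
    exact absurd hi' (not_lt.mpr this)
  -- the two identities at the level `i + r0`
  set q : ℝ := i + r0 with hq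
  have h1 := e q
  have h2 := e' q
  set s : Finset ℝ := (E4_fin fY fW q).toFinset ∪ ((E4_fin fY' fW' q).toFinset ∪ {i}) with hs
  rw [finsum_eq_sum_of_support_subset (s := s) _ (by
    intro x hx
    rw [hs]
    simp only [Finset.coe_union, Set.mem_union, Set.Finite.coe_toFinset]
    exact Or.inl hx)] at h1
  rw [finsum_eq_sum_of_support_subset (s := s) _ (by
    intro x hx
    rw [hs]
    simp only [Finset.coe_union, Set.mem_union, Set.Finite.coe_toFinset]
    exact Or.inr (Or.inl hx))] at h2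
  have h3 : (∑ i' ∈ s, mulOp (W i') (Y (q - i'))) m = (∑ i' ∈ s, mulOp (W' i') (Y' (q - i'))) m := by
    rw [h1, h2]
  rw [Finset.sum_apply, Finset.sum_apply] at h3
  have hblock : ∀ i' n, W' i' m n ≠ 0 → S.v (n * h0⁻¹) ≤ a := fun i' n hn =>
    ((hW' i' m n hn).1).mp hm
  have h4 : ∀ i' t, rowMul (W' i' m) (Y' t) = rowMul (W' i' m) (Y t) := by
    intro i' t
    funext x
    unfold rowMul
    congr 1
    funext n
    by_cases hn : W' i' m n = 0
    · rw [hn, zero_mul, zero_mul]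
    · rw [hag t n x (hblock i' n hn)]
  have h5 : ∑ i' ∈ s, (rowMul (W i' m) (Y (q - i')) - rowMul (W' i' m) (Y (q - i'))) = 0 := by
    rw [Finset.sum_sub_distrib, sub_eq_zero]
    calc ∑ i' ∈ s, rowMul (W i' m) (Y (q - i')) = ∑ i' ∈ s, mulOp (W i') (Y (q - i')) m := rfl
      _ = ∑ i' ∈ s, mulOp (W' i') (Y' (q - i')) m := h3
      _ = ∑ i' ∈ s, rowMul (W' i' m) (Y (q - i')) := by
          apply Finset.sum_congr rfl
          intro i' _
          exact h4 i' (q - i')
  have h6 : rowMul (W i m - W' i m) (Y r0) = 0 := by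
    rw [Finset.sum_eq_single i] at h5
    · rw [E4_sub (nW i) (nW' i) (nY r0)]
      have hqi : q - i = r0 := by rw [hq]; ring
      rw [hqi] at h5
      exact h5
    · intro i' _ hne'
      rcases lt_or_gt_of_ne hne' with h7 | h7
      · rw [hlt i' h7, sub_self]
      · have h8 : Y (q - i') = 0 := hlow _ (by rw [hq]; linarith)
        have h9 : rowMul (W i' m) (0 : Op H) = 0 := by
          funext x
          simp [rowMul]
        have h10 : rowMul (W' i' m) (0 : Op H) = 0 := by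
          funext x
          simp [rowMul]
        rw [h8, h9, h10, sub_self]
    · intro hni
      exfalso
      apply hni
      rw [hs]
      simp
  have hU : Nice S ((fun h k => ((‖W i h k‖ : ℝ) : ℂ)) + (fun h k => ((‖W' i h k‖ : ℝ) : ℂ)) : Op H) :=
    NiceP.add (Closed.true S) (Nice.abs (nW i)) (Nice.abs (nW' i))
  have h8 := assoc_row hU (nY r0) hP m (W i m - W' i m) (by
    intro n hn h9
    apply hn
    have h10 : ((‖W i m n‖ : ℝ) : ℂ) + ((‖W' i m n‖ : ℝ) : ℂ) = 0 := h9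
    have h11 : ‖W i m n‖ + ‖W' i m n‖ = 0 := by exact_mod_cast h10
    have h12 := norm_nonneg (W i m n)
    have h13 := norm_nonneg (W' i m n)
    have h14 : W i m n = 0 := norm_eq_zero.mp (by linarith)
    have h15 : W' i m n = 0 := norm_eq_zero.mp (by linarith)
    show W i m n - W' i m n = 0
    rw [h14, h15, sub_zero])
  rw [h6, E4_zero, hYP, E4_one] at h8
  exact hi (sub_eq_zero.mp h8.symm)

end Pool.Agent.LIR
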