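import Pool.Agent.LIR.B1
import Pool.Agent.LIR.B11
import Pool.Agent.LIR.B12
import Pool.Agent.LIR.E3
import Pool.Agent.LIR.E4

set_option autoImplicit false

open Pool.Agent.COST

namespace Pool.Agent.LIR

/-!
**[LIR-E5] Left inverses.** PROOF. For `h0 ∈ G` let `Wb h0 : ℝ → Op H` be the series of `block_inv` for
`a h0`, `h0`, `h0 g`, `Y h0`, `r0 h0`, `P h0` (choice). Define `W m r = Wb (m g⁻¹) r` if `m g⁻¹ ∈ G`, `0` otherwise, and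
`Z m k = W m (ψ (a (m g⁻¹)) (k (m g⁻¹)⁻¹)) m k` if `v (k (m g⁻¹)⁻¹) ≤ a (m g⁻¹)`, `0` otherwise. `Node`: `cons` is
`cons_shift`; `supp` by definition. `ex` at `m0` (`h0 = m0 g⁻¹`, `a = a h0`): `hom`, `fin` from
`block_inv`; `eq` at `m`, `k`: let `h1 = m g⁻¹`, `h1 h0⁻¹ = m m0⁻¹`, so `a h1 = a h0` by `Cons`
and `h1 ∈ G` iff `h0 ∈ G` (`hG` in both directions, `JS.v_symm`). The level of `k` seen from `m` is
`ψ a (k h1⁻¹) = ψ a (k h0⁻¹) - ψ a (h1 h0⁻¹)`. So one needs `Wb h1 r m k = Wb h0 r m k`: `block_uniq` with base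
points `h0`, `m0`, `Y = Y h0`, `Y' = Y h1`, `W = Wb h0`, `W' = Wb h1`; `Y h0 r h k = Y h1 r h k` for `h` in the block:
both are equal to `X h k` if the degree `ψ a (k (h g)⁻¹)` is `r` and `0` otherwise (`Ex.eq`, `Ex.hom`, `Ex.supp` at
`h0` and at `h1`; base change of `ψ`); `Hom` of `Wb h1` with base points `m`, `h1` is turned into base points `m0`,
`h0` by `Hom.rebase` (the two shifts cancel, `m m0⁻¹ = h1 h0⁻¹`). `supp` of `Ex`: from the definition of `Z` and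
`JS.le_mul`. Product: for `m` with `h0 = m g⁻¹ ∈ G` `Ex.mul` for `Z` at `m`, `h0` and `X` at `h0`, `h0 g = m` gives
`mulOp Z X m k = (∑ᶠ i, mulOp (W m i) (Y h0 (r - i))) m k` with `r = ψ a (k m⁻¹)` if `v (k m⁻¹) ≤ a`, and
`= 0` otherwise; by `block_inv` it is `oneOp m k` if `r = 0` and `0` if `r ≠ 0`, and `oneOp m k = 0` for `k ≠ m`.
-/

/-- values of the pieces of an expansion -/
private theorem e5_val {H : Type} [Group H] {S : JS H} {a : S.Λ} {h0 g0 : H} {X : Op H} {Y : ℝ → Op H}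
    (e : Ex S a h0 g0 X Y) (r : ℝ) (h k : H) (hh : S.v (h * h0⁻¹) ≤ a) :
    (S.v (k * g0⁻¹) ≤ a ∧ S.ψ a (k * g0⁻¹) - S.ψ a (h * h0⁻¹) = r → Y r h k = X h k) ∧
      (¬ (S.v (k * g0⁻¹) ≤ a ∧ S.ψ a (k * g0⁻¹) - S.ψ a (h * h0⁻¹) = r) → Y r h k = 0) := by
  refine ⟨?_, ?_⟩
  · rintro ⟨h1, h2⟩
    rw [e.eq h k hh h1, h2]
  · intro hc
    by_contra hne
    obtain ⟨h1, h2⟩ := e.hom r h k hne
    exact hc ⟨h1.mp hh, by rw [h2 hh]; ring⟩

/-- the pieces of two expansions of the same node agree on a common block -/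
private theorem e5_agree {H : Type} [Group H] {S : JS H} {a : S.Λ} {h0 h1 g : H} {X : Op H}
    {Y Y' : ℝ → Op H} (e : Ex S a h0 (h0 * g) X Y) (e' : Ex S a h1 (h1 * g) X Y')
    (h01 : S.v (h1 * h0⁻¹) ≤ a) (r : ℝ) (h k : H) (hh : S.v (h * h0⁻¹) ≤ a) :
    Y r h k = Y' r h k := by
  have h10 : S.v (h0 * h1⁻¹) ≤ a := by rw [S.v_symm]; exact h01
  have hh1 : S.v (h * h1⁻¹) ≤ a := S.le_tri hh h10
  have hg : h0 * g * (h1 * g)⁻¹ = h0 * h1⁻¹ := by group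
  have hg' : h1 * g * (h0 * g)⁻¹ = h1 * h0⁻¹ := by group
  have hv : S.v (k * (h0 * g)⁻¹) ≤ a ↔ S.v (k * (h1 * g)⁻¹) ≤ a :=
    ⟨fun hk => S.le_tri hk (by rw [hg]; exact h10), fun hk => S.le_tri hk (by rw [hg']; exact h01)⟩
  have hs : S.v (k * (h1 * g)⁻¹) ≤ a → S.ψ a (k * (h0 * g)⁻¹) - S.ψ a (h * h0⁻¹) =
      S.ψ a (k * (h1 * g)⁻¹) - S.ψ a (h * h1⁻¹) := by
    intro hk
    rw [S.ψ_tri a hk (by rw [hg']; exact h01), S.ψ_tri a hh1 h01, hg']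
    ring
  have v0 := e5_val e r h k hh
  have v1 := e5_val e' r h k hh1
  by_cases hc : S.v (k * (h1 * g)⁻¹) ≤ a ∧ S.ψ a (k * (h1 * g)⁻¹) - S.ψ a (h * h1⁻¹) = r
  · rw [v1.1 hc, v0.1 ⟨hv.mpr hc.1, by rw [hs hc.1]; exact hc.2⟩]
  · rw [v1.2 hc, v0.2]
    rintro ⟨h1', h2'⟩
    exact hc ⟨hv.mp h1', by rw [← hs (hv.mp h1')]; exact h2'⟩

private theorem e5_one {H : Type} [Group H] {m k : H} (h : k ≠ m) : (oneOp : Op H) m k = 0 := by
  classical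
  unfold oneOp finOp
  rw [Finsupp.single_apply, if_neg]
  intro h1
  apply h
  have : m * (m⁻¹ * k) = m * 1 := by rw [← h1]
  simpa using this

theorem left_inv {H : Type} [Group H] {S : JS H} {Q : Op H → Prop} (hQ : Closed S Q)
    {X : Op H} {g : H} {a : H → S.Λ} {Y : H → ℝ → Op H} (hN : Node S X g a Y)
    (hY : ∀ h0 r, NiceP S Q (Y h0 r)) (G : Set H)
    (hG : ∀ h ∈ G, ∀ h0, S.v (h * h0⁻¹) ≤ a h → h0 ∈ G) (r0 : H → ℝ) (P : H → Op H)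
    (hP : ∀ h ∈ G, NiceP S Q (P h) ∧ mulOp (P h) (Y h (r0 h)) = oneOp ∧
      mulOp (Y h (r0 h)) (P h) = oneOp ∧ ∀ r, r < r0 h → Y h r = 0) :
    ∃ (Z : Op H) (W : H → ℝ → Op H), Node S Z g⁻¹ (fun m => a (m * g⁻¹)) W ∧
      (∀ m r, NiceP S Q (W m r)) ∧
      (∀ m, m * g⁻¹ ∈ G → mulOp Z X m = oneOp m) ∧
      ∀ m, m * g⁻¹ ∈ G → W m (-(r0 (m * g⁻¹))) = P (m * g⁻¹) ∧
        ∀ r, r < -(r0 (m * g⁻¹)) → W m r = 0 := by
  classical
  have hcons := hN.cons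
  have hB : ∀ h0 : H, ∃ W : ℝ → Op H, (h0 ∈ G → (∀ r, NiceP S Q (W r)) ∧
      (∀ r, Hom S (a h0) (h0 * g) h0 r (W r)) ∧ (∀ R : ℝ, {r | r ≤ R ∧ W r ≠ 0}.Finite) ∧
      W (-(r0 h0)) = P h0 ∧ (∀ r, r < -(r0 h0) → W r = 0) ∧
      ∀ r, ∑ᶠ i : ℝ, mulOp (W i) (Y h0 (r - i)) = if r = 0 then oneOp else 0) ∧
      (h0 ∉ G → ∀ r, W r = 0) := by
    intro h0
    by_cases hG0 : h0 ∈ G
    · obtain ⟨hP1, hP2, hP3, hP4⟩ := hP h0 hG0
      obtain ⟨W, h1, h2, h3, h4, h5, h6⟩ := block_inv hQ (hY h0) (hN.ex h0).hom (hN.ex h0).fin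
        hP1 hP2 hP3 hP4
      exact ⟨W, fun _ => ⟨h1, h2, h3, h4, h5, fun r => by rw [h6 r]⟩, fun hc => absurd hG0 hc⟩
    · exact ⟨fun _ => 0, fun hc => absurd hc hG0, fun _ _ => rfl⟩
  choose Wb hWG hWN using hB
  -- all `Wb` are nice
  have hnice : ∀ h0 r, NiceP S Q (Wb h0 r) := by
    intro h0 r
    by_cases hG0 : h0 ∈ G
    · exact (hWG h0 hG0).1 r
    · rw [hWN h0 hG0 r]
      exact NiceP.zero S Q
  have hhom : ∀ h0 r, Hom S (a h0) (h0 * g) h0 r (Wb h0 r) := by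
    intro h0 r
    by_cases hG0 : h0 ∈ G
    · exact (hWG h0 hG0).2.1 r
    · rw [hWN h0 hG0 r]
      exact Hom.zero S _ _ _ _
  have hfin : ∀ h0 (R : ℝ), {r | r ≤ R ∧ Wb h0 r ≠ 0}.Finite := by
    intro h0 R
    by_cases hG0 : h0 ∈ G
    · exact (hWG h0 hG0).2.2.1 R
    · refine Set.Finite.subset Set.finite_empty ?_
      rintro r ⟨_, hr⟩
      exact hr (hWN h0 hG0 r)
  have hac : ∀ h1 h0, S.v (h1 * h0⁻¹) ≤ a h0 → a h1 = a h0 := by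
    intro h1 h0 h01
    have := hcons h0 h1 (by rw [S.v_symm]; exact h01)
    exact WithBot.coe_injective this
  -- agreement on a block
  have hagree : ∀ h0 h1, S.v (h1 * h0⁻¹) ≤ a h0 → ∀ r m k, S.v (m * (h0 * g)⁻¹) ≤ a h0 →
      Wb h0 r m k = Wb h1 r m k := by
    intro h0 h1 h01 r m k hm
    have ha1 : a h1 = a h0 := hac h1 h0 h01
    have h10 : S.v (h0 * h1⁻¹) ≤ a h0 := by rw [S.v_symm]; exact h01
    by_cases hG0 : h0 ∈ G
    · have hG1 : h1 ∈ G := hG h0 hG0 h1 h10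
      obtain ⟨p1, p2, p3, p4, p5, p6⟩ := hWG h0 hG0
      obtain ⟨q1, q2, q3, q4, q5, q6⟩ := hWG h1 hG1
      obtain ⟨hP1, hP2, hP3, hP4⟩ := hP h0 hG0
      have e0 := hN.ex h0
      have e1 := hN.ex h1
      rw [ha1] at e1 q2
      refine block_uniq (S := S) (a := a h0) (h0 := h0) (g0 := h0 * g) (Y := Y h0) (Y' := Y h1)
        (W := Wb h0) (W' := Wb h1) (fun r => (hY h0 r).nice) (fun r => (p1 r).nice)
        (fun r => (hY h1 r).nice) (fun r => (q1 r).nice)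
        (fun r h k hh => e5_agree e0 e1 h01 r h k hh) p2 ?_ e0.fin e1.fin p3 q3 hP1.nice hP3 hP4
        (fun r => by rw [p6 r]) (fun r => by rw [q6 r]) r m k hm
      intro r
      have hgg : h1 * g * (h0 * g)⁻¹ = h1 * h0⁻¹ := by group
      have := Hom.rebase (q2 r) (h1 := h0 * g) (g1 := h0) (by rw [hgg]; exact h01) h01
      rw [hgg] at this
      have hr : r + S.ψ (a h0) (h1 * h0⁻¹) - S.ψ (a h0) (h1 * h0⁻¹) = r := by ring
      rw [hr] at this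
      exact this
    · have hG1 : h1 ∉ G := fun hc => hG0 (hG h1 hc h0 (by rw [ha1]; exact h01))
      rw [hWN h0 hG0 r, hWN h1 hG1 r]
  -- the operator
  set Z : Op H := fun m k => if S.v (k * (m * g⁻¹)⁻¹) ≤ a (m * g⁻¹) then
    Wb (m * g⁻¹) (S.ψ (a (m * g⁻¹)) (k * (m * g⁻¹)⁻¹)) m k else 0 with hZ
  have hex : ∀ m0, Ex S (a (m0 * g⁻¹)) m0 (m0 * g⁻¹) Z (Wb (m0 * g⁻¹)) := by
    intro m0
    have hm0 : m0 * g⁻¹ * g = m0 := by group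
    have hmm : ∀ m : H, m * g⁻¹ * (m0 * g⁻¹)⁻¹ = m * m0⁻¹ := fun m => by group
    refine ⟨?_, ?_, ?_, ?_⟩
    · intro m k hm hk
      have ha1 : a (m * g⁻¹) = a (m0 * g⁻¹) := hac _ _ (by rw [hmm]; exact hm)
      have hk' : S.v (k * (m * g⁻¹)⁻¹) ≤ a (m * g⁻¹) := by
        by_contra hc
        apply hk
        rw [hZ]
        simp only [if_neg hc]
      rw [ha1] at hk'
      exact S.le_tri hk' (by rw [hmm]; exact hm)
    · intro r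
      have := hhom (m0 * g⁻¹) r
      rwa [hm0] at this
    · intro m k hm hk
      have ha1 : a (m * g⁻¹) = a (m0 * g⁻¹) := hac _ _ (by rw [hmm]; exact hm)
      have h01 : S.v (m * g⁻¹ * (m0 * g⁻¹)⁻¹) ≤ a (m0 * g⁻¹) := by rw [hmm]; exact hm
      have h10 : S.v (m0 * g⁻¹ * (m * g⁻¹)⁻¹) ≤ a (m0 * g⁻¹) := by rw [S.v_symm]; exact h01
      have hk' : S.v (k * (m * g⁻¹)⁻¹) ≤ a (m0 * g⁻¹) := S.le_tri hk h10
      have hZmk : Z m k = Wb (m * g⁻¹) (S.ψ (a (m * g⁻¹)) (k * (m * g⁻¹)⁻¹)) m k := by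
        rw [hZ]
        simp only [if_pos (show S.v (k * (m * g⁻¹)⁻¹) ≤ a (m * g⁻¹) by rw [ha1]; exact hk')]
      have hps : S.ψ (a (m0 * g⁻¹)) (k * (m0 * g⁻¹)⁻¹) =
          S.ψ (a (m0 * g⁻¹)) (k * (m * g⁻¹)⁻¹) + S.ψ (a (m0 * g⁻¹)) (m * m0⁻¹) := by
        rw [S.ψ_tri _ hk' h01, hmm]
      rw [hZmk, ha1, hps, add_sub_cancel_right]
      exact (hagree (m0 * g⁻¹) (m * g⁻¹) h01 _ m k (by rw [hm0]; exact hm)).symm
    · exact hfin (m0 * g⁻¹)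
  refine ⟨Z, fun m => Wb (m * g⁻¹), ⟨?_, ?_, hex⟩, fun m r => hnice _ r, ?_, ?_⟩
  · exact cons_shift hcons g⁻¹
  · intro m k hk
    by_contra hc
    apply hk
    rw [hZ]
    simp only [if_neg hc]
  · intro m hmG
    obtain ⟨p1, p2, p3, p4, p5, p6⟩ := hWG (m * g⁻¹) hmG
    have hm0 : m * g⁻¹ * g = m := by group
    have hM := (Ex.mul (hex m) (hN.ex (m * g⁻¹))
      (fun i j => Nice.ff (p1 i).nice (hY (m * g⁻¹) j).nice)).2
    rw [hm0] at hM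
    have hmm : S.v (m * m⁻¹) ≤ a (m * g⁻¹) := by
      rw [mul_inv_cancel, S.v_one]
      exact bot_le
    funext k
    by_cases hk : S.v (k * m⁻¹) ≤ a (m * g⁻¹)
    · rw [hM.eq m k hmm hk, p6]
      split_ifs with h0
      · rfl
      · rw [e5_one]
        · rfl
        · rintro rfl
          exact h0 (sub_self _)
    · rw [e5_one]
      · by_contra hne
        exact hk (hM.supp m k hmm hne)
      · rintro rfl
        exact hk hmm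
  · intro m hmG
    obtain ⟨p1, p2, p3, p4, p5, p6⟩ := hWG (m * g⁻¹) hmG
    exact ⟨p4, p5⟩

end Pool.Agent.LIR
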