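import Pool.Agent.LIR.B1
import Pool.Agent.LIR.B4

set_option autoImplicit false

open Pool.Agent.COST

namespace Pool.Agent.LIR

/-!
**[LIR-E6] Finite operators with at least two points are nodes.** PROOF. Let
`α h = x.support.sup (fun s => v (h s s0⁻¹ h⁻¹))` in `WithBot S.Λ`; it is not `⊥` because
`h s1 s0⁻¹ h⁻¹ ≠ 1`; `a h` its value. Consistent: `cons_max`, `cons_conj` (induction on the support).
`supp`: `k = h s`. `ex`: `fin_ex`. Card: some `s ∈ x.support` has `v (h0 s s0⁻¹ h0⁻¹) = a h0`, so its level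
`ψ (a h0) (..)` is not `0`, while the level of `s0` is `0`: two different levels, so every level is a
proper part of the support.
-/

theorem E6_cons {H : Type} [Group H] {S : JS H} (s0 : H) (T : Finset H) :
    Cons S (fun h => T.sup (fun s => S.v (h * (s * s0⁻¹) * h⁻¹))) := by
  classical
  induction T using Finset.induction_on with
  | empty => intro h h0 _; simp
  | insert s T _ ih =>
    have h1 := cons_max (cons_conj S (s * s0⁻¹)) ih
    intro h h0 hh
    simp only [Finset.sup_insert]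
    refine h1 h h0 ?_
    simpa only [Finset.sup_insert] using hh

theorem fin_node {H : Type} [Group H] {S : JS H} (x : H →₀ ℂ) (s0 s1 : H)
    (h0 : s0 ∈ x.support) (h1 : s1 ∈ x.support) (hne : s0 ≠ s1) :
    ∃ a : H → S.Λ, Node S (finOp x) s0 a (fun h r => finOp (lev S x (a h) h s0 r)) ∧
      ∀ h r, (lev S x (a h) h s0 r).support.card < x.support.card := by
  classical
  set α : H → WithBot S.Λ := fun h => x.support.sup (fun s => S.v (h * (s * s0⁻¹) * h⁻¹)) with hα
  have hle : ∀ h, ∀ s ∈ x.support, S.v (h * s * s0⁻¹ * h⁻¹) ≤ α h := by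
    intro h s hs
    have h2 : S.v (h * (s * s0⁻¹) * h⁻¹) ≤ α h :=
      Finset.le_sup (f := fun s => S.v (h * (s * s0⁻¹) * h⁻¹)) hs
    rwa [← mul_assoc] at h2
  have hbot : ∀ h, α h ≠ ⊥ := by
    intro h hb
    have h2 := hle h s1 h1
    rw [hb, le_bot_iff, S.v_bot] at h2
    apply hne
    have h3 : s1 * s0⁻¹ = 1 := by
      have h4 : h * (s1 * s0⁻¹) * h⁻¹ = 1 := by rw [← mul_assoc]; exact h2
      have h5 : s1 * s0⁻¹ = h⁻¹ * (h * (s1 * s0⁻¹) * h⁻¹) * h := by group
      rw [h5, h4]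
      group
    exact (mul_inv_eq_one.1 h3).symm
  let a : H → S.Λ := fun h => (α h).unbot (hbot h)
  have ha : ∀ h, (a h : WithBot S.Λ) = α h := fun h => WithBot.coe_unbot _ _
  refine ⟨a, ⟨?_, ?_, ?_⟩, ?_⟩
  · have h2 : (fun h => (a h : WithBot S.Λ)) = α := funext ha
    rw [h2]
    exact E6_cons s0 x.support
  · intro h k hk
    have h2 : h⁻¹ * k ∈ x.support := Finsupp.mem_support_iff.2 hk
    have h3 := hle h _ h2
    rw [ha]
    have h4 : k * (h * s0)⁻¹ = h * (h⁻¹ * k) * s0⁻¹ * h⁻¹ := by group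
    rw [h4]
    exact h3
  · intro g
    refine fin_ex x (a g) g s0 ?_
    intro s hs
    rw [ha]
    exact hle g s hs
  · intro h r
    have hone : S.v (h * s0 * s0⁻¹ * h⁻¹) = ⊥ := by
      rw [S.v_bot]
      group
    have hψ0 : S.ψ (a h) (h * s0 * s0⁻¹ * h⁻¹) = 0 := by
      rw [S.ψ_zero]
      · rw [hone]
        exact WithBot.bot_lt_coe _
      · rw [hone]
        exact bot_le
    obtain ⟨s, hs, hs2⟩ := Finset.exists_mem_eq_sup x.support ⟨s0, h0⟩
      (fun s => S.v (h * (s * s0⁻¹) * h⁻¹))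
    have hs3 : S.v (h * s * s0⁻¹ * h⁻¹) = a h := by
      rw [ha, hα]
      change _ = x.support.sup (fun s => S.v (h * (s * s0⁻¹) * h⁻¹))
      rw [hs2, ← mul_assoc]
    have hψs : S.ψ (a h) (h * s * s0⁻¹ * h⁻¹) ≠ 0 := by
      intro h2
      rw [S.ψ_zero _ _ hs3.le, hs3] at h2
      exact lt_irrefl _ h2
    apply Finset.card_lt_card
    have hsup : (lev S x (a h) h s0 r).support =
        x.support.filter (fun s => S.ψ (a h) (h * s * s0⁻¹ * h⁻¹) = r) := by
      unfold lev
      rw [Finsupp.support_filter]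
    rw [hsup, Finset.filter_ssubset]
    by_cases hr : r = 0
    · exact ⟨s, hs, by rw [hr]; exact hψs⟩
    · exact ⟨s0, h0, by rw [hψ0]; exact fun h => hr h.symm⟩

end Pool.Agent.LIR
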