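import Pool.Agent.LIR.C3
import Pool.Agent.LIR.E5
import Pool.Agent.LIR.E6

set_option autoImplicit false

open Pool.Agent.COST

namespace Pool.Agent.LIR

/-!
Nonzero rational nice operators are invertible.
-/

theorem oneOp_ne {H : Type} [Group H] (h : H) : (oneOp : Op H) h ≠ 0 := by
  intro h0
  have h1 := congrFun h0 h
  change (Finsupp.single (1 : H) (1 : ℂ)) (h⁻¹ * h) = 0 at h1
  rw [inv_mul_cancel, Finsupp.single_eq_same] at h1
  exact one_ne_zero h1

theorem two_sided {H : Type} [Group H] {S : JS H} {Q : Op H → Prop} (hQ : Closed S Q)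
    {X : Op H} {g : H} {a : H → S.Λ} {Y : H → ℝ → Op H} (hN : Node S X g a Y)
    (hY : ∀ h0 r, NiceP S Q (Y h0 r)) (r0 : H → ℝ) (P : H → Op H)
    (hP : ∀ h, NiceP S Q (P h) ∧ mulOp (P h) (Y h (r0 h)) = oneOp ∧
      mulOp (Y h (r0 h)) (P h) = oneOp ∧ ∀ r, r < r0 h → Y h r = 0) :
    ∃ (Z : Op H) (W : H → ℝ → Op H), Node S Z g⁻¹ (fun m => a (m * g⁻¹)) W ∧
      (∀ m r, NiceP S Q (W m r)) ∧ mulOp Z X = oneOp ∧ mulOp X Z = oneOp := by
  obtain ⟨Z, W, hNZ, hWZ, hZX, hlead⟩ := left_inv hQ hN hY Set.univ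
    (fun _ _ _ _ => Set.mem_univ _) r0 P (fun h _ => hP h)
  have hZX' : mulOp Z X = oneOp := by
    funext m
    exact hZX m (Set.mem_univ _)
  have hXn : Nice S X := NiceP.node X g a Y hN (fun h r => (hY h r).nice) trivial
  have hZn : Nice S Z := NiceP.node Z g⁻¹ _ W hNZ (fun m r => (hWZ m r).nice) trivial
  obtain ⟨Z', W', hN', hW', hZ'Z, _⟩ := left_inv (Closed.true S) hNZ
    (fun m r => (hWZ m r).nice) Set.univ (fun _ _ _ _ => Set.mem_univ _)
    (fun m => -(r0 (m * g⁻¹))) (fun m => Y (m * g⁻¹) (r0 (m * g⁻¹))) (by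
      intro m _
      obtain ⟨h1, h2⟩ := hlead m (Set.mem_univ _)
      obtain ⟨_, h4, h5, _⟩ := hP (m * g⁻¹)
      refine ⟨(hY _ _).nice, ?_, ?_, h2⟩
      · rw [h1, h5]
      · rw [h1, h4])
  have hZ'Z' : mulOp Z' Z = oneOp := by
    funext m
    exact hZ'Z m (Set.mem_univ _)
  have hZ'n : Nice S Z' := NiceP.node Z' _ _ W' hN' (fun m r => hW' m r) trivial
  have hZ'X : Z' = X := by
    have h1 := nice_assoc hZ'n hZn hXn
    rw [hZ'Z', hZX', one_mulOp, mulOp_one] at h1
    exact h1.symm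
  rw [hZ'X] at hZ'Z'
  exact ⟨Z, W, hNZ, hWZ, hZX', hZ'Z'⟩

theorem step {H : Type} [Group H] [Countable H] {S : JS H} {X : Op H} {g : H} {a : H → S.Λ}
    {Y : H → ℝ → Op H} (hN : Node S X g a Y) (hY : ∀ h0 r, NQ S (Y h0 r)) (hX : Rat S X)
    (hI : ∀ h0 r, Y h0 r ≠ 0 → ∃ Z, NQ S Z ∧ mulOp Z (Y h0 r) = oneOp ∧
      mulOp (Y h0 r) Z = oneOp) (hne : X ≠ 0) :
    ∃ Z, NQ S Z ∧ mulOp Z X = oneOp ∧ mulOp X Z = oneOp := by
  classical
  have hb1 : ∀ (h : H) (b : S.Λ), S.v (h * h⁻¹) ≤ b := by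
    intro h b
    rw [mul_inv_cancel, JS.v_one]
    exact bot_le
  -- the lowest piece
  have h1 : ∀ h, X h ≠ 0 → ∃ r0, Y h r0 ≠ 0 ∧ ∀ r, r < r0 → Y h r = 0 := by
    intro h hh
    obtain ⟨k, hk⟩ := Function.ne_iff.mp hh
    have hk0 : X h k ≠ 0 := hk
    have h2 := (hN.ex h).supp h k (hb1 h _) hk0
    have h3 := (hN.ex h).eq h k (hb1 h _) h2
    set r1 : ℝ := S.ψ (a h) (k * (h * g)⁻¹) - S.ψ (a h) (h * h⁻¹) with hr1
    have h4 : Y h r1 ≠ 0 := by
      intro h5
      rw [h5] at h3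
      exact hk0 h3
    have h5 := (hN.ex h).fin r1
    obtain ⟨r0, ⟨hr0, hr0'⟩, hmin⟩ := Set.exists_min_image _ (fun r : ℝ => r) h5 ⟨r1, le_rfl, h4⟩
    refine ⟨r0, hr0', ?_⟩
    intro r hr
    by_contra hne'
    have h6 := hmin r ⟨hr.le.trans hr0, hne'⟩
    exact absurd hr (not_lt.mpr h6)
  let r0 : H → ℝ := fun h => if hh : X h ≠ 0 then (h1 h hh).choose else 0
  have hr0 : ∀ h, X h ≠ 0 → Y h (r0 h) ≠ 0 ∧ ∀ r, r < r0 h → Y h r = 0 := by
    intro h hh
    have e : r0 h = (h1 h hh).choose := dif_pos hh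
    rw [e]
    exact (h1 h hh).choose_spec
  let P : H → Op H := fun h => if hh : X h ≠ 0 then (hI h (r0 h) (hr0 h hh).1).choose else 0
  have hP : ∀ h, X h ≠ 0 → NQ S (P h) ∧ mulOp (P h) (Y h (r0 h)) = oneOp ∧
      mulOp (Y h (r0 h)) (P h) = oneOp := by
    intro h hh
    have e : P h = (hI h (r0 h) (hr0 h hh).1).choose := dif_pos hh
    rw [e]
    exact (hI h (r0 h) (hr0 h hh).1).choose_spec
  -- the good set is closed
  have hG : ∀ h ∈ {h | X h ≠ 0}, ∀ h0, S.v (h * h0⁻¹) ≤ a h → h0 ∈ {h | X h ≠ 0} := by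
    intro h hh h0 hv
    have hv' : S.v (h0 * h⁻¹) ≤ a h := by
      rw [JS.v_symm]
      exact hv
    have h2 : Y h (r0 h) h0 ≠ 0 := by
      intro h3
      have h4 := congrFun (hP h hh).2.2 h0
      apply oneOp_ne h0
      rw [← h4]
      change rowMul (Y h (r0 h) h0) (P h) = 0
      rw [h3]
      funext k
      change ∑ᶠ m, (0 : ℂ) * P h m k = 0
      simp
    obtain ⟨k, hk⟩ := Function.ne_iff.mp h2
    have hk0 : Y h (r0 h) h0 k ≠ 0 := hk
    obtain ⟨h3, h4⟩ := (hN.ex h).hom (r0 h) h0 k hk0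
    have h5 := (hN.ex h).eq h0 k hv' (h3.mp hv')
    have h6 := h4 hv'
    rw [h6, add_sub_cancel_left] at h5
    change X h0 ≠ 0
    intro h7
    rw [h7] at h5
    exact hk0 h5.symm
  have hXn : Nice S X := NiceP.node X g a Y hN (fun h r => (hY h r).nice) trivial
  obtain ⟨Z1, W1, hN1, hW1, hZ1, _⟩ := left_inv (Closed.true S) hN (fun h r => (hY h r).nice)
    {h | X h ≠ 0} hG r0 P (fun h hh => ⟨(hP h hh).1.nice, (hP h hh).2.1, (hP h hh).2.2,
      (hr0 h hh).2⟩)
  have hZ1n : Nice S Z1 := NiceP.node Z1 g⁻¹ _ W1 hN1 (fun m r => hW1 m r) trivial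
  have hall : ∀ h, X h ≠ 0 := by
    obtain ⟨h, hh⟩ := Function.ne_iff.mp hne
    have h2 : h * g * g⁻¹ ∈ {h | X h ≠ 0} := by
      rw [mul_inv_cancel_right]
      exact hh
    exact rat_coh hX hZ1n (h * g) (hZ1 (h * g) h2)
  obtain ⟨Z, W, hNZ, hWZ, hZX, hXZ⟩ := two_sided (rat_closed S) hN hY r0 P
    (fun h => ⟨(hP h (hall h)).1, (hP h (hall h)).2.1, (hP h (hall h)).2.2, (hr0 h (hall h)).2⟩)
  have hZn : Nice S Z := NiceP.node Z g⁻¹ _ W hNZ (fun m r => (hWZ m r).nice) trivial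
  exact ⟨Z, NiceP.node Z g⁻¹ _ W hNZ hWZ (rat_inv hX hZn hZX), hZX, hXZ⟩

theorem claim_fin {H : Type} [Group H] [Countable H] {S : JS H} (n : ℕ) :
    ∀ x : H →₀ ℂ, x.support.card ≤ n → (finOp x : Op H) ≠ 0 →
      ∃ Z, NQ S Z ∧ mulOp Z (finOp x) = oneOp ∧ mulOp (finOp x) Z = oneOp := by
  classical
  induction n with
  | zero =>
    intro x hx hne
    exfalso
    apply hne
    have h1 : x = 0 := by
      rw [← Finsupp.support_eq_empty]
      exact Finset.card_eq_zero.mp (Nat.le_zero.mp hx)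
    rw [h1, finOp_zero]
  | succ n ih =>
    intro x hx hne
    by_cases h2 : ∃ s0 ∈ x.support, ∃ s1 ∈ x.support, s0 ≠ s1
    · obtain ⟨s0, hs0, s1, hs1, hss⟩ := h2
      obtain ⟨a, hN, hcard⟩ := fin_node (S := S) x s0 s1 hs0 hs1 hss
      refine step hN (fun _ _ => NiceP.fin _) ((rat_closed S).fin x) ?_ hne
      intro h r hr
      exact ih _ (Nat.le_of_lt_succ ((hcard h r).trans_le hx)) hr
    · push Not at h2
      have h3 : x.support.Nonempty := by
        rw [Finset.nonempty_iff_ne_empty]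
        intro h4
        apply hne
        rw [Finsupp.support_eq_empty.mp h4, finOp_zero]
      obtain ⟨s, hs⟩ := h3
      have h4 : x = Finsupp.single s (x s) := by
        ext t
        rw [Finsupp.single_apply]
        split_ifs with hst
        · rw [hst]
        · by_contra hxt
          exact hst (h2 s hs t (Finsupp.mem_support_iff.mpr hxt))
      have hxs : x s ≠ 0 := Finsupp.mem_support_iff.mp hs
      generalize x s = c at h4 hxs
      subst h4
      refine ⟨finOp (Finsupp.single s⁻¹ c⁻¹), NiceP.fin _, ?_, ?_⟩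
      · funext h k
        rw [mulOp_fin_left, Finsupp.sum_single_index (by rw [zero_mul])]
        change c⁻¹ * (Finsupp.single s c) ((h * s⁻¹)⁻¹ * k) =
          (Finsupp.single 1 1) (h⁻¹ * k)
        rw [Finsupp.single_apply, Finsupp.single_apply]
        by_cases hk : h = k
        · rw [if_pos (by rw [hk]; group), if_pos (by rw [hk]; group),
            inv_mul_cancel₀ hxs]
        · rw [if_neg, if_neg, mul_zero]
          · intro h5
            exact hk (inv_mul_eq_one.mp h5.symm)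
          · intro h5
            apply hk
            have h6 : (h * s⁻¹)⁻¹ * k = s * (h⁻¹ * k) := by group
            rw [h6] at h5
            exact inv_mul_eq_one.mp (mul_eq_left.mp h5.symm)
      · funext h k
        rw [mulOp_fin_left, Finsupp.sum_single_index (by rw [zero_mul])]
        change c * (Finsupp.single s⁻¹ c⁻¹) ((h * s)⁻¹ * k) =
          (Finsupp.single 1 1) (h⁻¹ * k)
        rw [Finsupp.single_apply, Finsupp.single_apply]
        by_cases hk : h = k
        · rw [if_pos (by rw [hk]; group), if_pos (by rw [hk]; group),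
            mul_inv_cancel₀ hxs]
        · rw [if_neg, if_neg, mul_zero]
          · intro h5
            exact hk (inv_mul_eq_one.mp h5.symm)
          · intro h5
            apply hk
            have h6 : (h * s)⁻¹ * k = s⁻¹ * (h⁻¹ * k) := by group
            rw [h6] at h5
            exact inv_mul_eq_one.mp (mul_eq_left.mp h5.symm)

/-- Every nonzero rational nice operator is invertible. -/
theorem claim {H : Type} [Group H] [Countable H] {S : JS H} {X : Op H} (hX : NQ S X) :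
    X ≠ 0 → ∃ Z, NQ S Z ∧ mulOp Z X = oneOp ∧ mulOp X Z = oneOp := by
  induction hX with
  | fin x => exact claim_fin x.support.card x le_rfl
  | node X g a Y hN hY hX ih => exact fun hne => step hN hY hX ih hne

end Pool.Agent.LIR
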