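import Pool.Agent.LIR.E7
import Pool.Agent.COST.F0

set_option autoImplicit false

open Pool.Agent.COST

namespace Pool.Agent.LIR

/-!
The division ring of rational nice operators, and the linear algebra data for a jump system.
-/

/-- the ring of rational nice operators -/
noncomputable def nq {H : Type} [Group H] (S : JS H) : Subring (NN S) where
  carrier := {x | NQ S x.op}
  mul_mem' := fun {x y} hx hy =>
    (NiceP.mul (rat_closed S) hx hy : NiceP S (Rat S) (mulOp x.op y.op))
  one_mem' := (NiceP.fin _ : NiceP S (Rat S) (finOp (Finsupp.single 1 1)))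
  add_mem' := fun {x y} hx hy =>
    (NiceP.add (rat_closed S) hx hy : NiceP S (Rat S) (x.op + y.op))
  zero_mem' := (NiceP.zero S _ : NiceP S (Rat S) 0)
  neg_mem' := fun {x} hx => (NiceP.neg (rat_closed S) hx : NiceP S (Rat S) (-x.op))

theorem nq_one_ne {H : Type} [Group H] (S : JS H) : (1 : nq S) ≠ 0 := by
  intro h
  have h1 : (1 : NN S) = 0 := congrArg Subtype.val h
  have h2 : (oneOp : Op H) = 0 := congrArg NN.op h1
  exact oneOp_ne 1 (congrFun h2 1)

theorem nq_unit {H : Type} [Group H] [Countable H] (S : JS H) (x : nq S) : IsUnit x ∨ x = 0 := by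
  by_cases hx : x = 0
  · exact Or.inr hx
  left
  have h1 : x.1.op ≠ 0 := by
    intro h
    apply hx
    apply Subtype.ext
    exact NN.ext h
  obtain ⟨Z, hZ, hZX, hXZ⟩ := claim (x.2 : NQ S x.1.op) h1
  let z : nq S := ⟨⟨Z, hZ.nice⟩, hZ⟩
  have h2 : z * x = 1 := Subtype.ext (NN.ext hZX)
  have h3 : x * z = 1 := Subtype.ext (NN.ext hXZ)
  exact ⟨⟨x, z, h3, h2⟩, rfl⟩

/-- it is a division ring -/
noncomputable abbrev nqDiv {H : Type} [Group H] [Countable H] (S : JS H) : DivisionRing (nq S) :=
  @DivisionRing.ofIsUnitOrEqZero (nq S) ⟨⟨1, 0, nq_one_ne S⟩⟩ inferInstance (nq_unit S)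

/-- image of an element of the group algebra -/
noncomputable def nem {H : Type} [Group H] (S : JS H) (x : H →₀ ℂ) : nq S :=
  ⟨nfin S x, NiceP.fin x⟩

theorem nq_sum {H : Type} [Group H] {S : JS H} {ι : Type} (s : Finset ι) (x : ι → nq S) :
    (∑ i ∈ s, x i).1.op = ∑ i ∈ s, (x i).1.op := by
  rw [← NN.sum_op]
  congr 1
  exact map_sum (nq S).subtype x s

theorem nem_mul {H : Type} [Group H] {S : JS H} (x : nq S) (c : H →₀ ℂ) :
    (x * nem S c).1.op 1 = rc (x.1.op 1) c := mulOp_fin_row _ _ _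

theorem lin_data' {H : Type} [Group H] [Countable H] (S : JS H) {I : Type} [Fintype I]
    (W : Set (I → H →₀ ℂ)) : Nonempty (LinData S W) := by
  obtain ⟨r, w, J, B, hw, hJ, hB, hspan⟩ := @lin_alg (nq S) (nqDiv S) I _
    ((fun v : I → H →₀ ℂ => fun i => nem S (v i)) '' W)
  choose w' hw'W hw' using hw
  have hww : ∀ t i, w t i = nem S (w' t i) := fun t i => (congrFun (hw' t) i).symm
  refine ⟨{
    r := r
    w := w'
    mem := hw'W
    J := J
    inj := hJ
    B := fun t i => (B t i).1.op 1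
    tameB := fun t i => Nice.tame (NQ.nice (B t i).2) 1
    hB := ?_
    span := ?_ }⟩
  · intro t t' h
    have h1 := hB t t'
    have h2 : ∀ i, rc ((B t i).1.op 1) (w' i (J t')) h = (B t i * w i (J t')).1.op 1 h := by
      intro i
      rw [hww, nem_mul]
    simp only [h2]
    rw [← Finset.sum_apply, ← Finset.sum_apply, ← nq_sum, h1]
    unfold kron
    by_cases htt : t = t'
    · rw [if_pos htt]
      change (Finsupp.single (1 : H) (1 : ℂ)) (1⁻¹ * h) = _
      classical
      rw [inv_one, one_mul, Finsupp.single_apply]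
      by_cases hh : h = 1
      · rw [if_pos hh.symm, if_pos ⟨htt, hh⟩]
      · rw [if_neg (fun h3 => hh h3.symm), if_neg (fun h3 => hh h3.2)]
    · simp only [htt, false_and, if_false]
      rfl
  · intro v hv
    obtain ⟨d, hd⟩ := hspan _ ⟨v, hv, rfl⟩
    refine ⟨fun i => (d i).1.op 1, fun i => Nice.tame (NQ.nice (d i).2) 1, fun j h => ?_⟩
    have h2 : ∀ i, rc ((d i).1.op 1) (w' i j) h = (d i * w i j).1.op 1 h := by
      intro i
      rw [hww, nem_mul]
    simp only [h2]
    rw [← Finset.sum_apply, ← Finset.sum_apply, ← nq_sum, hd j]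
    change (v j) (1⁻¹ * h) = _
    rw [inv_one, one_mul]

end Pool.Agent.LIR
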