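import Pool.Agent.LIR.Defs

set_option autoImplicit false

open Pool.Agent.COST

namespace Pool.Agent.LIR

/-!
**[LIR-G1] Finite subsets of a locally indicable group.** PROOF. Strong induction on
`card (F \ {1})`. If `F ⊆ {1}` take `v = 0` (the conditions are trivial; if `g ≠ 1 ∨ h ≠ 1` with
`g, h ∈ F` is impossible). Otherwise let `K` be the subgroup generated by `F` (finitely generated, not
`⊥`), `ψ` the surjection to `Multiplicative ℤ`, `F0 = {g ∈ F | ψ g = 1}`; some element of `F` is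
not in `F0` (otherwise `ψ` is trivial on the generators), so the induction hypothesis gives `v0`
for `F0`. Let `n` be a bound for `v0` on `F0`, `v g = v0 g` for `g ∈ F0` and `v g = n + 1` for
`g ∈ F`, `g ∉ F0` (`v 1 = 0`; other elements arbitrary, for example `n + 1`). Products: if `g, h ∈ F0` and
`g h ∈ F` then `g h ∈ F0`; otherwise the maximum is `n + 1`. Commutators: `ψ` is trivial on them. Powers:
`ψ (g ^ n) = 1` iff `ψ g = 1`.
-/

open Classical in
theorem li_finite_aux {H : Type} [Group H] (hH : LocallyIndicable H) : ∀ (n : ℕ) (F : Finset H),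
    (F.erase 1).card ≤ n → ∃ v : H → ℕ, v 1 = 0 ∧ (∀ g ∈ F, v g = 0 → g = 1) ∧ (∀ g ∈ F, g⁻¹ ∈ F → v g⁻¹ = v g) ∧
      (∀ g ∈ F, ∀ h ∈ F, g * h ∈ F → v (g * h) ≤ max (v g) (v h)) ∧
      (∀ g ∈ F, ∀ h ∈ F, g * h * g⁻¹ * h⁻¹ ∈ F → (g ≠ 1 ∨ h ≠ 1) →
        v (g * h * g⁻¹ * h⁻¹) < max (v g) (v h)) ∧
      ∀ g ∈ F, ∀ n : ℕ, 0 < n → g ^ n ∈ F → v (g ^ n) = v g := by
  intro n
  induction n with
  | zero =>
    intro F hF
    have h1 : ∀ g ∈ F, g = 1 := by
      intro g hg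
      by_contra hne
      have : g ∈ F.erase 1 := Finset.mem_erase.2 ⟨hne, hg⟩
      rw [Finset.card_eq_zero.1 (Nat.le_zero.1 hF)] at this
      simp at this
    refine ⟨fun _ => 0, rfl, fun g hg _ => h1 g hg, fun _ _ _ => rfl, fun _ _ _ _ _ => by simp,
      fun g hg h hh _ hne => ?_, fun _ _ _ _ _ => rfl⟩
    rcases hne with hne | hne
    · exact absurd (h1 g hg) hne
    · exact absurd (h1 h hh) hne
  | succ n ih =>
    intro F hF
    by_cases h1 : ∀ g ∈ F, g = 1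
    · refine ⟨fun _ => 0, rfl, fun g hg _ => h1 g hg, fun _ _ _ => rfl, fun _ _ _ _ _ => by simp,
        fun g hg h hh _ hne => ?_, fun _ _ _ _ _ => rfl⟩
      rcases hne with hne | hne
      · exact absurd (h1 g hg) hne
      · exact absurd (h1 h hh) hne
    push Not at h1
    obtain ⟨g0, hg0, hg01⟩ := h1
    obtain ⟨K, hK⟩ : ∃ K, K = Subgroup.closure (F : Set H) := ⟨_, rfl⟩
    have hFK : ∀ g ∈ F, g ∈ K := fun g hg => by rw [hK]; exact Subgroup.subset_closure hg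
    have hfg : K.FG := ⟨F, hK.symm⟩
    have hbot : K ≠ ⊥ := by
      intro h
      have := hFK g0 hg0
      rw [h, Subgroup.mem_bot] at this
      exact hg01 this
    obtain ⟨ψ, hψ⟩ := hH K hfg hbot
    obtain ⟨Q, hQ⟩ : ∃ Q : H → Prop, Q = fun g => ∃ hg : g ∈ K, ψ ⟨g, hg⟩ = 1 := ⟨_, rfl⟩
    have hQi : ∀ g, Q g ↔ ∃ hg : g ∈ K, ψ ⟨g, hg⟩ = 1 := fun g => by rw [hQ]
    have Q1 : Q 1 := (hQi 1).2 ⟨K.one_mem, map_one ψ⟩
    have Qmul : ∀ g h, Q g → Q h → Q (g * h) := by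
      intro g h a b
      obtain ⟨a1, a2⟩ := (hQi g).1 a
      obtain ⟨b1, b2⟩ := (hQi h).1 b
      refine (hQi _).2 ⟨K.mul_mem a1 b1, ?_⟩
      have : (⟨g * h, K.mul_mem a1 b1⟩ : K) = ⟨g, a1⟩ * ⟨h, b1⟩ := rfl
      rw [this, map_mul, a2, b2, mul_one]
    have Qinv : ∀ g, Q g → Q g⁻¹ := by
      intro g a
      obtain ⟨a1, a2⟩ := (hQi g).1 a
      refine (hQi _).2 ⟨K.inv_mem a1, ?_⟩
      have : (⟨g⁻¹, K.inv_mem a1⟩ : K) = (⟨g, a1⟩ : K)⁻¹ := rfl
      rw [this, map_inv, a2, inv_one]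
    have Qcomm : ∀ g h, g ∈ K → h ∈ K → Q (g * h * g⁻¹ * h⁻¹) := by
      intro g h a b
      refine (hQi _).2 ⟨K.mul_mem (K.mul_mem (K.mul_mem a b) (K.inv_mem a)) (K.inv_mem b), ?_⟩
      have : (⟨g * h * g⁻¹ * h⁻¹, K.mul_mem (K.mul_mem (K.mul_mem a b) (K.inv_mem a)) (K.inv_mem b)⟩ : K) =
        ⟨g, a⟩ * ⟨h, b⟩ * (⟨g, a⟩ : K)⁻¹ * (⟨h, b⟩ : K)⁻¹ := rfl
      rw [this, map_mul, map_mul, map_mul, map_inv, map_inv, mul_comm (ψ ⟨g, a⟩), mul_inv_cancel_right,
        mul_inv_cancel]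
    have Qpow : ∀ g, g ∈ K → ∀ m : ℕ, 0 < m → (Q (g ^ m) ↔ Q g) := by
      intro g a m hm
      have e : ∀ hg : g ^ m ∈ K, ψ ⟨g ^ m, hg⟩ = ψ ⟨g, a⟩ ^ m := fun hg => by
        rw [← map_pow]
        rfl
      constructor
      · intro h
        obtain ⟨b1, b2⟩ := (hQi _).1 h
        rw [e b1] at b2
        refine (hQi _).2 ⟨a, ?_⟩
        have h2 : (m : ℤ) * Multiplicative.toAdd (ψ ⟨g, a⟩) = 0 := by
          have h3 := congrArg Multiplicative.toAdd b2
          rw [toAdd_pow, toAdd_one, nsmul_eq_mul] at h3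
          exact h3
        rcases mul_eq_zero.1 h2 with h3 | h3
        · exact absurd h3 (by exact_mod_cast hm.ne')
        · exact Multiplicative.toAdd.injective (by rw [h3, toAdd_one])
      · intro h
        obtain ⟨b1, b2⟩ := (hQi _).1 h
        refine (hQi _).2 ⟨K.pow_mem a m, ?_⟩
        rw [e, b2, one_pow]
    -- some element of `F` is not in the kernel
    have hex : ∃ g ∈ F, ¬ Q g := by
      by_contra hcon
      push Not at hcon
      have hall : ∀ g (hg : g ∈ K), ψ ⟨g, hg⟩ = 1 := by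
        intro g hg
        have h2 : Q g := by
          have hg' := hg
          rw [hK] at hg'
          refine Subgroup.closure_induction (p := fun g _ => Q g) (fun g hg => hcon g hg) Q1
            (fun g h _ _ a b => Qmul g h a b) (fun g _ a => Qinv g a) hg'
        exact ((hQi g).1 h2).2
      obtain ⟨k, hk⟩ := hψ (Multiplicative.ofAdd 1)
      have h3 := hall k.1 k.2
      rw [show (⟨k.1, k.2⟩ : K) = k from rfl, hk] at h3
      have h4 := congrArg Multiplicative.toAdd h3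
      simp at h4
    obtain ⟨g1, hg1, hQ1⟩ := hex
    obtain ⟨F0, hF0⟩ : ∃ F0, F0 = F.filter Q := ⟨_, rfl⟩
    have mF0 : ∀ g, g ∈ F0 ↔ g ∈ F ∧ Q g := fun g => by rw [hF0, Finset.mem_filter]
    have hlt : (F0.erase 1).card < (F.erase 1).card := by
      refine Finset.card_lt_card ⟨Finset.erase_subset_erase _ fun g hg => ((mF0 g).1 hg).1, fun hs => ?_⟩
      have hg11 : g1 ≠ 1 := fun e => hQ1 (e ▸ Q1)
      have := hs (Finset.mem_erase.2 ⟨hg11, hg1⟩)
      exact hQ1 ((mF0 g1).1 (Finset.mem_erase.1 this).2).2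
    obtain ⟨v0, w1, w2, w3, w4, w5, w6⟩ := ih F0 (by omega)
    obtain ⟨N, hN⟩ : ∃ N, N = F0.sup v0 := ⟨_, rfl⟩
    have hNle : ∀ g ∈ F0, v0 g ≤ N := fun g hg => by rw [hN]; exact Finset.le_sup hg
    obtain ⟨v, hv⟩ : ∃ v : H → ℕ, v = fun g => if g = 1 then 0 else if g ∈ F0 then v0 g else N + 1 := ⟨_, rfl⟩
    have v1 : v 1 = 0 := by rw [hv]; simp
    have e0 : ∀ g ∈ F0, v g = v0 g := by
      intro g hg
      by_cases h : g = 1
      · rw [h, v1, w1]
      · rw [hv]; simp [h, hg]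
    have e1 : ∀ g ∈ F, ¬ Q g → v g = N + 1 := by
      intro g hg hq
      have h : g ≠ 1 := fun e => hq (e ▸ Q1)
      have h' : g ∉ F0 := fun e => hq ((mF0 g).1 e).2
      rw [hv]; simp [h, h']
    have le1 : ∀ g ∈ F, v g ≤ N + 1 := by
      intro g hg
      by_cases hq : Q g
      · have h := (mF0 g).2 ⟨hg, hq⟩
        rw [e0 g h]
        exact (hNle g h).trans (Nat.le_succ N)
      · rw [e1 g hg hq]
    refine ⟨v, v1, ?_, ?_, ?_, ?_, ?_⟩
    · intro g hg h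
      by_cases hq : Q g
      · have h2 := (mF0 g).2 ⟨hg, hq⟩
        rw [e0 g h2] at h
        exact w2 g h2 h
      · rw [e1 g hg hq] at h
        omega
    · intro g hg hg'
      by_cases hq : Q g
      · have h2 := (mF0 g).2 ⟨hg, hq⟩
        have h3 := (mF0 _).2 ⟨hg', Qinv g hq⟩
        rw [e0 g h2, e0 _ h3]
        exact w3 g h2 h3
      · have h4 : ¬ Q g⁻¹ := fun h => hq (by simpa using Qinv _ h)
        rw [e1 g hg hq, e1 _ hg' h4]
    · intro g hg h hh hgh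
      by_cases hq : Q g
      · by_cases hq' : Q h
        · have h2 := (mF0 g).2 ⟨hg, hq⟩
          have h3 := (mF0 h).2 ⟨hh, hq'⟩
          have h4 := (mF0 _).2 ⟨hgh, Qmul g h hq hq'⟩
          rw [e0 g h2, e0 _ h3, e0 _ h4]
          exact w4 g h2 h h3 h4
        · exact (le1 _ hgh).trans (by rw [e1 h hh hq']; exact le_max_right _ _)
      · exact (le1 _ hgh).trans (by rw [e1 g hg hq]; exact le_max_left _ _)
    · intro g hg h hh hgh hne
      have h4 := (mF0 _).2 ⟨hgh, Qcomm g h (hFK g hg) (hFK h hh)⟩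
      have h5 := hNle _ h4
      rw [e0 _ h4]
      by_cases hq : Q g
      · by_cases hq' : Q h
        · have h2 := (mF0 g).2 ⟨hg, hq⟩
          have h3 := (mF0 h).2 ⟨hh, hq'⟩
          rw [e0 g h2, e0 _ h3]
          exact w5 g h2 h h3 h4 hne
        · rw [e1 h hh hq']
          exact lt_of_lt_of_le (Nat.lt_succ_of_le h5) (le_max_right _ _)
      · rw [e1 g hg hq]
        exact lt_of_lt_of_le (Nat.lt_succ_of_le h5) (le_max_left _ _)
    · intro g hg m hm hgm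
      have h2 := Qpow g (hFK g hg) m hm
      by_cases hq : Q g
      · have h3 := (mF0 g).2 ⟨hg, hq⟩
        have h4 := (mF0 _).2 ⟨hgm, h2.2 hq⟩
        rw [e0 g h3, e0 _ h4]
        exact w6 g h3 m hm h4
      · rw [e1 g hg hq, e1 _ hgm fun h => hq (h2.1 h)]

theorem li_finite {H : Type} [Group H] (hH : LocallyIndicable H) (F : Finset H) :
    ∃ v : H → ℕ, v 1 = 0 ∧ (∀ g ∈ F, v g = 0 → g = 1) ∧ (∀ g ∈ F, g⁻¹ ∈ F → v g⁻¹ = v g) ∧
      (∀ g ∈ F, ∀ h ∈ F, g * h ∈ F → v (g * h) ≤ max (v g) (v h)) ∧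
      (∀ g ∈ F, ∀ h ∈ F, g * h * g⁻¹ * h⁻¹ ∈ F → (g ≠ 1 ∨ h ≠ 1) →
        v (g * h * g⁻¹ * h⁻¹) < max (v g) (v h)) ∧
      ∀ g ∈ F, ∀ n : ℕ, 0 < n → g ^ n ∈ F → v (g ^ n) = v g := by
  classical
  exact li_finite_aux hH (F.erase 1).card F le_rfl

end Pool.Agent.LIR
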