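import Pool.Agent.LIR.G1

set_option autoImplicit false

open Pool.Agent.COST

namespace Pool.Agent.LIR

/-!
**[LIR-G2] The limit.** PROOF. Let `v F` be the function of `li_finite` for the finite set `F`, `𝒰` an
ultrafilter on `Finset H` with `𝒰 ≤ atTop` (`Ultrafilter.of`), and
`R g h := ∀ᶠ F in 𝒰, v F g ≤ v F h`. Every fixed finite set of elements of `H` is eventually contained
in `F`. Totality: `Ultrafilter.eventually_or`. Commutators: if `g = h = 1` then `R k 1` would give
`k = 1`. Otherwise eventually `v F (commutator) < max (v F g) (v F h) ≤ v F k`, so not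
`v F k ≤ v F (commutator)`.
-/

/-- the relation `v g ≤ v h` of a jump system -/
structure LIRel {H : Type} [Group H] (R : H → H → Prop) : Prop where
  total : ∀ g h, R g h ∨ R h g
  trans : ∀ g h k, R g h → R h k → R g k
  one : ∀ g, R g 1 → g = 1
  bot : ∀ g, R 1 g
  inv : ∀ g, R g⁻¹ g
  mul : ∀ g h k, R g k → R h k → R (g * h) k
  comm : ∀ g h k, k ≠ 1 → R g k → R h k → ¬ R k (g * h * g⁻¹ * h⁻¹)
  pow : ∀ (g : H) (n : ℕ), 0 < n → R g (g ^ n)

theorem li_rel {H : Type} [Group H] (hH : LocallyIndicable H) :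
    ∃ R : H → H → Prop, LIRel R := by
  classical
  choose v hv using li_finite hH
  let U : Ultrafilter (Finset H) := Ultrafilter.of Filter.atTop
  have hU : (U : Filter (Finset H)) ≤ Filter.atTop := Ultrafilter.of_le _
  have ev : ∀ g : H, ∀ᶠ F in (U : Filter (Finset H)), g ∈ F := fun g =>
    ((Filter.eventually_ge_atTop ({g} : Finset H)).mono fun F (hF : ({g} : Finset H) ⊆ F) =>
      hF (Finset.mem_singleton_self g)).filter_mono hU
  have h1 : ∀ F, v F 1 = 0 := fun F => (hv F).1
  refine ⟨fun g h => ∀ᶠ F in (U : Filter (Finset H)), v F g ≤ v F h, ?_, ?_, ?_, ?_, ?_, ?_, ?_, ?_⟩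
  · intro g h
    exact Ultrafilter.eventually_or.1 (Filter.Eventually.of_forall fun F => le_total _ _)
  · intro g h k h2 h3
    filter_upwards [h2, h3] with F h4 h5
    exact h4.trans h5
  · intro g h2
    obtain ⟨F, h3, h4⟩ := (h2.and (ev g)).exists
    exact (hv F).2.1 g h4 (by have := h1 F; omega)
  · intro g
    exact Filter.Eventually.of_forall fun F => by rw [h1 F]; exact Nat.zero_le _
  · intro g
    filter_upwards [ev g, ev g⁻¹] with F h2 h3
    exact ((hv F).2.2.1 g h2 h3).le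
  · intro g h k h2 h3
    filter_upwards [h2, h3, ev g, ev h, ev (g * h)] with F h4 h5 h6 h7 h8
    exact ((hv F).2.2.2.1 g h6 h h7 h8).trans (max_le h4 h5)
  · intro g h k hk h2 h3 h4
    by_cases hgh : g ≠ 1 ∨ h ≠ 1
    · obtain ⟨F, ⟨⟨⟨⟨⟨h5, h6⟩, h7⟩, h8⟩, h9⟩, h10⟩⟩ :=
        (((((h2.and h3).and h4).and (ev g)).and (ev h)).and (ev (g * h * g⁻¹ * h⁻¹))).exists
      have h11 := (hv F).2.2.2.2.1 g h8 h h9 h10 hgh
      have h12 := max_le h5 h6
      omega
    · push Not at hgh
      obtain ⟨rfl, rfl⟩ := hgh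
      obtain ⟨F, h5, h6⟩ := (h4.and (ev k)).exists
      refine hk ((hv F).2.1 k h6 ?_)
      have := h1 F
      simp only [mul_one, inv_one] at h5
      omega
  · intro g n hn
    filter_upwards [ev g, ev (g ^ n)] with F h2 h3
    exact ((hv F).2.2.2.2.2 g h2 n hn h3).ge

end Pool.Agent.LIR
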