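import Pool.Agent.LIR.Defs

set_option autoImplicit false

open Pool.Agent.COST

namespace Pool.Agent.LIR

/-!
**[LIR-G3] Torsion-free countable abelian groups embed into the reals.** PROOF. Let `V = ℚ ⊗ A` (or the
localization of the `ℤ`-module `A` at the nonzero integers); `A → V` is injective because `A` is
torsion-free. `V` is a countable `ℚ`-vector space, so its rank is at most `ℵ₀`, and the rank of `ℝ` over
`ℚ` is the continuum (`Real.rank_rat_real` or: `ℝ` is uncountable), so there is an injective linear map
`V → ℝ` (`LinearMap.exists..` from a basis of `V` to a linearly independent family in `ℝ`: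
`rank_le` gives an injection of the index sets).
-/

theorem embed_real {A : Type} [AddCommGroup A] [Countable A]
    (htf : ∀ (n : ℕ) (x : A), 0 < n → n • x = 0 → x = 0) :
    ∃ f : A →+ ℝ, Function.Injective f := by
  haveI : IsAddTorsionFree A := by
    refine ⟨fun n hn x y hxy => ?_⟩
    have h1 : n • (x - y) = 0 := by
      rw [smul_sub]
      simpa [sub_eq_zero] using hxy
    exact sub_eq_zero.1 (htf n _ (Nat.pos_of_ne_zero hn) h1)
  haveI : Countable (DivisibleHull A) := by
    have hs : Function.Surjective (fun p : A × ℕ+ => (DivisibleHull.mk p.1 p.2 : DivisibleHull A)) := by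
      intro x
      induction x using DivisibleHull.ind with
      | mk a s => exact ⟨(a, s), rfl⟩
    exact hs.countable
  have h1 : Module.rank ℚ (DivisibleHull A) ≤ Cardinal.aleph0 :=
    (rank_le_card ℚ (DivisibleHull A)).trans (Cardinal.mk_le_aleph0)
  have h2 : Cardinal.aleph0 ≤ Module.rank ℚ ℝ := by
    by_contra hcon
    push Not at hcon
    haveI : Module.Finite ℚ ℝ := Module.rank_lt_aleph0_iff.1 hcon
    have : Countable ℝ := by
      have e := (Module.finBasis ℚ ℝ).equivFun.toEquiv
      exact e.injective.countable
    exact not_countable this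
  obtain ⟨f, hf⟩ := rank_le_iff_exists_linearMap.1 (h1.trans h2)
  refine ⟨f.toAddMonoidHom.comp (DivisibleHull.coeAddMonoidHom A), ?_⟩
  intro x y hxy
  exact DivisibleHull.coe_injective (hf hxy)

end Pool.Agent.LIR
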