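import Pool.Agent.LIR.G2
import Pool.Agent.LIR.G3

set_option autoImplicit false

open Pool.Agent.COST

namespace Pool.Agent.LIR

/-!
**[LIR-G4] The homomorphisms of the jumps.** PROOF. For `k ≠ 1` let `L = {g | R g k}` and
`M = {g | ¬ R k g}`: `L` is a subgroup (`mul`, `inv`, `bot`), `M ≤ L` (`total`) is a subgroup: if
`g, h ∈ M`, say `R h g` (`total`), then `R (g h) g` by `mul`, so `R k (g h)` would give `R k g`; inverses:
`R g⁻¹ g`. Commutators of elements of `L` are in `M` (`comm`), so `M` is normal in `L` and `L ⧸ M` is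
abelian; it is torsion-free (`pow`: `g ^ n ∈ M` gives `g ∈ M`) and countable; `embed_real` for
`Additive (L ⧸ M)`. Extend by `0` outside `L`.
-/

/-- the subgroup `{g | R g k}` -/
def jL {H : Type} [Group H] {R : H → H → Prop} (hR : LIRel R) (k : H) : Subgroup H where
  carrier := {g | R g k}
  mul_mem' := fun {a b} ha hb => hR.mul a b k ha hb
  one_mem' := hR.bot k
  inv_mem' := fun {a} ha => hR.trans _ _ _ (hR.inv a) ha

/-- the subgroup `{g | ¬ R k g}` of `jL` -/
def jM {H : Type} [Group H] {R : H → H → Prop} (hR : LIRel R) (k : H) (hk : k ≠ 1) :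
    Subgroup (jL hR k) where
  carrier := {g | ¬ R k g.1}
  mul_mem' := fun {a b} ha hb => by
    intro h
    have hra : R a.1 a.1 := (hR.total a.1 a.1).elim id id
    have hrb : R b.1 b.1 := (hR.total b.1 b.1).elim id id
    rcases hR.total a.1 b.1 with hab | hba
    · exact hb (hR.trans _ _ _ h (hR.mul a.1 b.1 b.1 hab hrb))
    · exact ha (hR.trans _ _ _ h (hR.mul a.1 b.1 a.1 hra hba))
  one_mem' := fun h => hk (hR.one k h)
  inv_mem' := fun {a} ha h => ha (hR.trans _ _ _ h (hR.inv a.1))

theorem jM_mem {H : Type} [Group H] {R : H → H → Prop} (hR : LIRel R) (k : H) (hk : k ≠ 1)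
    (g : jL hR k) : g ∈ jM hR k hk ↔ ¬ R k g.1 := Iff.rfl

theorem jM_comm {H : Type} [Group H] {R : H → H → Prop} (hR : LIRel R) (k : H) (hk : k ≠ 1)
    (g h : jL hR k) : g * h * g⁻¹ * h⁻¹ ∈ jM hR k hk :=
  hR.comm g.1 h.1 k hk g.2 h.2

instance jM_normal {H : Type} [Group H] {R : H → H → Prop} (hR : LIRel R) (k : H) (hk : k ≠ 1) :
    (jM hR k hk).Normal where
  conj_mem := fun n hn g => by
    have h1 := (jM hR k hk).mul_mem (jM_comm hR k hk g n) hn
    simpa using h1

theorem jump_hom {H : Type} [Group H] [Countable H] {R : H → H → Prop} (hR : LIRel R) (k : H)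
    (hk : k ≠ 1) : ∃ ψ : H → ℝ, (∀ g h, R g k → R h k → ψ (g * h) = ψ g + ψ h) ∧
      ∀ g, R g k → (ψ g = 0 ↔ ¬ R k g) := by
  classical
  letI : CommGroup (jL hR k ⧸ jM hR k hk) :=
    { (inferInstance : Group (jL hR k ⧸ jM hR k hk)) with
      mul_comm := by
        intro a b
        induction a using QuotientGroup.induction_on with
        | H a =>
          induction b using QuotientGroup.induction_on with
          | H b =>
            rw [← QuotientGroup.mk_mul, ← QuotientGroup.mk_mul, QuotientGroup.eq]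
            have h := jM_comm hR k hk b⁻¹ a⁻¹
            simpa [mul_assoc] using h }
  haveI : Countable (jL hR k ⧸ jM hR k hk) := Quotient.countable
  haveI : Countable (Additive (jL hR k ⧸ jM hR k hk)) := this
  obtain ⟨f, hf⟩ := embed_real (A := Additive (jL hR k ⧸ jM hR k hk)) (by
    intro n x hn hx
    have hx' : (Additive.toMul x) ^ n = 1 := by
      rw [← toMul_nsmul, hx, toMul_zero]
    have h2 : Additive.toMul x = 1 := by
      generalize Additive.toMul x = y at hx'
      induction y using QuotientGroup.induction_on with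
      | H g =>
        rw [← QuotientGroup.mk_pow, QuotientGroup.eq_one_iff, jM_mem] at hx'
        rw [QuotientGroup.eq_one_iff, jM_mem]
        intro h
        apply hx'
        have := hR.trans _ _ _ h (hR.pow g.1 n hn)
        simpa using this
    exact Additive.toMul.injective h2)
  refine ⟨fun g => if h : R g k then
    f (Additive.ofMul (QuotientGroup.mk (⟨g, h⟩ : jL hR k))) else 0, ?_, ?_⟩
  · intro g h hg hh
    have hgh : R (g * h) k := hR.mul g h k hg hh
    simp only [dif_pos hg, dif_pos hh, dif_pos hgh]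
    rw [← map_add, ← ofMul_mul, ← QuotientGroup.mk_mul]
    rfl
  · intro g hg
    simp only [dif_pos hg]
    rw [map_eq_zero_iff f hf, ofMul_eq_zero, QuotientGroup.eq_one_iff, jM_mem]

end Pool.Agent.LIR
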