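import Pool.Agent.LIR.G4

set_option autoImplicit false

open Pool.Agent.COST

namespace Pool.Agent.LIR

/-!
**[LIR-G5] The jump system.** PROOF. `Λ` is the quotient of `{g : H // g ≠ 1}` by `R g h ∧ R h g` with
the induced linear order (`Antisymmetrization`, or define the setoid and the order by `Quotient.lift₂`);
countable. `v 1 = ⊥`, `v g = ↑[g]` for `g ≠ 1`. Then `v g ≤ v h` iff `R g h`. `v_mul`: by `total` say
`R g h`; `R (g h) h` by `mul`. `ψ a = ` the function of `jump_hom` for a representative of `a`;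
`v g ≤ a` iff `R g k`, `v g < a` iff `¬ R k g`.
-/

theorem js_exists {H : Type} [Group H] [Countable H] (hH : LocallyIndicable H) :
    Nonempty (JS H) := by
  classical
  obtain ⟨R, hR⟩ := li_rel hH
  have hrefl : ∀ g, R g g := fun g => (hR.total g g).elim id id
  letI P : Preorder {g : H // g ≠ 1} :=
    { le := fun a b => R a.1 b.1
      le_refl := fun a => hrefl a.1
      le_trans := fun a b c h1 h2 => hR.trans _ _ _ h1 h2 }
  haveI hT : Std.Total (α := {g : H // g ≠ 1}) (· ≤ ·) := ⟨fun a b => hR.total a.1 b.1⟩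
  let Λ : Type := Antisymmetrization {g : H // g ≠ 1} (· ≤ ·)
  letI LO : LinearOrder Λ := inferInstanceAs
    (LinearOrder (Antisymmetrization {g : H // g ≠ 1} (· ≤ ·)))
  haveI CO : Countable Λ := inferInstanceAs
    (Countable (Quotient _))
  let v : H → WithBot Λ := fun g =>
    if h : g = 1 then ⊥ else ((toAntisymmetrization (· ≤ ·) (⟨g, h⟩ : {g : H // g ≠ 1}) : Λ) :
      WithBot Λ)
  have hv1 : v 1 = ⊥ := by simp [v]
  have hvn : ∀ (g : H) (h : g ≠ 1), v g =
      ((toAntisymmetrization (· ≤ ·) (⟨g, h⟩ : {g : H // g ≠ 1}) : Λ) : WithBot Λ) := by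
    intro g h
    simp [v, h]
  have hvle : ∀ g h, v g ≤ v h ↔ R g h := by
    intro g h
    by_cases hg : g = 1
    · subst hg
      rw [hv1]
      exact ⟨fun _ => hR.bot h, fun _ => bot_le⟩
    · by_cases hh : h = 1
      · subst hh
        rw [hv1, hvn g hg]
        constructor
        · intro hle
          exact absurd (le_bot_iff.1 hle) (WithBot.coe_ne_bot)
        · intro hr
          exact absurd (hR.one g hr) hg
      · rw [hvn g hg, hvn h hh, WithBot.coe_le_coe]
        exact toAntisymmetrization_le_toAntisymmetrization_iff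
  let rep : Λ → {g : H // g ≠ 1} := fun a => ofAntisymmetrization (· ≤ ·) a
  have hrep : ∀ a : Λ, v (rep a).1 = (a : WithBot Λ) := by
    intro a
    rw [hvn _ (rep a).2]
    congr 1
    exact toAntisymmetrization_ofAntisymmetrization _ a
  have hψ : ∀ a : Λ, ∃ ψ : H → ℝ, (∀ g h, R g (rep a).1 → R h (rep a).1 →
      ψ (g * h) = ψ g + ψ h) ∧ ∀ g, R g (rep a).1 → (ψ g = 0 ↔ ¬ R (rep a).1 g) :=
    fun a => jump_hom hR (rep a).1 (rep a).2
  choose ψ hψ1 hψ2 using hψ
  have hva : ∀ (g : H) (a : Λ), v g ≤ (a : WithBot Λ) ↔ R g (rep a).1 := by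
    intro g a
    rw [← hrep a, hvle]
  refine ⟨(JS.mk Λ LO CO v ?_ ?_ ?_ ψ ?_ ?_ : JS H)⟩
  · intro g
    constructor
    · intro h
      by_contra hg
      rw [hvn g hg] at h
      exact WithBot.coe_ne_bot h
    · intro h
      subst h
      exact hv1
  · intro g
    apply le_antisymm
    · rw [hvle]
      exact hR.inv g
    · rw [hvle]
      have := hR.inv g⁻¹
      rwa [inv_inv] at this
  · intro g h
    rcases hR.total g h with hgh | hhg
    · exact le_trans ((hvle _ _).2 (hR.mul g h h hgh (hrefl h))) (le_max_right _ _)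
    · exact le_trans ((hvle _ _).2 (hR.mul g h g (hrefl g) hhg)) (le_max_left _ _)
  · intro a g h hg hh
    exact hψ1 a g h ((hva g a).1 hg) ((hva h a).1 hh)
  · intro a g hg
    rw [hψ2 a g ((hva g a).1 hg), ← hvle, hrep a, not_le]

end Pool.Agent.LIR
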