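import Pool.Agent.LIR.G5
import Pool.Agent.COST.L1
import Pool.Agent.COSTP.P6

set_option autoImplicit false

open Pool.Agent.COST

namespace Pool.Agent.LIR

/-!
A group with a jump system is locally indicable; in particular bi-orderable countable groups are
locally indicable.
-/

/-- a finitely generated group with a nontrivial homomorphism to the reals maps onto the integers -/
theorem onto_int {K : Type} [Group K] (hK : Group.FG K) (φ : K → ℝ)
    (hφ : ∀ g h, φ (g * h) = φ g + φ h) (hne : ∃ g, φ g ≠ 0) :
    ∃ ψ : K →* Multiplicative ℤ, Function.Surjective ψ := by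
  have h1 : φ 1 = 0 := by
    have h := hφ 1 1
    rw [mul_one] at h
    linarith
  let f : Additive K →+ ℝ :=
    { toFun := fun g => φ g.toMul
      map_zero' := h1
      map_add' := fun g h => hφ g.toMul h.toMul }
  let A : AddSubgroup ℝ := f.range
  have hfgA : AddGroup.FG A := by
    have : AddGroup.FG (Additive K) := by
      have := hK
      infer_instance
    exact AddGroup.fg_range f
  have hfin : Module.Finite ℤ A := Module.Finite.iff_addGroup_fg.mpr hfgA
  have hfree : Module.Free ℤ A := Module.free_of_finite_type_torsion_free'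
  have hnt : Nontrivial A := by
    obtain ⟨g, hg⟩ := hne
    refine ⟨⟨φ g, ⟨Additive.ofMul g, rfl⟩⟩, 0, ?_⟩
    intro h
    exact hg (congrArg Subtype.val h)
  let b := Module.Free.chooseBasis ℤ A
  obtain ⟨i⟩ : Nonempty (Module.Free.ChooseBasisIndex ℤ A) := b.index_nonempty
  let c : A →+ ℤ := (b.coord i).toAddMonoidHom
  have hc : Function.Surjective c := by
    intro n
    refine ⟨n • b i, ?_⟩
    change b.coord i (n • b i) = n
    rw [map_smul, Module.Basis.coord_apply, Module.Basis.repr_self, Finsupp.single_eq_same]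
    simp
  let q : Additive K →+ A := f.rangeRestrict
  have hq : Function.Surjective q := f.rangeRestrict_surjective
  let t : Additive K →+ ℤ := c.comp q
  have ht : Function.Surjective t := hc.comp hq
  refine ⟨AddMonoidHom.toMultiplicativeRight t, ?_⟩
  intro n
  obtain ⟨g, hg⟩ := ht n.toAdd
  exact ⟨g.toMul, hg⟩

theorem li_of_js {H : Type} [Group H] (S : JS H) : LocallyIndicable H := by
  classical
  intro K hK hne
  obtain ⟨F, hF⟩ := hK
  have hFK : ∀ g ∈ F, g ∈ K := fun g hg => by
    rw [← hF]
    exact Subgroup.subset_closure hg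
  -- the top jump
  obtain ⟨g0, hg0, hmax, hg01⟩ : ∃ g0 ∈ F, (∀ g ∈ F, S.v g ≤ S.v g0) ∧ g0 ≠ 1 := by
    have hFne : F.Nonempty := by
      rw [Finset.nonempty_iff_ne_empty]
      intro h
      apply hne
      rw [← hF, h, Finset.coe_empty, Subgroup.closure_empty]
    obtain ⟨g0, hg0, hmax⟩ := Finset.exists_max_image F S.v hFne
    refine ⟨g0, hg0, hmax, ?_⟩
    rintro rfl
    apply hne
    rw [← hF, Subgroup.closure_eq_bot_iff]
    intro g hg
    have h2 := hmax g hg
    rw [JS.v_one, le_bot_iff] at h2
    exact (S.v_bot g).mp h2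
  have hbot : S.v g0 ≠ ⊥ := fun h => hg01 ((S.v_bot g0).mp h)
  obtain ⟨a, ha⟩ := WithBot.ne_bot_iff_exists.mp hbot
  have hK : ∀ g ∈ K, S.v g ≤ a := by
    intro g hg
    rw [← hF] at hg
    induction hg using Subgroup.closure_induction with
    | mem x hx =>
      rw [ha]
      exact hmax x hx
    | one =>
      rw [JS.v_one]
      exact bot_le
    | mul x y _ _ hx hy => exact S.le_mul hx hy
    | inv x _ hx =>
      rw [S.v_inv]
      exact hx
  refine onto_int (K := K) ?_ (fun g => S.ψ a g) ?_ ?_
  · rw [Group.fg_iff_subgroup_fg]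
    exact ⟨F, hF⟩
  · intro g h
    exact S.ψ_mul a g h (hK g g.2) (hK h h.2)
  · refine ⟨⟨g0, hFK g0 hg0⟩, ?_⟩
    intro h
    have h2 := (S.ψ_zero a g0 (hK g0 (hFK g0 hg0))).mp h
    rw [ha] at h2
    exact lt_irrefl _ h2

/-- a countable group has a jump system if and only if it is locally indicable -/
theorem js_iff {H : Type} [Group H] [Countable H] : Nonempty (JS H) ↔ LocallyIndicable H :=
  ⟨fun ⟨S⟩ => li_of_js S, js_exists⟩

/-- countable bi-orderable groups are locally indicable -/
theorem li_of_biorder {H : Type} [Group H] [Countable H] (hH : BiOrderable H) :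
    LocallyIndicable H := by
  obtain ⟨hlo, h1, h2⟩ := hH
  have hL : MulLeftMono H := ⟨fun c a b hab => h1 a b c hab⟩
  have hR : MulRightMono H := ⟨fun c a b hab => h2 a b c hab⟩
  obtain ⟨S⟩ := cjs_exists (H := H)
  exact li_of_js S.toJS

end Pool.Agent.LIR
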