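import Pool.Agent.LIR.F
import Pool.Agent.LIR.G5
import Pool.Agent.COSTP.P6

set_option autoImplicit false

open scoped ENNReal
open Pool.Agent.COST

namespace Pool.Agent.LIR

/-!
The rank property of locally indicable groups, the class of groups which they generate under
subgroups, local closure and extensions with amenable quotient, and the identity of cost and first
l2-Betti number for it.
-/

/-- countable locally indicable groups have the rank property -/
theorem rank_li {H : Type} [Group H] [Countable H] (hH : LocallyIndicable H) : RankProp H := by
  classical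
  intro I _ W ε hε
  obtain ⟨S⟩ := js_exists hH
  obtain ⟨D⟩ := lin_data' S {w : I → H →₀ ℂ | vecF w ∈ W}
  obtain ⟨X, T, hT, hsum, hu⟩ := m1 D ε hε
  refine ⟨X, T, hT, ?_,
    fun x i => single_mem_gspan W T (fun Y _ π hπ φ h3 h4 => hu Y π hπ φ h3 h4) x i⟩
  have hm2 := m2 D
  have hle : vd (wspan W) ≤ D.r := by
    refine le_trans (vd_mono ?_) hm2
    unfold wspan
    apply Submodule.span_mono
    rintro f ⟨g, w, hw, rfl⟩
    refine ⟨fun i => (w.comapDomain (fun h => (h, i))
      (fun a _ b _ hab => (Prod.ext_iff.mp hab).1)), ?_, g, ?_⟩
    · change vecF _ ∈ W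
      have e : vecF (fun i => (w.comapDomain (fun h => (h, i))
          (fun a _ b _ hab => (Prod.ext_iff.mp hab).1))) = w := by
        ext ⟨h, j⟩
        rw [vecF_apply]
        rfl
      rw [e]
      exact hw
    · have e : vecF (fun i => (w.comapDomain (fun h => (h, i))
          (fun a _ b _ hab => (Prod.ext_iff.mp hab).1))) = w := by
        ext ⟨h, j⟩
        rw [vecF_apply]
        rfl
      rw [e]
  have h5 : ENNReal.ofReal (vd (wspan W)) ≤ (D.r : ℝ≥0∞) := by
    rw [← ENNReal.ofReal_natCast]
    exact ENNReal.ofReal_le_ofReal hle
  calc ∑ i, X.μ (T i) + ENNReal.ofReal (vd (wspan W)) ≤ ∑ i, X.μ (T i) + D.r := by gcongr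
    _ ≤ Fintype.card I + ε := hsum

/-- The smallest class of countable groups which contains the locally indicable groups and is closed
under subgroups (more generally, groups which inject into a member), under local closure (every
finite subset lies in a subgroup of the class), in particular under directed unions, and under
extensions with amenable quotient: if `N` is a normal subgroup in the class and `G ⧸ N` satisfies
the Folner condition, then `G` is in the class. -/
inductive IndClass : (G : Type) → [Group G] → Prop
  | locallyIndicable (G : Type) [Group G] [Countable G] (h : LocallyIndicable G) : IndClass G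
  | subgroup (G H : Type) [Group G] [Group H] (f : G →* H) (hf : Function.Injective f)
      (h : IndClass H) : IndClass G
  | localClosure (G : Type) [Group G] [Countable G] (L : Finset G → Subgroup G)
      (hL : ∀ F : Finset G, (F : Set G) ⊆ L F) (h : ∀ F : Finset G, IndClass (L F)) : IndClass G
  | extension (G : Type) [Group G] [Countable G] (N : Subgroup G) [N.Normal] (hN : IndClass N)
      (hQ : Folner (G ⧸ N)) : IndClass G

theorem IndClass.rank {G : Type} [Group G] (h : IndClass G) : RankProp G := by
  induction h with
  | locallyIndicable G h => exact rank_li h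
  | subgroup G H f hf _ ih => exact RankProp.sub f hf ih
  | localClosure G L hL _ ih => exact RankProp.loc fun F => ⟨L F, hL F, ih F⟩
  | extension G N _ hQ ih => exact RankProp.ext N ih hQ

/-- The identity `b_1^(2)(G) = cost(G) - 1` for every infinite finitely generated group of the
class. -/
theorem betti_eq_cost_of_ind {G : Type} [Group G] [Infinite G] (hG : IndClass G) {d : ℕ}
    (s : Fin d → G) (hs : Subgroup.closure (Set.range s) = ⊤) :
    groupCost G ≠ ⊤ ∧ Statement.bettiOne s = (groupCost G).toReal - 1 := by
  have hc : Countable G := e7_1_countable s hs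
  have h1 : groupCost G = ENNReal.ofReal (1 + bettiOne s) :=
    le_antisymm (cost_of_rank hG.rank s hs) (betti_le_cost s hs)
  rw [statement_bettiOne, h1]
  refine ⟨ENNReal.ofReal_ne_top, ?_⟩
  rw [ENNReal.toReal_ofReal (one_add_betti_nonneg s hs)]
  ring

end Pool.Agent.LIR
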