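import Pool.Agent.LIR.Z0
import Pool.Agent.LIR.Z1

set_option autoImplicit false

open Pool.Agent.COST

namespace Pool.Agent.LIR

/-!
The class generated by the bi-orderable groups is contained in the class generated by the locally
indicable groups.
-/

theorem ind_of_amen {G : Type} [Group G] (h : AmenClass G) : IndClass G := by
  induction h with
  | biOrderable G h => exact IndClass.locallyIndicable G (li_of_biorder h)
  | subgroup G H f hf _ ih => exact IndClass.subgroup G H f hf ih
  | localClosure G L hL _ ih => exact IndClass.localClosure G L hL ih
  | extension G N _ hQ ih => exact IndClass.extension G N ih hQ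

/-- every countable virtually locally indicable group is in the class -/
theorem IndClass.of_finiteIndex {G : Type} [Group G] [Countable G] (H : Subgroup G)
    [H.FiniteIndex] (hH : LocallyIndicable H) : IndClass G := by
  have h1 : IndClass H := IndClass.locallyIndicable H hH
  have h2 : IndClass H.normalCore :=
    IndClass.subgroup _ H (Subgroup.inclusion H.normalCore_le)
      (Subgroup.inclusion_injective _) h1
  have h3 : Finite (G ⧸ H.normalCore) := Subgroup.finite_quotient_of_finiteIndex
  exact IndClass.extension G H.normalCore h2 folner_of_finite

end Pool.Agent.LIR
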